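import Pool.Agent.ZS51.Final
import Pool.Agent.ZZ51.Main

/-!
# ZS51/Many: the local density theorem with several windows of heights (helper51)
-/

set_option autoImplicit false

open Filter Topology ZZ51

namespace ZS51

theorem bridgeK (n : ℕ) (hn : 1 ≤ n) (K : ℕ) (δ c : ℝ) (hc : 0 ≤ c) (hδ : 0 < δ)
    (h : ∀ j : ℕ, 1 ≤ j → j ≤ K → ¬ Bad ((j : ℝ) / (K + 1) + δ) ((j : ℝ) / (K + 1) - δ) c n) :
    NonConc n (c * Real.sqrt (mu n (al n)) / Real.log n) (1 / ((K : ℝ) + 1) + 2 * δ) := by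
  intro b
  by_contra hlt
  push Not at hlt
  set L := c * Real.sqrt (mu n (al n)) / Real.log n with hL
  have hlt' : 1 / ((K : ℝ) + 1) + 2 * δ < Pr n (brE n b L) := hlt
  have hK0 : (0 : ℝ) < (K : ℝ) + 1 := by positivity
  have h1K : 0 < 1 / ((K : ℝ) + 1) := by positivity
  have h3 := br_diff n hn b L (by linarith)
  have h5 := br_len_le b L (br_len n c hc)
  obtain ⟨t, ht⟩ : ∃ t : ℝ, t = T n ⌊b + L⌋₊ := ⟨_, rfl⟩
  have ht0 : 0 ≤ t := ht ▸ T_nonneg _ _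
  have hTx1 := T_le_one n (⌈b⌉₊ - 1)
  rw [← ht] at h3
  obtain ⟨j, hj⟩ : ∃ j : ℕ, j = ⌊((K : ℝ) + 1) * (t + δ)⌋₊ + 1 := ⟨_, rfl⟩
  have hj1 : ((j : ℝ) - 1) ≤ ((K : ℝ) + 1) * (t + δ) := by
    rw [hj]
    push_cast
    have := Nat.floor_le (show 0 ≤ ((K : ℝ) + 1) * (t + δ) by positivity)
    linarith
  have hj2 : ((K : ℝ) + 1) * (t + δ) < j := by
    rw [hj]
    push_cast
    exact Nat.lt_floor_add_one _
  have hj3 : ((j : ℝ) - 1) / ((K : ℝ) + 1) ≤ t + δ := by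
    rw [div_le_iff₀ hK0]
    linarith
  have hj4 : t + δ < (j : ℝ) / ((K : ℝ) + 1) := by
    rw [lt_div_iff₀ hK0]
    linarith
  have hj5 : ((j : ℝ) - 1) / ((K : ℝ) + 1) = (j : ℝ) / (K + 1) - 1 / (K + 1) := by ring
  rcases le_or_gt j K with hjK | hjK
  · apply h j (by omega) hjK
    refine ⟨_, _, ?_, ?_, h5⟩
    · linarith
    · rw [← ht]
      linarith
  · have hj6 : (K : ℝ) + 1 ≤ j := by exact_mod_cast hjK
    have hj7 : 1 ≤ (j : ℝ) / ((K : ℝ) + 1) := by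
      rw [le_div_iff₀ hK0]
      linarith
    linarith

open Classical in
theorem local_many_aux (K : ℕ) (d ε κ : ℝ) (hd : 0 < d) (hdK : d < 1 / ((K : ℝ) + 1))
    (hε : 0 < ε) (hκ : 0 < κ) (m : ℕ) (hm : m ≤ K) :
    ∃ c : ℝ, 0 < c ∧ ∀ᶠ N : ℕ in atTop, ∀ j : ℕ, 1 ≤ j → j ≤ m →
      ∑ n ∈ Finset.Ioc N ⌊(1 + κ) * (N : ℝ)⌋₊, (1 - Int.fract (al0 n)) - ε * N
        ≤ (((Finset.Ioc N ⌊(1 + κ) * (N : ℝ)⌋₊).filter
            (fun n : ℕ => ¬ Bad ((j : ℝ) / (K + 1) + d) ((j : ℝ) / (K + 1) - d) c n)).card : ℝ) := by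
  induction m with
  | zero => exact ⟨1, one_pos, Eventually.of_forall (fun N j h1 h2 => by omega)⟩
  | succ m ih =>
    obtain ⟨c1, hc1, h1⟩ := ih (by omega)
    have hK0 : (0 : ℝ) < (K : ℝ) + 1 := by positivity
    have hmK : ((m : ℝ) + 1) ≤ K := by exact_mod_cast hm
    have e1 : 1 / ((K : ℝ) + 1) ≤ ((m + 1 : ℕ) : ℝ) / (K + 1) := by
      have : (0 : ℝ) ≤ m := Nat.cast_nonneg m
      rw [div_le_div_iff_of_pos_right hK0]
      push_cast
      linarith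
    have e2 : ((m + 1 : ℕ) : ℝ) / (K + 1) ≤ 1 - 1 / ((K : ℝ) + 1) := by
      have : 1 - 1 / ((K : ℝ) + 1) = K / (K + 1) := by field_simp; ring
      rw [this, div_le_div_iff_of_pos_right hK0]
      push_cast
      exact hmK
    obtain ⟨c2, hc2, h2⟩ := local_window sharp (((m + 1 : ℕ) : ℝ) / (K + 1) + d)
      (((m + 1 : ℕ) : ℝ) / (K + 1) - d) ε κ (by linarith) (by linarith) (by linarith) hε hκ
    refine ⟨min c1 c2, lt_min hc1 hc2, ?_⟩
    filter_upwards [h1, h2] with N hN1 hN2 j hj1 hj2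
    rcases Nat.lt_or_ge m j with hj | hj
    · have hjm : j = m + 1 := by omega
      subst hjm
      refine hN2.trans ?_
      have : (Finset.Ioc N ⌊(1 + κ) * (N : ℝ)⌋₊).filter (fun n : ℕ =>
          ¬ Bad (((m + 1 : ℕ) : ℝ) / (K + 1) + d) (((m + 1 : ℕ) : ℝ) / (K + 1) - d) c2 n)
          ⊆ (Finset.Ioc N ⌊(1 + κ) * (N : ℝ)⌋₊).filter (fun n : ℕ =>
          ¬ Bad (((m + 1 : ℕ) : ℝ) / (K + 1) + d) (((m + 1 : ℕ) : ℝ) / (K + 1) - d)
            (min c1 c2) n) := by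
        intro n hn
        rw [Finset.mem_filter] at hn ⊢
        exact ⟨hn.1, fun h => hn.2 (Bad_mono _ _ _ _ (min_le_right _ _) n h)⟩
      exact_mod_cast Finset.card_le_card this
    · refine (hN1 j hj1 hj).trans ?_
      have : (Finset.Ioc N ⌊(1 + κ) * (N : ℝ)⌋₊).filter (fun n : ℕ =>
          ¬ Bad ((j : ℝ) / (K + 1) + d) ((j : ℝ) / (K + 1) - d) c1 n)
          ⊆ (Finset.Ioc N ⌊(1 + κ) * (N : ℝ)⌋₊).filter (fun n : ℕ =>
          ¬ Bad ((j : ℝ) / (K + 1) + d) ((j : ℝ) / (K + 1) - d) (min c1 c2) n) := by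
        intro n hn
        rw [Finset.mem_filter] at hn ⊢
        exact ⟨hn.1, fun h => hn.2 (Bad_mono _ _ _ _ (min_le_left _ _) n h)⟩
      exact_mod_cast Finset.card_le_card this

open Classical in
/-- **local density theorem**: near every `N`, all but `∑ K {α₀(n)} + ε N` of the `n` have all intervals
of length `c √μ_α / log n` of probability at most `1/(K+1) + δ` -/
theorem local_many (K : ℕ) (hK : 1 ≤ K) (δ ε κ : ℝ) (hδ : 0 < δ) (hε : 0 < ε) (hκ : 0 < κ) :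
    ∃ c : ℝ, 0 < c ∧ ∀ᶠ N : ℕ in atTop,
      ∑ n ∈ Finset.Ioc N ⌊(1 + κ) * (N : ℝ)⌋₊, (1 - K * Int.fract (al0 n)) - ε * N
        ≤ (((Finset.Ioc N ⌊(1 + κ) * (N : ℝ)⌋₊).filter (fun n : ℕ =>
            NonConc n (c * Real.sqrt (mu n (al n)) / Real.log n)
              (1 / ((K : ℝ) + 1) + δ))).card : ℝ) := by
  have hK0 : (0 : ℝ) < K := by exact_mod_cast hK
  have hd0 : 0 < min (δ / 2) (1 / (2 * ((K : ℝ) + 1))) := lt_min (by linarith) (by positivity)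
  obtain ⟨d, hd⟩ : ∃ d : ℝ, d = min (δ / 2) (1 / (2 * ((K : ℝ) + 1))) := ⟨_, rfl⟩
  rw [← hd] at hd0
  have hdδ : d ≤ δ / 2 := hd ▸ min_le_left _ _
  have hdK : d < 1 / ((K : ℝ) + 1) := by
    have h1 : d ≤ 1 / (2 * ((K : ℝ) + 1)) := hd ▸ min_le_right _ _
    have h2 : 1 / (2 * ((K : ℝ) + 1)) = 1 / ((K : ℝ) + 1) / 2 := by
      rw [div_div, mul_comm]
    have h3 : 0 < 1 / ((K : ℝ) + 1) := by positivity
    linarith
  obtain ⟨c, hc, h⟩ := local_many_aux K d (ε / K) κ hd0 hdK (by positivity) hκ K le_rfl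
  refine ⟨c, hc, ?_⟩
  filter_upwards [h] with N hN
  obtain ⟨S, hS⟩ : ∃ S : Finset ℕ, S = Finset.Ioc N ⌊(1 + κ) * (N : ℝ)⌋₊ := ⟨_, rfl⟩
  rw [← hS] at hN ⊢
  have hpos : ∀ n ∈ S, 1 ≤ n := by
    intro n hn
    rw [hS, Finset.mem_Ioc] at hn
    omega
  set G := S.filter (fun n : ℕ =>
            NonConc n (c * Real.sqrt (mu n (al n)) / Real.log n) (1 / ((K : ℝ) + 1) + δ)) with hG
  have hcover : S ⊆ G ∪ (Finset.Icc 1 K).biUnion (fun j : ℕ => S.filter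
      (fun n : ℕ => Bad ((j : ℝ) / (K + 1) + d) ((j : ℝ) / (K + 1) - d) c n)) := by
    intro n hn
    by_cases hb : ∃ j : ℕ, 1 ≤ j ∧ j ≤ K ∧
        Bad ((j : ℝ) / (K + 1) + d) ((j : ℝ) / (K + 1) - d) c n
    · obtain ⟨j, h1, h2, h3⟩ := hb
      refine Finset.mem_union_right _ (Finset.mem_biUnion.mpr ⟨j, Finset.mem_Icc.mpr ⟨h1, h2⟩, ?_⟩)
      exact Finset.mem_filter.mpr ⟨hn, h3⟩
    · push Not at hb
      refine Finset.mem_union_left _ (Finset.mem_filter.mpr ⟨hn, ?_⟩)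
      exact (bridgeK n (hpos n hn) K d c hc.le hd0 hb).mono (by linarith)
  have hcard1 : (S.card : ℝ) ≤ G.card + ∑ j ∈ Finset.Icc 1 K, ((S.filter
      (fun n : ℕ => Bad ((j : ℝ) / (K + 1) + d) ((j : ℝ) / (K + 1) - d) c n)).card : ℝ) := by
    have h1 := (Finset.card_le_card hcover).trans (Finset.card_union_le _ _)
    have h2 : ((Finset.Icc 1 K).biUnion (fun j : ℕ => S.filter
      (fun n : ℕ => Bad ((j : ℝ) / (K + 1) + d) ((j : ℝ) / (K + 1) - d) c n))).card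
        ≤ ∑ j ∈ Finset.Icc 1 K, (S.filter
      (fun n : ℕ => Bad ((j : ℝ) / (K + 1) + d) ((j : ℝ) / (K + 1) - d) c n)).card :=
      Finset.card_biUnion_le
    have h3 := h1.trans (Nat.add_le_add_left h2 _)
    exact_mod_cast h3
  have hbad : ∀ j ∈ Finset.Icc 1 K, ((S.filter
      (fun n : ℕ => Bad ((j : ℝ) / (K + 1) + d) ((j : ℝ) / (K + 1) - d) c n)).card : ℝ)
        ≤ ∑ n ∈ S, Int.fract (al0 n) + ε / K * N := by
    intro j hj
    rw [Finset.mem_Icc] at hj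
    have h1 := hN j hj.1 hj.2
    have h2 := Finset.card_filter_add_card_filter_not (s := S)
      (fun n : ℕ => Bad ((j : ℝ) / (K + 1) + d) ((j : ℝ) / (K + 1) - d) c n)
    have h3 : ((S.filter
      (fun n : ℕ => Bad ((j : ℝ) / (K + 1) + d) ((j : ℝ) / (K + 1) - d) c n)).card : ℝ)
      + (S.filter
      (fun n : ℕ => ¬ Bad ((j : ℝ) / (K + 1) + d) ((j : ℝ) / (K + 1) - d) c n)).card = S.card := by
      exact_mod_cast h2
    rw [Finset.sum_sub_distrib, Finset.sum_const, nsmul_eq_mul, mul_one] at h1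
    linarith
  have hsum := Finset.sum_le_sum hbad
  rw [Finset.sum_const, Nat.card_Icc, Nat.add_sub_cancel, nsmul_eq_mul] at hsum
  have hKε : (K : ℝ) * (∑ n ∈ S, Int.fract (al0 n) + ε / K * N)
      = K * ∑ n ∈ S, Int.fract (al0 n) + ε * N := by
    field_simp
  rw [Finset.sum_sub_distrib, Finset.sum_const, nsmul_eq_mul, mul_one, ← Finset.mul_sum]
  linarith

end ZS51
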