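import Pool.Agent.ZS51.CountB

/-!
# ZS51/Medium: the product bound for small cells

Let `R = Dᶜ`, `N = n - |D|`, `r_i = #{v ∈ R : f v = i} ≤ b`, `c_j = s j - cnt D h j ≤ b`.
PROOF of `medium_prod`. For `x ≤ θ`: `2^{C(x,2)} ≤ 1 + ∑_{z=2}^θ 2^{C(z,2)} C(x,z)` (term `z = x`), and `C(x,z)` is the
number of subsets of size `z` of the cell. So with `𝒜_i = {A ⊆ R ∩ f⁻¹(i) : |A| = 0 or 2 ≤ |A| ≤ θ}`
`∏_{i,j} 2^{C(cell,2)} ≤ ∏_{i,j} ∑_{A ∈ 𝒜_i, A ⊆ g⁻¹(j)} 2^{C(|A|,2)}
  = ∑_{(A_{ij})} ∏ 2^{C(|A_{ij}|,2)} 1[g = j on A_{ij} for all i,j]` (`Finset.prod_univ_sum`, families on `Fin k × Fin k`).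
For a family `(A_{ij})` the number of `g ∈ Om s D h` with `g = j` on `A_{ij}` is 0 unless the `A_{ij}` are disjoint
(for fixed `i` different `j` would give one vertex two colours; for different `i` they are disjoint since `A ⊆ f⁻¹(i)`),
and then by `om_ext` (`D' = D ∪ ⋃ A_{ij}`, `h' = j` on `A_{ij}`, `h' = h` on `D`; note that `cnt D h' = cnt D h`,
`Om s D h' = Om s D h`) it is at most `|Om s D h| ∏_{ij} (e c_j / N)^{|A_{ij}|}`.  Summing over the families:
`≤ |Om s D h| ∏_{ij} (1 + ∑_{z=2}^θ C(r_i,z) 2^{C(z,2)} (e c_j/N)^z) ≤ |Om s D h| exp (∑_{ij} ∑_z ...)`, and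
`C(r_i,z) ≤ r_i b^{z-1}/z!`, `c_j^z ≤ c_j b^{z-1}`, `∑ r_i = ∑ c_j = N` (`sum_rest`; if `Om s D h = ∅` everything is 0).
If `N = 0` all cells are empty and the claim is `|Om| ≤ |Om| exp(≥ 0)`.
`medium_triv`: `∑_{ij} C(cell,2) ≤ ∑_{ij} cell · b = N b` since each cell is at most `b`.
-/

set_option autoImplicit false

namespace ZS51

variable {n k : ℕ}

/-- the exponent of the product bound -/
noncomputable def medExp (b θ N : ℕ) : ℝ :=
  ∑ z ∈ Finset.Icc 2 θ, Real.exp z * (b : ℝ) ^ (2 * z - 2) * (2 : ℝ) ^ (z.choose 2)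
    / ((N : ℝ) ^ (z - 2) * (z.factorial : ℝ))

theorem medExp_nonneg (b θ N : ℕ) : 0 ≤ medExp b θ N := by
  unfold medExp
  apply Finset.sum_nonneg
  intro z _
  positivity

/-- the elements outside `D` with `f`-colour `i` -/
def row (D : Finset (Fin n)) (f : Fin n → Fin k) (i : Fin k) : Finset (Fin n) :=
  Dᶜ.filter (fun v => f v = i)

theorem row_card_le (D : Finset (Fin n)) (f : Fin n → Fin k) (i : Fin k) :
    (row D f i).card ≤ cnt Finset.univ f i := by
  unfold row cnt
  apply Finset.card_le_card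
  intro v hv
  rw [Finset.mem_filter] at hv ⊢
  exact ⟨Finset.mem_univ _, hv.2⟩

theorem sum_row (D : Finset (Fin n)) (f : Fin n → Fin k) :
    ∑ i, (row D f i).card = n - D.card := by
  have h1 : Dᶜ.card = ∑ i, (row D f i).card := by
    unfold row
    exact Finset.card_eq_sum_card_fiberwise (fun v _ => Finset.mem_coe.2 (Finset.mem_univ (f v)))
  rw [← h1, Finset.card_compl, Fintype.card_fin]

theorem sum_cell (D : Finset (Fin n)) (f g : Fin n → Fin k) :
    ∑ i, ∑ j, cell Dᶜ f g i j = n - D.card := by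
  rw [← sum_row D f]
  apply Finset.sum_congr rfl
  intro i _
  have h1 : (row D f i).card = ∑ j, ((row D f i).filter (fun v => g v = j)).card :=
    Finset.card_eq_sum_card_fiberwise (fun v _ => Finset.mem_coe.2 (Finset.mem_univ (g v)))
  rw [h1]
  apply Finset.sum_congr rfl
  intro j _
  unfold cell row
  rw [Finset.filter_filter]

theorem cell_le (D : Finset (Fin n)) (f g : Fin n → Fin k) (i j : Fin k) :
    cell Dᶜ f g i j ≤ cnt Finset.univ f i := by
  unfold cell cnt
  apply Finset.card_le_card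
  intro v hv
  rw [Finset.mem_filter] at hv ⊢
  exact ⟨Finset.mem_univ _, hv.2.1⟩

theorem ov_triv (b : ℕ) (f g : Fin n → Fin k)
    (hf : ∀ i, cnt Finset.univ f i ≤ b) (D : Finset (Fin n)) :
    ov Dᶜ f g ≤ (n - D.card) * b := by
  rw [← sum_cell D f g, Finset.sum_mul]
  unfold ov
  apply Finset.sum_le_sum
  intro i _
  rw [Finset.sum_mul]
  apply Finset.sum_le_sum
  intro j _
  have h1 := (cell_le D f g i j).trans (hf i)
  rw [Nat.choose_two_right]
  refine (Nat.div_le_self _ _).trans ?_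
  exact Nat.mul_le_mul_left _ ((Nat.sub_le _ _).trans h1)

/-- the family of cells with at least two elements -/
def fam (D : Finset (Fin n)) (f g : Fin n → Fin k) (p : Fin k × Fin k) : Finset (Fin n) :=
  if 2 ≤ cell Dᶜ f g p.1 p.2 then Dᶜ.filter (fun v => f v = p.1 ∧ g v = p.2) else ∅

/-- the admissible subsets of a row -/
def adm (D : Finset (Fin n)) (f : Fin n → Fin k) (θ : ℕ) (p : Fin k × Fin k) :
    Finset (Finset (Fin n)) :=
  (row D f p.1).powerset.filter (fun A => A.card = 0 ∨ (2 ≤ A.card ∧ A.card ≤ θ))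

theorem fam_mem (D : Finset (Fin n)) (f g : Fin n → Fin k) (θ : ℕ)
    (hg : ∀ i j, cell Dᶜ f g i j ≤ θ) : fam D f g ∈ Fintype.piFinset (adm D f θ) := by
  rw [Fintype.mem_piFinset]
  intro p
  unfold adm fam
  rw [Finset.mem_filter, Finset.mem_powerset]
  by_cases h : 2 ≤ cell Dᶜ f g p.1 p.2
  · rw [if_pos h]
    refine ⟨?_, Or.inr ⟨h, hg _ _⟩⟩
    intro v hv
    rw [Finset.mem_filter] at hv
    unfold row
    rw [Finset.mem_filter]
    exact ⟨hv.1, hv.2.1⟩
  · rw [if_neg h]
    exact ⟨Finset.empty_subset _, Or.inl Finset.card_empty⟩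

theorem fam_card (D : Finset (Fin n)) (f g : Fin n → Fin k) (p : Fin k × Fin k) :
    (fam D f g p).card.choose 2 = (cell Dᶜ f g p.1 p.2).choose 2 := by
  unfold fam
  by_cases h : 2 ≤ cell Dᶜ f g p.1 p.2
  · rw [if_pos h]
    rfl
  · rw [if_neg h, Finset.card_empty, Nat.choose_eq_zero_of_lt (by norm_num),
      Nat.choose_eq_zero_of_lt (by omega)]

theorem two_pow_ov (D : Finset (Fin n)) (f g : Fin n → Fin k) :
    (2 : ℝ) ^ (ov Dᶜ f g) = ∏ p, (2 : ℝ) ^ ((fam D f g p).card.choose 2) := by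
  rw [Finset.prod_pow_eq_pow_sum]
  congr 1
  unfold ov
  rw [Fintype.sum_prod_type]
  apply Finset.sum_congr rfl
  intro i _
  apply Finset.sum_congr rfl
  intro j _
  rw [fam_card]

/-- `g` has the colours prescribed by the family -/
def Cons (A : Fin k × Fin k → Finset (Fin n)) (g : Fin n → Fin k) : Prop :=
  ∀ p, ∀ v ∈ A p, g v = p.2

instance (A : Fin k × Fin k → Finset (Fin n)) (g : Fin n → Fin k) : Decidable (Cons A g) := by
  unfold Cons
  infer_instance

theorem cons_fam (D : Finset (Fin n)) (f g : Fin n → Fin k) : Cons (fam D f g) g := by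
  intro p v hv
  unfold fam at hv
  split_ifs at hv with h
  · exact (Finset.mem_filter.1 hv).2.2
  · exact absurd hv (Finset.notMem_empty _)

theorem om_congr (s : Fin k → ℕ) (D : Finset (Fin n)) (h h' : Fin n → Fin k)
    (e : ∀ v ∈ D, h v = h' v) : Om s D h = Om s D h' := by
  unfold Om
  apply Finset.filter_congr
  intro g _
  constructor
  · intro H v hv
    rw [H v hv, e v hv]
  · intro H v hv
    rw [H v hv, e v hv]

theorem cnt_congr (D : Finset (Fin n)) (h h' : Fin n → Fin k)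
    (e : ∀ v ∈ D, h v = h' v) (j : Fin k) : cnt D h j = cnt D h' j := by
  unfold cnt
  congr 1
  apply Finset.filter_congr
  intro v hv
  rw [e v hv]

/-- number of functions with the colours prescribed by a family -/
theorem card_cons (s : Fin k → ℕ) (hs : ∑ j, s j = n) (θ : ℕ) (f : Fin n → Fin k)
    (D : Finset (Fin n)) (h : Fin n → Fin k) (A : Fin k × Fin k → Finset (Fin n))
    (hA : A ∈ Fintype.piFinset (adm D f θ)) :
    (((Om s D h).filter (fun g => Cons A g)).card : ℝ) ≤ ((Om s D h).card : ℝ) *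
      ∏ p, (Real.exp 1 * ((s p.2 - cnt D h p.2 : ℕ) : ℝ) / ((n - D.card : ℕ) : ℝ)) ^ (A p).card := by
  have hpos : 0 ≤ ((Om s D h).card : ℝ) *
      ∏ p, (Real.exp 1 * ((s p.2 - cnt D h p.2 : ℕ) : ℝ) / ((n - D.card : ℕ) : ℝ)) ^ (A p).card := by
    apply mul_nonneg (Nat.cast_nonneg _)
    apply Finset.prod_nonneg
    intro p _
    positivity
  rcases Finset.eq_empty_or_nonempty ((Om s D h).filter (fun g => Cons A g)) with h0 | ⟨g0, hg0⟩
  · rw [h0, Finset.card_empty, Nat.cast_zero]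
    exact hpos
  rw [Finset.mem_filter] at hg0
  obtain ⟨hg0, hc0⟩ := hg0
  have hD0 : ∀ v ∈ D, g0 v = h v := by
    unfold Om at hg0
    exact (Finset.mem_filter.1 hg0).2
  have hAsub : ∀ p, ∀ v ∈ A p, v ∉ D ∧ f v = p.1 := by
    intro p v hv
    have h1 := Fintype.mem_piFinset.1 hA p
    unfold adm at h1
    rw [Finset.mem_filter, Finset.mem_powerset] at h1
    have h2 := h1.1 hv
    unfold row at h2
    rw [Finset.mem_filter, Finset.mem_compl] at h2
    exact h2
  set U : Finset (Fin n) := Finset.univ.biUnion A with hU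
  have hdisj : ∀ p ∈ (Finset.univ : Finset (Fin k × Fin k)), ∀ q ∈ (Finset.univ : Finset (Fin k × Fin k)),
      p ≠ q → Disjoint (A p) (A q) := by
    intro p _ q _ hpq
    rw [Finset.disjoint_left]
    intro v hvp hvq
    apply hpq
    apply Prod.ext
    · rw [← (hAsub p v hvp).2, ← (hAsub q v hvq).2]
    · rw [← hc0 p v hvp, ← hc0 q v hvq]
  have hdiff : (D ∪ U) \ D = U := by
    ext v
    rw [Finset.mem_sdiff, Finset.mem_union]
    constructor
    · rintro ⟨h1 | h1, h2⟩
      · exact absurd h1 h2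
      · exact h1
    · intro h1
      refine ⟨Or.inr h1, ?_⟩
      rw [hU, Finset.mem_biUnion] at h1
      obtain ⟨p, _, hp⟩ := h1
      exact (hAsub p v hp).1
  have hext := om_ext s hs D (D ∪ U) Finset.subset_union_left g0
  rw [hdiff] at hext
  have hsub : (Om s D h).filter (fun g => Cons A g) ⊆ Om s (D ∪ U) g0 := by
    intro g hg
    rw [Finset.mem_filter] at hg
    obtain ⟨hg, hc⟩ := hg
    unfold Om at hg ⊢
    rw [Finset.mem_filter] at hg ⊢
    refine ⟨hg.1, ?_⟩
    intro v hv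
    rcases Finset.mem_union.1 hv with h1 | h1
    · rw [hg.2 v h1, hD0 v h1]
    · rw [hU, Finset.mem_biUnion] at h1
      obtain ⟨p, _, hp⟩ := h1
      rw [hc p v hp, hc0 p v hp]
  have hcard := Finset.card_le_card hsub
  have hcard' : (((Om s D h).filter (fun g => Cons A g)).card : ℝ) ≤ ((Om s (D ∪ U) g0).card : ℝ) := by
    exact_mod_cast hcard
  have hOm : Om s D g0 = Om s D h := om_congr s D g0 h hD0
  rw [hOm] at hext
  -- the product over `U`
  have hprod : ∏ v ∈ U, (Real.exp 1 * ((s (g0 v) - cnt D g0 (g0 v) : ℕ) : ℝ)) =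
      ∏ p, (Real.exp 1 * ((s p.2 - cnt D h p.2 : ℕ) : ℝ)) ^ (A p).card := by
    rw [hU, Finset.prod_biUnion (fun p hp q hq hpq => hdisj p hp q hq hpq)]
    apply Finset.prod_congr rfl
    intro p _
    rw [← Finset.prod_const]
    apply Finset.prod_congr rfl
    intro v hv
    rw [hc0 p v hv, cnt_congr D g0 h hD0]
  have hUcard : U.card = ∑ p, (A p).card := by
    rw [hU]
    exact Finset.card_biUnion (fun p hp q hq hpq => hdisj p hp q hq hpq)
  rw [hprod] at hext
  have hprod2 : ∏ p, (Real.exp 1 * ((s p.2 - cnt D h p.2 : ℕ) : ℝ) / ((n - D.card : ℕ) : ℝ)) ^ (A p).card =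
      (∏ p, (Real.exp 1 * ((s p.2 - cnt D h p.2 : ℕ) : ℝ)) ^ (A p).card) /
        ((n - D.card : ℕ) : ℝ) ^ U.card := by
    rw [hUcard, ← Finset.prod_pow_eq_pow_sum, ← Finset.prod_div_distrib]
    apply Finset.prod_congr rfl
    intro p _
    rw [div_pow]
  rw [hprod2]
  by_cases hN : n - D.card = 0
  · have hU0 : U.card = 0 := by
      have h1 : U ⊆ Dᶜ := by
        intro v hv
        rw [Finset.mem_compl]
        rw [hU, Finset.mem_biUnion] at hv
        obtain ⟨p, _, hp⟩ := hv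
        exact (hAsub p v hp).1
      have h2 := Finset.card_le_card h1
      rw [Finset.card_compl, Fintype.card_fin, hN] at h2
      omega
    rw [hU0, pow_zero, mul_one] at hext
    rw [hU0, pow_zero, div_one]
    exact hcard'.trans hext
  · have hN' : (0 : ℝ) < ((n - D.card : ℕ) : ℝ) := by
      exact_mod_cast Nat.pos_of_ne_zero hN
    rw [mul_div_assoc', le_div_iff₀ (by positivity)]
    refine le_trans ?_ hext
    exact mul_le_mul_of_nonneg_right hcard' (by positivity)

/-- one factor -/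
theorem factor_le (b θ : ℕ) (D : Finset (Fin n)) (f : Fin n → Fin k) (p : Fin k × Fin k) (x : ℝ)
    (hx : 0 ≤ x) :
    ∑ B ∈ adm D f θ p, (2 : ℝ) ^ (B.card.choose 2) * x ^ B.card ≤
      Real.exp (∑ z ∈ Finset.Icc 2 θ, ((row D f p.1).card.choose z : ℝ) *
        ((2 : ℝ) ^ (z.choose 2) * x ^ z)) := by
  have h1 : adm D f θ p ⊆ insert ∅ ((Finset.Icc 2 θ).biUnion
      (fun z => Finset.powersetCard z (row D f p.1))) := by
    intro B hB
    unfold adm at hB
    rw [Finset.mem_filter, Finset.mem_powerset] at hB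
    rw [Finset.mem_insert, Finset.mem_biUnion]
    rcases hB.2 with h | h
    · left
      exact Finset.card_eq_zero.1 h
    · right
      exact ⟨B.card, Finset.mem_Icc.2 h, Finset.mem_powersetCard.2 ⟨hB.1, rfl⟩⟩
  have h2 : ∑ B ∈ adm D f θ p, (2 : ℝ) ^ (B.card.choose 2) * x ^ B.card ≤
      1 + ∑ z ∈ Finset.Icc 2 θ, ((row D f p.1).card.choose z : ℝ) *
        ((2 : ℝ) ^ (z.choose 2) * x ^ z) := by
    refine (Finset.sum_le_sum_of_subset_of_nonneg h1 (fun B _ _ => by positivity)).trans ?_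
    have hni : (∅ : Finset (Fin n)) ∉ (Finset.Icc 2 θ).biUnion
        (fun z => Finset.powersetCard z (row D f p.1)) := by
      rw [Finset.mem_biUnion]
      rintro ⟨z, hz, hz'⟩
      rw [Finset.mem_Icc] at hz
      have h4 := (Finset.mem_powersetCard.1 hz').2
      rw [Finset.card_empty] at h4
      omega
    rw [Finset.sum_insert hni]
    apply add_le_add
    · simp
    · rw [Finset.sum_biUnion]
      · apply Finset.sum_le_sum
        intro z _
        have h3 : ∑ B ∈ Finset.powersetCard z (row D f p.1), (2 : ℝ) ^ (B.card.choose 2) * x ^ B.card =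
            ∑ _B ∈ Finset.powersetCard z (row D f p.1), ((2 : ℝ) ^ (z.choose 2) * x ^ z) := by
          apply Finset.sum_congr rfl
          intro B hB
          rw [(Finset.mem_powersetCard.1 hB).2]
        rw [h3, Finset.sum_const, Finset.card_powersetCard, nsmul_eq_mul]
      · intro z _ z' _ hzz
        apply Finset.disjoint_left.2
        intro B hB hB'
        exact hzz ((Finset.mem_powersetCard.1 hB).2.symm.trans (Finset.mem_powersetCard.1 hB').2)
  refine h2.trans ?_
  rw [add_comm]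
  exact Real.add_one_le_exp _

theorem medium_prod (s : Fin k → ℕ) (hs : ∑ j, s j = n) (b θ : ℕ) (f : Fin n → Fin k)
    (hf : ∀ i, cnt Finset.univ f i ≤ b) (hsb : ∀ j, s j ≤ b) (D : Finset (Fin n))
    (h : Fin n → Fin k) :
    ∑ g ∈ (Om s D h).filter (fun g => ∀ i j, cell Dᶜ f g i j ≤ θ), (2 : ℝ) ^ (ov Dᶜ f g)
      ≤ ((Om s D h).card : ℝ) * Real.exp (medExp b θ (n - D.card)) := by
  rcases Finset.eq_empty_or_nonempty (Om s D h) with h0 | hne
  · rw [h0]
    simp
  set N : ℕ := n - D.card with hNdef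
  set x : Fin k × Fin k → ℝ := fun p =>
    Real.exp 1 * ((s p.2 - cnt D h p.2 : ℕ) : ℝ) / (N : ℝ) with hxdef
  have hx0 : ∀ p, 0 ≤ x p := fun p => by rw [hxdef]; positivity
  -- step 1 and 2
  have h1 : ∑ g ∈ (Om s D h).filter (fun g => ∀ i j, cell Dᶜ f g i j ≤ θ), (2 : ℝ) ^ (ov Dᶜ f g) ≤
      ∑ A ∈ Fintype.piFinset (adm D f θ), (((Om s D h).filter (fun g => Cons A g)).card : ℝ) *
        ∏ p, (2 : ℝ) ^ ((A p).card.choose 2) := by
    calc ∑ g ∈ (Om s D h).filter (fun g => ∀ i j, cell Dᶜ f g i j ≤ θ), (2 : ℝ) ^ (ov Dᶜ f g)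
        ≤ ∑ g ∈ (Om s D h).filter (fun g => ∀ i j, cell Dᶜ f g i j ≤ θ),
            ∑ A ∈ Fintype.piFinset (adm D f θ),
              if Cons A g then ∏ p, (2 : ℝ) ^ ((A p).card.choose 2) else 0 := by
          apply Finset.sum_le_sum
          intro g hg
          have hg' := (Finset.mem_filter.1 hg).2
          rw [two_pow_ov]
          have h2 := Finset.single_le_sum (s := Fintype.piFinset (adm D f θ))
            (f := fun A => if Cons A g then ∏ p, (2 : ℝ) ^ ((A p).card.choose 2) else 0)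
            (fun A _ => by
              show (0 : ℝ) ≤ if Cons A g then ∏ p, (2 : ℝ) ^ ((A p).card.choose 2) else 0
              split_ifs
              · positivity
              · exact le_rfl) (fam_mem D f g θ hg')
          rw [if_pos (cons_fam D f g)] at h2
          exact h2
      _ ≤ ∑ g ∈ Om s D h, ∑ A ∈ Fintype.piFinset (adm D f θ),
              if Cons A g then ∏ p, (2 : ℝ) ^ ((A p).card.choose 2) else 0 := by
          apply Finset.sum_le_sum_of_subset_of_nonneg (Finset.filter_subset _ _)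
          intro g _ _
          apply Finset.sum_nonneg
          intro A _
          split_ifs
          · positivity
          · exact le_rfl
      _ = ∑ A ∈ Fintype.piFinset (adm D f θ), ∑ g ∈ Om s D h,
              if Cons A g then ∏ p, (2 : ℝ) ^ ((A p).card.choose 2) else 0 := Finset.sum_comm
      _ = _ := by
          apply Finset.sum_congr rfl
          intro A _
          rw [← Finset.sum_filter, Finset.sum_const, nsmul_eq_mul]
  refine h1.trans ?_
  -- step 3 and 4
  have h2 : ∑ A ∈ Fintype.piFinset (adm D f θ), (((Om s D h).filter (fun g => Cons A g)).card : ℝ) *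
        ∏ p, (2 : ℝ) ^ ((A p).card.choose 2) ≤
      ((Om s D h).card : ℝ) * ∏ p, ∑ B ∈ adm D f θ p, (2 : ℝ) ^ (B.card.choose 2) * x p ^ B.card := by
    rw [Finset.prod_univ_sum, Finset.mul_sum]
    apply Finset.sum_le_sum
    intro A hA
    rw [Finset.prod_mul_distrib]
    have h3 := card_cons s hs θ f D h A hA
    calc (((Om s D h).filter (fun g => Cons A g)).card : ℝ) * ∏ p, (2 : ℝ) ^ ((A p).card.choose 2)
        ≤ (((Om s D h).card : ℝ) * ∏ p, x p ^ (A p).card) * ∏ p, (2 : ℝ) ^ ((A p).card.choose 2) :=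
          mul_le_mul_of_nonneg_right h3 (by positivity)
      _ = _ := by ring
  refine h2.trans ?_
  apply mul_le_mul_of_nonneg_left _ (Nat.cast_nonneg _)
  -- step 5
  have h3 : ∏ p, ∑ B ∈ adm D f θ p, (2 : ℝ) ^ (B.card.choose 2) * x p ^ B.card ≤
      ∏ p, Real.exp (∑ z ∈ Finset.Icc 2 θ, ((row D f p.1).card.choose z : ℝ) *
        ((2 : ℝ) ^ (z.choose 2) * x p ^ z)) := by
    apply Finset.prod_le_prod
    · intro p _
      apply Finset.sum_nonneg
      intro B _
      have := hx0 p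
      positivity
    · intro p _
      exact factor_le b θ D f p (x p) (hx0 p)
  refine h3.trans ?_
  rw [← Real.exp_sum]
  apply Real.exp_le_exp.2
  rw [Finset.sum_comm]
  unfold medExp
  apply Finset.sum_le_sum
  intro z hz
  have hz2 : 2 ≤ z := (Finset.mem_Icc.1 hz).1
  by_cases hN : N = 0
  · -- all rows are empty
    have hrow : ∀ i, (row D f i).card = 0 := by
      intro i
      have h4 := sum_row D f
      rw [← hNdef, hN] at h4
      exact (Finset.sum_eq_zero_iff.1 h4) i (Finset.mem_univ _)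
    have h5 : ∀ p : Fin k × Fin k, ((row D f p.1).card.choose z : ℝ) *
        ((2 : ℝ) ^ (z.choose 2) * x p ^ z) = 0 := by
      intro p
      rw [hrow, Nat.choose_eq_zero_of_lt (by omega)]
      simp
    rw [Finset.sum_congr rfl (fun p _ => h5 p), Finset.sum_const_zero]
    positivity
  have hN' : (0 : ℝ) < (N : ℝ) := by exact_mod_cast Nat.pos_of_ne_zero hN
  have hfact : (0 : ℝ) < (z.factorial : ℝ) := by exact_mod_cast Nat.factorial_pos z
  -- the bound for one `p`
  have h4 : ∀ p : Fin k × Fin k, ((row D f p.1).card.choose z : ℝ) *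
        ((2 : ℝ) ^ (z.choose 2) * x p ^ z) ≤
      ((row D f p.1).card : ℝ) * ((s p.2 - cnt D h p.2 : ℕ) : ℝ) *
        ((b : ℝ) ^ (z - 1) * (b : ℝ) ^ (z - 1) * (2 : ℝ) ^ (z.choose 2) * Real.exp z /
          ((z.factorial : ℝ) * (N : ℝ) ^ z)) := by
    intro p
    have hr : ((row D f p.1).card : ℝ) ≤ b := by
      exact_mod_cast (row_card_le D f p.1).trans (hf p.1)
    have hc : ((s p.2 - cnt D h p.2 : ℕ) : ℝ) ≤ b := by
      exact_mod_cast (Nat.sub_le _ _).trans (hsb p.2)
    have e1 : ((row D f p.1).card.choose z : ℝ) ≤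
        ((row D f p.1).card : ℝ) * (b : ℝ) ^ (z - 1) / (z.factorial : ℝ) := by
      refine (Nat.choose_le_pow_div z _).trans ?_
      apply div_le_div_of_nonneg_right _ hfact.le
      obtain ⟨y, rfl⟩ : ∃ y, z = y + 1 := ⟨z - 1, by omega⟩
      rw [pow_succ, Nat.add_sub_cancel, mul_comm]
      exact mul_le_mul_of_nonneg_left (pow_le_pow_left₀ (Nat.cast_nonneg _) hr _) (Nat.cast_nonneg _)
    have e2 : ((s p.2 - cnt D h p.2 : ℕ) : ℝ) ^ z ≤
        ((s p.2 - cnt D h p.2 : ℕ) : ℝ) * (b : ℝ) ^ (z - 1) := by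
      obtain ⟨y, rfl⟩ : ∃ y, z = y + 1 := ⟨z - 1, by omega⟩
      rw [pow_succ, Nat.add_sub_cancel, mul_comm]
      exact mul_le_mul_of_nonneg_left (pow_le_pow_left₀ (Nat.cast_nonneg _) hc _) (Nat.cast_nonneg _)
    have e3 : x p ^ z = Real.exp z * ((s p.2 - cnt D h p.2 : ℕ) : ℝ) ^ z / (N : ℝ) ^ z := by
      rw [hxdef]
      simp only
      rw [div_pow, mul_pow, ← Real.exp_nat_mul, mul_one]
    rw [e3]
    calc ((row D f p.1).card.choose z : ℝ) * ((2 : ℝ) ^ (z.choose 2) *
          (Real.exp z * ((s p.2 - cnt D h p.2 : ℕ) : ℝ) ^ z / (N : ℝ) ^ z))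
        ≤ (((row D f p.1).card : ℝ) * (b : ℝ) ^ (z - 1) / (z.factorial : ℝ)) *
          ((2 : ℝ) ^ (z.choose 2) * (Real.exp z * (((s p.2 - cnt D h p.2 : ℕ) : ℝ) *
            (b : ℝ) ^ (z - 1)) / (N : ℝ) ^ z)) := by
          apply mul_le_mul e1 _ (by positivity) (by positivity)
          apply mul_le_mul_of_nonneg_left _ (by positivity)
          apply div_le_div_of_nonneg_right _ (by positivity)
          exact mul_le_mul_of_nonneg_left e2 (Real.exp_pos _).le
      _ = _ := by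
          field_simp
  refine (Finset.sum_le_sum (fun p _ => h4 p)).trans ?_
  rw [← Finset.sum_mul]
  have h5 : ∑ p : Fin k × Fin k, ((row D f p.1).card : ℝ) * ((s p.2 - cnt D h p.2 : ℕ) : ℝ) =
      (N : ℝ) * (N : ℝ) := by
    rw [Fintype.sum_prod_type]
    simp only
    rw [← Finset.sum_mul_sum]
    congr 1
    · rw [← Nat.cast_sum, sum_row]
    · rw [← Nat.cast_sum, sum_rest s hs D h hne]
  rw [h5]
  apply le_of_eq
  obtain ⟨y, rfl⟩ : ∃ y, z = y + 2 := ⟨z - 2, by omega⟩
  have e1 : y + 2 - 1 = y + 1 := by omega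
  have e2 : 2 * (y + 2) - 2 = (y + 1) + (y + 1) := by omega
  have e3 : y + 2 - 2 = y := by omega
  rw [e1, e2, e3]
  rw [pow_add (b : ℝ), pow_add (N : ℝ) y 2]
  field_simp
  rw [← pow_mul, ← pow_add]
  congr 1
  ring

theorem medium_triv (s : Fin k → ℕ) (b : ℕ) (f : Fin n → Fin k)
    (hf : ∀ i, cnt Finset.univ f i ≤ b) (D : Finset (Fin n)) (h : Fin n → Fin k) (θ : ℕ) :
    ∑ g ∈ (Om s D h).filter (fun g => ∀ i j, cell Dᶜ f g i j ≤ θ), (2 : ℝ) ^ (ov Dᶜ f g)
      ≤ ((Om s D h).card : ℝ) * (2 : ℝ) ^ ((n - D.card) * b) := by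
  calc ∑ g ∈ (Om s D h).filter (fun g => ∀ i j, cell Dᶜ f g i j ≤ θ), (2 : ℝ) ^ (ov Dᶜ f g)
      ≤ ∑ _g ∈ (Om s D h).filter (fun g => ∀ i j, cell Dᶜ f g i j ≤ θ),
          (2 : ℝ) ^ ((n - D.card) * b) := by
        apply Finset.sum_le_sum
        intro g _
        exact pow_le_pow_right₀ (by norm_num) (ov_triv b f g hf D)
    _ = (((Om s D h).filter (fun g => ∀ i j, cell Dᶜ f g i j ≤ θ)).card : ℝ) *
          (2 : ℝ) ^ ((n - D.card) * b) := by
        rw [Finset.sum_const, nsmul_eq_mul]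
    _ ≤ _ := by
        apply mul_le_mul_of_nonneg_right _ (by positivity)
        exact_mod_cast Finset.card_le_card (Finset.filter_subset _ _)

end ZS51
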