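import Pool.Agent.ZS51.Params
import Pool.Agent.ZS51.Medium

/-!
# ZS51/Anal: the small cells

`k = kk ε n`, `a = n / k`, `θ = (a+1)/2` (natural division), `a + 1 ≤ 2 log₂ n` and `a ≥ al0 n - 6 ≥ 2 log₂ n - 2 log₂ log₂ n - 6`.
`med_bound`: `N ≥ n^{9/10}`, `b = a+1 ≤ 2 log₂ n`: the term `z = 2` of `medExp` is `e² b²`; for `3 ≤ z ≤ θ`:
`2^{C(z,2)} = (2^{(z-1)/2})^z ≤ n^{z/2}` (`(z-1)/2 ≤ (a+1)/4`, `2^{(a+1)/4} ≤ n^{1/2}`), so the term is at most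
`n^{9/5} (e b² n^{-2/5})^z`, sum over `z ≥ 3` at most `2 n^{9/5} (e b² n^{-2/5})³ ≤ n^{13/20}`.
`med_all`: if `n - |D| ≥ n^{9/10}` use `medium_prod` and `med_bound`, otherwise `medium_triv` and
`2^{N b} ≤ exp (n^{9/10} (a+1)) ≤ exp (n^{23/25})`.
-/

set_option autoImplicit false

open Filter Topology ZZ51

namespace ZS51

private lemma an_log (C : ℝ) (m : ℕ) {r : ℝ} (hr : 0 < r) :
    ∀ᶠ n : ℕ in atTop, C * (Real.log n) ^ m ≤ (n : ℝ) ^ r := by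
  have h1 : (fun x : ℝ => Real.log x ^ (m : ℝ)) =o[atTop] fun x => x ^ r :=
    isLittleO_log_rpow_rpow_atTop (m : ℝ) hr
  have h2 := (h1.const_mul_left C).comp_tendsto (tendsto_natCast_atTop_atTop (R := ℝ))
  have h3 := h2.bound one_pos
  filter_upwards [h3] with n hn
  simp only [Function.comp_apply, one_mul] at hn
  rw [Real.rpow_natCast] at hn
  have h4 : (0 : ℝ) ≤ (n : ℝ) ^ r := Real.rpow_nonneg (Nat.cast_nonneg n) r
  rw [Real.norm_of_nonneg h4] at hn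
  exact (le_abs_self _).trans hn

private lemma an_b {n b : ℕ} (hn : 1 ≤ n) (hb : (b : ℝ) ≤ 2 * Real.logb 2 (n : ℝ)) :
    (b : ℝ) ≤ 3 * Real.log n := by
  have h2 : (0.6931471803 : ℝ) < Real.log 2 := Real.log_two_gt_d9
  have h0 : 0 ≤ Real.log n := Real.log_nonneg (by exact_mod_cast hn)
  have h1 : 2 * Real.logb 2 (n : ℝ) ≤ 3 * Real.log n := by
    unfold Real.logb
    rw [mul_div_assoc', div_le_iff₀ (by linarith)]
    nlinarith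
  exact hb.trans h1

/-- `2 ^ C(z,2) ≤ n ^ (z/2)` -/
private lemma an_choose {n z : ℕ} (hn : 1 ≤ n) (hz : (z : ℝ) - 1 ≤ Real.logb 2 (n : ℝ)) :
    (2 : ℝ) ^ (z.choose 2) ≤ (n : ℝ) ^ ((z : ℝ) / 2) := by
  have hn0 : (0 : ℝ) < n := by exact_mod_cast hn
  have h1 : (n : ℝ) = (2 : ℝ) ^ Real.logb 2 (n : ℝ) :=
    (Real.rpow_logb (by norm_num) (by norm_num) hn0).symm
  conv_rhs => rw [h1]
  rw [← Real.rpow_mul (by norm_num), ← Real.rpow_natCast, Nat.cast_choose_two]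
  apply Real.rpow_le_rpow_of_exponent_le (by norm_num)
  have h2 : (0 : ℝ) ≤ z := Nat.cast_nonneg z
  nlinarith

private lemma an_term {n N b m : ℕ} (hn : 1 ≤ n) (hN : (n : ℝ) ^ (9 / 10 : ℝ) ≤ N)
    (hq : Real.exp 1 * (b : ℝ) ^ 2 ≤ (n : ℝ) ^ (2 / 5 : ℝ))
    (hz : ((m + 3 : ℕ) : ℝ) - 1 ≤ Real.logb 2 (n : ℝ)) :
    Real.exp ((m + 3 : ℕ) : ℝ) * (b : ℝ) ^ (2 * (m + 3) - 2) * (2 : ℝ) ^ ((m + 3).choose 2)
      / ((N : ℝ) ^ (m + 3 - 2) * ((m + 3).factorial : ℝ)) ≤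
      Real.exp 3 * (b : ℝ) ^ 4 * (n : ℝ) ^ (3 / 5 : ℝ) := by
  have hn0 : (0 : ℝ) < n := by exact_mod_cast hn
  have hN0 : (0 : ℝ) < N := lt_of_lt_of_le (Real.rpow_pos_of_pos hn0 _) hN
  have hfac : (1 : ℝ) ≤ ((m + 3).factorial : ℝ) := by
    exact_mod_cast Nat.one_le_iff_ne_zero.2 (Nat.factorial_ne_zero _)
  have e1 : 2 * (m + 3) - 2 = 2 * m + 4 := by omega
  have e2 : m + 3 - 2 = m + 1 := by omega
  rw [e1, e2]
  have h1 := an_choose hn hz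
  have h2 : ((n : ℝ) ^ (9 / 10 : ℝ)) ^ (m + 1) ≤ (N : ℝ) ^ (m + 1) :=
    pow_le_pow_left₀ (Real.rpow_nonneg hn0.le _) hN _
  have h3 : (Real.exp 1 * (b : ℝ) ^ 2) ^ m ≤ ((n : ℝ) ^ (2 / 5 : ℝ)) ^ m :=
    pow_le_pow_left₀ (by positivity) hq _
  have h4 : Real.exp ((m + 3 : ℕ) : ℝ) * (b : ℝ) ^ (2 * m + 4) =
      (Real.exp 3 * (b : ℝ) ^ 4) * (Real.exp 1 * (b : ℝ) ^ 2) ^ m := by
    rw [mul_pow, ← Real.exp_nat_mul, mul_one, Nat.cast_add, Real.exp_add, pow_add, pow_mul]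
    push_cast
    ring
  have h5 : ((n : ℝ) ^ (2 / 5 : ℝ)) ^ m * (n : ℝ) ^ (((m + 3 : ℕ) : ℝ) / 2) =
      (n : ℝ) ^ (3 / 5 : ℝ) * ((n : ℝ) ^ (9 / 10 : ℝ)) ^ (m + 1) := by
    rw [← Real.rpow_natCast, ← Real.rpow_natCast, ← Real.rpow_mul hn0.le, ← Real.rpow_mul hn0.le,
      ← Real.rpow_add hn0, ← Real.rpow_add hn0]
    congr 1
    push_cast
    ring
  rw [div_le_iff₀ (by positivity)]
  calc Real.exp ((m + 3 : ℕ) : ℝ) * (b : ℝ) ^ (2 * m + 4) * (2 : ℝ) ^ ((m + 3).choose 2)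
      = (Real.exp 3 * (b : ℝ) ^ 4) * ((Real.exp 1 * (b : ℝ) ^ 2) ^ m *
        (2 : ℝ) ^ ((m + 3).choose 2)) := by rw [h4]; ring
    _ ≤ (Real.exp 3 * (b : ℝ) ^ 4) * (((n : ℝ) ^ (2 / 5 : ℝ)) ^ m *
        (n : ℝ) ^ (((m + 3 : ℕ) : ℝ) / 2)) := by
        apply mul_le_mul_of_nonneg_left _ (by positivity)
        exact mul_le_mul h3 h1 (by positivity) (by positivity)
    _ = (Real.exp 3 * (b : ℝ) ^ 4 * (n : ℝ) ^ (3 / 5 : ℝ)) *
        ((n : ℝ) ^ (9 / 10 : ℝ)) ^ (m + 1) := by rw [h5]; ring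
    _ ≤ (Real.exp 3 * (b : ℝ) ^ 4 * (n : ℝ) ^ (3 / 5 : ℝ)) *
        ((N : ℝ) ^ (m + 1) * ((m + 3).factorial : ℝ)) := by
        apply mul_le_mul_of_nonneg_left _ (by positivity)
        calc ((n : ℝ) ^ (9 / 10 : ℝ)) ^ (m + 1) ≤ (N : ℝ) ^ (m + 1) * 1 := by rw [mul_one]; exact h2
          _ ≤ (N : ℝ) ^ (m + 1) * ((m + 3).factorial : ℝ) :=
            mul_le_mul_of_nonneg_left hfac (by positivity)

theorem med_bound (ε : ℝ) (hε : 0 < ε) (hε1 : ε ≤ 1) : ∀ᶠ n : ℕ in atTop, ∀ N : ℕ,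
    (n : ℝ) ^ (9 / 10 : ℝ) ≤ N →
    medExp (n / kk ε n + 1) ((n / kk ε n + 1) / 2) N ≤ (n : ℝ) ^ (7 / 10 : ℝ) := by
  filter_upwards [params ε hε hε1, an_log ((Real.exp 2 + Real.exp 3) * 3 ^ 5) 5
    (r := 1 / 10) (by norm_num), an_log (Real.exp 1 * 3 ^ 2) 2 (r := 2 / 5) (by norm_num),
    eventually_ge_atTop 1] with n hp hl1 hl2 hn N hN
  obtain ⟨-, -, -, -, -, hb, -, -⟩ := hp
  set b : ℕ := n / kk ε n + 1 with hbdef
  have hn1 : (1 : ℝ) ≤ n := by exact_mod_cast hn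
  have hn0 : (0 : ℝ) < n := by linarith
  have hb' : (b : ℝ) ≤ 2 * Real.logb 2 (n : ℝ) := by
    rw [hbdef]
    push_cast
    exact hb
  have hb3 := an_b hn hb'
  have hb1 : (1 : ℝ) ≤ b := by
    rw [hbdef]
    push_cast
    have : (0 : ℝ) ≤ ((n / kk ε n : ℕ) : ℝ) := Nat.cast_nonneg _
    linarith
  have hq : Real.exp 1 * (b : ℝ) ^ 2 ≤ (n : ℝ) ^ (2 / 5 : ℝ) := by
    refine le_trans ?_ hl2
    rw [mul_assoc, ← mul_pow]
    exact mul_le_mul_of_nonneg_left (pow_le_pow_left₀ (by positivity) hb3 2) (by positivity)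
  have hθ : ((b / 2 : ℕ) : ℝ) ≤ Real.logb 2 (n : ℝ) := by
    have h1 : ((b / 2 : ℕ) : ℝ) ≤ (b : ℝ) / 2 := by
      have := Nat.cast_div_le (α := ℝ) (m := b) (n := 2)
      exact_mod_cast this
    linarith
  have hn35 : (1 : ℝ) ≤ (n : ℝ) ^ (3 / 5 : ℝ) := Real.one_le_rpow hn1 (by norm_num)
  have hterm : ∀ z ∈ Finset.Icc 2 (b / 2), Real.exp z * (b : ℝ) ^ (2 * z - 2) *
      (2 : ℝ) ^ (z.choose 2) / ((N : ℝ) ^ (z - 2) * (z.factorial : ℝ)) ≤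
      (Real.exp 2 + Real.exp 3) * ((b : ℝ) ^ 4 * (n : ℝ) ^ (3 / 5 : ℝ)) := by
    intro z hz
    rw [Finset.mem_Icc] at hz
    have hpos : (0 : ℝ) ≤ (b : ℝ) ^ 4 * (n : ℝ) ^ (3 / 5 : ℝ) := by positivity
    rcases Nat.lt_or_ge z 3 with h | h
    · have hz2 : z = 2 := by omega
      subst hz2
      have e1 : Real.exp ((2 : ℕ) : ℝ) * (b : ℝ) ^ (2 * 2 - 2) * (2 : ℝ) ^ ((2 : ℕ).choose 2) /
          ((N : ℝ) ^ (2 - 2) * ((2 : ℕ).factorial : ℝ)) = Real.exp 2 * (b : ℝ) ^ 2 := by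
        norm_num [Nat.factorial]
      rw [e1]
      have e2 : (b : ℝ) ^ 2 ≤ (b : ℝ) ^ 4 * (n : ℝ) ^ (3 / 5 : ℝ) := by
        calc (b : ℝ) ^ 2 ≤ (b : ℝ) ^ 4 := pow_le_pow_right₀ hb1 (by norm_num)
          _ = (b : ℝ) ^ 4 * 1 := (mul_one _).symm
          _ ≤ _ := mul_le_mul_of_nonneg_left hn35 (by positivity)
      calc Real.exp 2 * (b : ℝ) ^ 2 ≤ Real.exp 2 * ((b : ℝ) ^ 4 * (n : ℝ) ^ (3 / 5 : ℝ)) :=
            mul_le_mul_of_nonneg_left e2 (by positivity)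
        _ ≤ _ := mul_le_mul_of_nonneg_right (by linarith [Real.exp_pos 3]) hpos
    · obtain ⟨m, rfl⟩ : ∃ m, z = m + 3 := ⟨z - 3, by omega⟩
      have hz1 : ((m + 3 : ℕ) : ℝ) - 1 ≤ Real.logb 2 (n : ℝ) := by
        have : ((m + 3 : ℕ) : ℝ) ≤ ((b / 2 : ℕ) : ℝ) := by exact_mod_cast hz.2
        linarith
      have h1 := an_term (b := b) hn hN hq hz1
      refine h1.trans ?_
      rw [mul_assoc]
      exact mul_le_mul_of_nonneg_right (by linarith [Real.exp_pos 2]) hpos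
  unfold medExp
  have h1 := Finset.sum_le_card_nsmul _ _ _ hterm
  refine h1.trans ?_
  rw [nsmul_eq_mul]
  have hcard : ((Finset.Icc 2 (b / 2)).card : ℝ) ≤ b := by
    rw [Nat.card_Icc]
    have h7 : ∀ c : ℕ, c / 2 + 1 - 2 ≤ c := fun c => by omega
    exact_mod_cast h7 b
  have e3 : (n : ℝ) ^ (7 / 10 : ℝ) = (n : ℝ) ^ (1 / 10 : ℝ) * (n : ℝ) ^ (3 / 5 : ℝ) := by
    rw [← Real.rpow_add hn0]
    norm_num
  rw [e3]
  have h5 : (b : ℝ) ^ 5 ≤ 3 ^ 5 * Real.log n ^ 5 := by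
    rw [← mul_pow]
    exact pow_le_pow_left₀ (by positivity) hb3 5
  calc ((Finset.Icc 2 (b / 2)).card : ℝ) *
        ((Real.exp 2 + Real.exp 3) * ((b : ℝ) ^ 4 * (n : ℝ) ^ (3 / 5 : ℝ)))
      ≤ b * ((Real.exp 2 + Real.exp 3) * ((b : ℝ) ^ 4 * (n : ℝ) ^ (3 / 5 : ℝ))) :=
        mul_le_mul_of_nonneg_right hcard (by positivity)
    _ = ((Real.exp 2 + Real.exp 3) * (b : ℝ) ^ 5) * (n : ℝ) ^ (3 / 5 : ℝ) := by ring
    _ ≤ (n : ℝ) ^ (1 / 10 : ℝ) * (n : ℝ) ^ (3 / 5 : ℝ) := by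
        apply mul_le_mul_of_nonneg_right _ (by positivity)
        refine le_trans ?_ hl1
        rw [mul_assoc]
        exact mul_le_mul_of_nonneg_left h5 (by positivity)

theorem med_all (ε : ℝ) (hε : 0 < ε) (hε1 : ε ≤ 1) : ∀ᶠ n : ℕ in atTop,
    ∀ (s : Fin (kk ε n) → ℕ) (f : Fin n → Fin (kk ε n)), ∑ j, s j = n →
      (∀ j, s j ≤ n / kk ε n + 1) → f ∈ Om0 (n := n) s →
      ∀ (D : Finset (Fin n)) (h : Fin n → Fin (kk ε n)),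
      ∑ g ∈ (Om s D h).filter (fun g => ∀ i j, cell Dᶜ f g i j ≤ (n / kk ε n + 1) / 2),
          (2 : ℝ) ^ (ov Dᶜ f g)
        ≤ ((Om s D h).card : ℝ) * Real.exp ((n : ℝ) ^ (23 / 25 : ℝ)) := by
  filter_upwards [params ε hε hε1, med_bound ε hε hε1, an_log 3 1 (r := 1 / 50) (by norm_num),
    eventually_ge_atTop 1] with n hp hmb hl hn
  obtain ⟨-, -, -, -, -, hb, -, -⟩ := hp
  intro s f hs hsb hf D h
  set b : ℕ := n / kk ε n + 1 with hbdef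
  have hn1 : (1 : ℝ) ≤ n := by exact_mod_cast hn
  have hn0 : (0 : ℝ) < n := by linarith
  have hb' : (b : ℝ) ≤ 2 * Real.logb 2 (n : ℝ) := by
    rw [hbdef]
    push_cast
    exact hb
  have hb3 := an_b hn hb'
  have hcnt : ∀ i, cnt Finset.univ f i ≤ b := by
    intro i
    have h1 := (Finset.mem_filter.1 hf).2 i
    rw [h1]
    exact hsb i
  rcases le_or_gt ((n : ℝ) ^ (9 / 10 : ℝ)) ((n - D.card : ℕ) : ℝ) with h1 | h1
  · refine (medium_prod s hs b (b / 2) f hcnt hsb D h).trans ?_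
    apply mul_le_mul_of_nonneg_left _ (Nat.cast_nonneg _)
    apply Real.exp_le_exp.2
    refine (hmb _ h1).trans ?_
    exact Real.rpow_le_rpow_of_exponent_le hn1 (by norm_num)
  · refine (medium_triv s b f hcnt D h (b / 2)).trans ?_
    apply mul_le_mul_of_nonneg_left _ (Nat.cast_nonneg _)
    have h2 : (2 : ℝ) ^ ((n - D.card) * b) ≤ Real.exp (((n - D.card : ℕ) : ℝ) * b) := by
      have e1 : (2 : ℝ) ≤ Real.exp 1 := by
        have := Real.add_one_le_exp 1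
        linarith
      calc (2 : ℝ) ^ ((n - D.card) * b) ≤ (Real.exp 1) ^ ((n - D.card) * b) :=
            pow_le_pow_left₀ (by norm_num) e1 _
        _ = _ := by
            rw [← Real.exp_nat_mul, mul_one]
            push_cast
            rfl
    refine h2.trans (Real.exp_le_exp.2 ?_)
    have e2 : (n : ℝ) ^ (23 / 25 : ℝ) = (n : ℝ) ^ (9 / 10 : ℝ) * (n : ℝ) ^ (1 / 50 : ℝ) := by
      rw [← Real.rpow_add hn0]
      norm_num
    rw [e2]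
    refine mul_le_mul h1.le (hb3.trans ?_) (Nat.cast_nonneg _) (by positivity)
    rw [pow_one] at hl
    exact hl

end ZS51
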