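import Pool.Agent.ZS51.Params

/-!
# ZS51/AnalQ: the geometric sum `q`

`k = kk ε n`, `a = n / k`, `θ = (a+1)/2` (natural division), `a + 1 ≤ 2 log₂ n` and `a ≥ al0 n - 6 ≥ 2 log₂ n - 2 log₂ log₂ n - 6`.
`q_bound`: for `y ≤ a - θ - 1 ≤ a/2`: `(a+1) n 2^{-a} 2^{(y+1)/2} ≤ (a+1) n 2^{-3a/4 + 1/2} ≤ n^{-9/20}` for large `n`
(`2^{-3a/4} ≤ C n^{-3/2} (log₂ n)^{3/2}`), geometric sum `≤ 2 n^{-9/20} ≤ n^{-2/5}`.
-/

set_option autoImplicit false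

open Filter Topology ZZ51

namespace ZS51

private theorem log_small : ∀ᶠ n : ℕ in atTop,
    2 ^ (11 / 2 : ℝ) * Real.logb 2 (n : ℝ) ^ (5 / 2 : ℝ) ≤ (n : ℝ) ^ (1 / 20 : ℝ) := by
  have hl2 : 0 < Real.log 2 := Real.log_pos one_lt_two
  have hc : 0 < Real.log 2 ^ (5 / 2 : ℝ) / 2 ^ (11 / 2 : ℝ) := by positivity
  have h1 := ((isLittleO_log_rpow_rpow_atTop (5 / 2 : ℝ) (show (0 : ℝ) < 1 / 20 by norm_num)).comp_tendsto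
    tendsto_natCast_atTop_atTop).bound hc
  filter_upwards [h1, eventually_ge_atTop 2] with n hn hn2
  have hn0 : (1 : ℝ) ≤ n := by exact_mod_cast (by omega : 1 ≤ n)
  have hlog : 0 ≤ Real.log n := Real.log_nonneg hn0
  simp only [Function.comp] at hn
  rw [Real.norm_of_nonneg (by positivity), Real.norm_of_nonneg (by positivity)] at hn
  have h2 : Real.logb 2 (n : ℝ) ^ (5 / 2 : ℝ) = Real.log n ^ (5 / 2 : ℝ) / Real.log 2 ^ (5 / 2 : ℝ) := by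
    unfold Real.logb
    rw [Real.div_rpow hlog hl2.le]
  rw [h2]
  calc 2 ^ (11 / 2 : ℝ) * (Real.log n ^ (5 / 2 : ℝ) / Real.log 2 ^ (5 / 2 : ℝ))
      ≤ 2 ^ (11 / 2 : ℝ) * ((Real.log 2 ^ (5 / 2 : ℝ) / 2 ^ (11 / 2 : ℝ) * (n : ℝ) ^ (1 / 20 : ℝ)) /
        Real.log 2 ^ (5 / 2 : ℝ)) := by gcongr
    _ = _ := by
      have h3 : (Real.log 2 ^ (5 / 2 : ℝ) : ℝ) ≠ 0 := by positivity
      have h4 : ((2 : ℝ) ^ (11 / 2 : ℝ)) ≠ 0 := by positivity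
      field_simp

theorem q_bound (ε : ℝ) (hε : 0 < ε) (hε1 : ε ≤ 1) : ∀ᶠ n : ℕ in atTop,
    ∑ y ∈ Finset.Icc 1 (n / kk ε n - (n / kk ε n + 1) / 2 - 1),
      ((((n / kk ε n : ℕ) : ℝ) + 1) * n
        * (2 : ℝ) ^ (-((n / kk ε n : ℕ) : ℝ) + ((y : ℝ) + 1) / 2)) ^ y ≤ (n : ℝ) ^ (-(2 / 5) : ℝ) := by
  filter_upwards [params ε hε hε1, al0_bounds, log_small, eventually_ge_atTop 2] with n hp hb hl hn
  obtain ⟨_, _, _, _, hp5, hp6, _, _⟩ := hp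
  obtain ⟨_, _, _, hb4⟩ := hb
  generalize n / kk ε n = a at hp5 hp6 ⊢
  have hn1 : (1 : ℝ) ≤ n := by exact_mod_cast (by omega : 1 ≤ n)
  have hn0 : (0 : ℝ) < n := by linarith
  obtain ⟨L, hL⟩ : ∃ L : ℝ, L = Real.logb 2 (n : ℝ) := ⟨_, rfl⟩
  rw [← hL] at hp6 hb4 hl
  have hL1 : 1 ≤ L := by
    rw [hL, Real.le_logb_iff_rpow_le one_lt_two hn0, Real.rpow_one]
    exact_mod_cast hn
  have hL0 : 0 < L := by linarith
  have h2L : (2 : ℝ) ^ L = n := by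
    rw [hL]; exact Real.rpow_logb two_pos (by norm_num) hn0
  have hLL : (2 : ℝ) ^ Real.logb 2 L = L := Real.rpow_logb two_pos (by norm_num) hL0
  -- the base
  have hbase : ∀ y ∈ Finset.Icc 1 (a - (a + 1) / 2 - 1), ((a : ℝ) + 1) * n
      * (2 : ℝ) ^ (-(a : ℝ) + ((y : ℝ) + 1) / 2) ≤ (n : ℝ) ^ (-(9 / 20) : ℝ) := by
    intro y hy
    rw [Finset.mem_Icc] at hy
    have hy2 : 2 * (y + 1) ≤ a := by omega
    have hy3 : 2 * ((y : ℝ) + 1) ≤ a := by exact_mod_cast hy2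
    have e1 : -(a : ℝ) + ((y : ℝ) + 1) / 2 ≤ -(3 / 2) * L + (3 / 2) * Real.logb 2 L + 9 / 2 := by
      linarith
    have e2 : (2 : ℝ) ^ (-(a : ℝ) + ((y : ℝ) + 1) / 2) ≤
        (n : ℝ) ^ (-(3 / 2) : ℝ) * L ^ (3 / 2 : ℝ) * 2 ^ (9 / 2 : ℝ) := by
      calc (2 : ℝ) ^ (-(a : ℝ) + ((y : ℝ) + 1) / 2)
          ≤ (2 : ℝ) ^ (-(3 / 2) * L + (3 / 2) * Real.logb 2 L + 9 / 2) :=
            Real.rpow_le_rpow_of_exponent_le one_le_two e1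
        _ = _ := by
          rw [Real.rpow_add two_pos, Real.rpow_add two_pos, mul_comm (-(3 / 2) : ℝ) L,
            mul_comm (3 / 2 : ℝ) (Real.logb 2 L), Real.rpow_mul two_pos.le, Real.rpow_mul two_pos.le,
            h2L, hLL]
    have e3 : ((a : ℝ) + 1) * n ≤ 2 * L * n := by gcongr
    calc ((a : ℝ) + 1) * n * (2 : ℝ) ^ (-(a : ℝ) + ((y : ℝ) + 1) / 2)
        ≤ 2 * L * n * ((n : ℝ) ^ (-(3 / 2) : ℝ) * L ^ (3 / 2 : ℝ) * 2 ^ (9 / 2 : ℝ)) := by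
          gcongr
      _ = (2 ^ (11 / 2 : ℝ) * L ^ (5 / 2 : ℝ)) * (n : ℝ) ^ (-(1 / 2) : ℝ) := by
          have r1 : (2 : ℝ) ^ (11 / 2 : ℝ) = 2 * 2 ^ (9 / 2 : ℝ) := by
            rw [show (11 / 2 : ℝ) = 1 + 9 / 2 by norm_num, Real.rpow_add two_pos, Real.rpow_one]
          have r2 : L ^ (5 / 2 : ℝ) = L * L ^ (3 / 2 : ℝ) := by
            rw [show (5 / 2 : ℝ) = 1 + 3 / 2 by norm_num, Real.rpow_add hL0, Real.rpow_one]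
          have r3 : (n : ℝ) ^ (-(1 / 2) : ℝ) = n * (n : ℝ) ^ (-(3 / 2) : ℝ) := by
            rw [show (-(1 / 2) : ℝ) = 1 + -(3 / 2) by norm_num, Real.rpow_add hn0, Real.rpow_one]
          rw [r1, r2, r3]
          ring
      _ ≤ (n : ℝ) ^ (1 / 20 : ℝ) * (n : ℝ) ^ (-(1 / 2) : ℝ) := by gcongr
      _ = _ := by
          rw [← Real.rpow_add hn0]
          norm_num
  have hx1 : (n : ℝ) ^ (-(9 / 20) : ℝ) ≤ 1 :=
    Real.rpow_le_one_of_one_le_of_nonpos hn1 (by norm_num)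
  have hx0 : 0 ≤ (n : ℝ) ^ (-(9 / 20) : ℝ) := by positivity
  have hterm : ∀ y ∈ Finset.Icc 1 (a - (a + 1) / 2 - 1), (((a : ℝ) + 1) * n
      * (2 : ℝ) ^ (-(a : ℝ) + ((y : ℝ) + 1) / 2)) ^ y ≤ (n : ℝ) ^ (-(9 / 20) : ℝ) := by
    intro y hy
    have h1 := hbase y hy
    rw [Finset.mem_Icc] at hy
    calc (((a : ℝ) + 1) * n * (2 : ℝ) ^ (-(a : ℝ) + ((y : ℝ) + 1) / 2)) ^ y
        ≤ ((n : ℝ) ^ (-(9 / 20) : ℝ)) ^ y := by gcongr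
      _ ≤ ((n : ℝ) ^ (-(9 / 20) : ℝ)) ^ 1 := pow_le_pow_of_le_one hx0 hx1 hy.1
      _ = _ := pow_one _
  have hsum := Finset.sum_le_card_nsmul _ _ _ hterm
  refine hsum.trans ?_
  rw [Nat.card_Icc, nsmul_eq_mul]
  have hcard : ((a - (a + 1) / 2 - 1 + 1 - 1 : ℕ) : ℝ) ≤ 2 * L := by
    have h1 : a - (a + 1) / 2 - 1 + 1 - 1 ≤ a := by omega
    have h2 : ((a - (a + 1) / 2 - 1 + 1 - 1 : ℕ) : ℝ) ≤ a := by exact_mod_cast h1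
    linarith
  have hL5 : 2 * L ≤ (n : ℝ) ^ (1 / 20 : ℝ) := by
    refine le_trans ?_ hl
    have r1 : (2 : ℝ) ≤ 2 ^ (11 / 2 : ℝ) := by
      calc (2 : ℝ) = 2 ^ (1 : ℝ) := (Real.rpow_one 2).symm
        _ ≤ _ := Real.rpow_le_rpow_of_exponent_le one_le_two (by norm_num)
    have r2 : L ≤ L ^ (5 / 2 : ℝ) := by
      calc L = L ^ (1 : ℝ) := (Real.rpow_one L).symm
        _ ≤ _ := Real.rpow_le_rpow_of_exponent_le hL1 (by norm_num)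
    gcongr
  calc ((a - (a + 1) / 2 - 1 + 1 - 1 : ℕ) : ℝ) * (n : ℝ) ^ (-(9 / 20) : ℝ)
      ≤ (n : ℝ) ^ (1 / 20 : ℝ) * (n : ℝ) ^ (-(9 / 20) : ℝ) := by
        gcongr
        exact hcard.trans hL5
    _ = _ := by
        rw [← Real.rpow_add hn0]
        norm_num

end ZS51
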