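import Pool.Agent.ZZ51.Card
import Pool.Agent.ZZ51.VarChi

/-!
# ZS51/Conc: bounded differences for χ (vertex exposure), exponential form

`conc`: for `x ≤ y`: `P(χ ≤ x) P(χ > y) ≤ exp (-(y-x)²/(8n))`.
PROOF. Exponential version of `ZZ51/VarChi.lean` (same vertex exposure). For a function `h` on a finite set `B`
with `|h b - h b'| ≤ c`: `∑_{b,b'} exp (λ (h b - h b')) = ∑ cosh (λ (h b - h b')) ≤ |B|² exp (λ² c²/2)`, so with Jensen
`∑_b exp (λ h b) ≤ |B| exp (λ m + λ² c²/2)`, `m` the mean of `h`. Induction on the number of coordinates gives the bound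
`∑_ω exp (λ f ω) ≤ |Ω| exp (λ m + n λ² c²/2)` for functions on a power with bounded differences.
With `f = χ`: pairs with `χ(G) > y`, `χ(G') ≤ x` give
`P(χ > y) P(χ ≤ x) e^{λ(y-x)} ≤ e^{λ² n}`; take `λ = (y-x)/(2n)`.
-/

set_option autoImplicit false

open ZZ51

namespace ZS51

private theorem pair_exp {B : Type} [Fintype B] (h : B → ℝ) (c l : ℝ)
    (hc : ∀ b b', |h b - h b'| ≤ c) :
    ∑ b, ∑ b', Real.exp (l * (h b - h b')) ≤
      (Fintype.card B : ℝ) ^ 2 * Real.exp (l ^ 2 * c ^ 2 / 2) := by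
  have h1 : ∑ b, ∑ b', Real.exp (l * (h b - h b')) = ∑ b, ∑ b', Real.cosh (l * (h b - h b')) := by
    have h2 : ∑ b, ∑ b', Real.exp (l * (h b - h b')) = ∑ b, ∑ b', Real.exp (-(l * (h b - h b'))) := by
      rw [Finset.sum_comm]
      refine Finset.sum_congr rfl fun b _ => Finset.sum_congr rfl fun b' _ => ?_
      congr 1
      ring
    have h3 : ∑ b, ∑ b', Real.cosh (l * (h b - h b')) =
        (∑ b, ∑ b', Real.exp (l * (h b - h b')) + ∑ b, ∑ b', Real.exp (-(l * (h b - h b')))) / 2 := by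
      rw [← Finset.sum_add_distrib, Finset.sum_div]
      refine Finset.sum_congr rfl fun b _ => ?_
      rw [← Finset.sum_add_distrib, Finset.sum_div]
      refine Finset.sum_congr rfl fun b' _ => ?_
      rw [Real.cosh_eq]
    rw [h3, ← h2]
    ring
  rw [h1]
  have h4 : ∀ b b', Real.cosh (l * (h b - h b')) ≤ Real.exp (l ^ 2 * c ^ 2 / 2) := by
    intro b b'
    refine (Real.cosh_le_exp_half_sq _).trans (Real.exp_le_exp.2 ?_)
    have h5 : (h b - h b') ^ 2 ≤ c ^ 2 := by
      rw [← sq_abs]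
      exact pow_le_pow_left₀ (abs_nonneg _) (hc b b') 2
    have h6 := mul_le_mul_of_nonneg_left h5 (sq_nonneg l)
    rw [mul_pow]
    linarith
  refine (Finset.sum_le_sum fun b _ => Finset.sum_le_sum fun b' _ => h4 b b').trans (le_of_eq ?_)
  simp only [Finset.sum_const, Finset.card_univ, nsmul_eq_mul]
  ring

private theorem one_exp {B : Type} [Fintype B] [Nonempty B] (h : B → ℝ) (c l : ℝ)
    (hc : ∀ b b', |h b - h b'| ≤ c) :
    ∑ b, Real.exp (l * h b) ≤
      (Fintype.card B : ℝ) * Real.exp (l * ((∑ b, h b) / (Fintype.card B : ℝ)) + l ^ 2 * c ^ 2 / 2) := by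
  have hB : (0 : ℝ) < (Fintype.card B : ℝ) := by exact_mod_cast Fintype.card_pos
  obtain ⟨m, hm⟩ : ∃ m, m = (∑ b, h b) / (Fintype.card B : ℝ) := ⟨_, rfl⟩
  rw [← hm]
  -- Jensen
  have hJ : Real.exp (-(l * m)) ≤ (∑ b, Real.exp (-(l * h b))) / (Fintype.card B : ℝ) := by
    have h1 := convexOn_exp.map_sum_le (t := Finset.univ) (w := fun _ : B => 1 / (Fintype.card B : ℝ))
      (p := fun b => -(l * h b)) (fun _ _ => by positivity)
      (by
        rw [Finset.sum_const, Finset.card_univ, nsmul_eq_mul]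
        exact mul_one_div_cancel hB.ne')
      (fun _ _ => Set.mem_univ _)
    simp only [smul_eq_mul] at h1
    rw [← Finset.mul_sum, ← Finset.mul_sum] at h1
    have h2 : 1 / (Fintype.card B : ℝ) * ∑ b, -(l * h b) = -(l * m) := by
      rw [hm, Finset.sum_neg_distrib, ← Finset.mul_sum]
      ring
    rw [h2] at h1
    rw [div_eq_inv_mul, ← one_div]
    exact h1
  have h3 : (∑ b, Real.exp (l * h b)) * Real.exp (-(l * m)) ≤
      (Fintype.card B : ℝ) * Real.exp (l ^ 2 * c ^ 2 / 2) := by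
    calc (∑ b, Real.exp (l * h b)) * Real.exp (-(l * m))
        ≤ (∑ b, Real.exp (l * h b)) * ((∑ b, Real.exp (-(l * h b))) / (Fintype.card B : ℝ)) :=
          mul_le_mul_of_nonneg_left hJ (Finset.sum_nonneg fun _ _ => (Real.exp_pos _).le)
      _ = (∑ b, ∑ b', Real.exp (l * (h b - h b'))) / (Fintype.card B : ℝ) := by
          rw [← mul_div_assoc, Finset.sum_mul_sum]
          congr 1
          refine Finset.sum_congr rfl fun b _ => Finset.sum_congr rfl fun b' _ => ?_
          rw [← Real.exp_add]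
          congr 1
          ring
      _ ≤ ((Fintype.card B : ℝ) ^ 2 * Real.exp (l ^ 2 * c ^ 2 / 2)) / (Fintype.card B : ℝ) :=
          div_le_div_of_nonneg_right (pair_exp h c l hc) hB.le
      _ = _ := by
          field_simp
  have h4 : Real.exp (l * m + l ^ 2 * c ^ 2 / 2) = Real.exp (l ^ 2 * c ^ 2 / 2) * Real.exp (l * m) := by
    rw [← Real.exp_add, add_comm]
  rw [h4]
  have h5 : (∑ b, Real.exp (l * h b)) =
      ((∑ b, Real.exp (l * h b)) * Real.exp (-(l * m))) * Real.exp (l * m) := by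
    rw [mul_assoc, ← Real.exp_add, neg_add_cancel, Real.exp_zero, mul_one]
  rw [h5, ← mul_assoc]
  exact mul_le_mul_of_nonneg_right h3 (Real.exp_pos _).le

/-- exponential moments of functions on a power of a finite set with bounded differences -/
theorem exp_bd {B : Type} [Fintype B] [Nonempty B] (l : ℝ) :
    ∀ (n : ℕ) (f : (Fin n → B) → ℝ) (c : ℝ),
    (∀ (ω : Fin n → B) (i : Fin n) (b : B), |f (Function.update ω i b) - f ω| ≤ c) →
    ∑ ω, Real.exp (l * f ω) ≤ (Fintype.card (Fin n → B) : ℝ) *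
      Real.exp (l * ((∑ ω, f ω) / (Fintype.card (Fin n → B) : ℝ)) + n * (l ^ 2 * c ^ 2 / 2)) := by
  intro n
  induction n with
  | zero =>
    intro f c _
    simp
  | succ n ih =>
    intro f c hf
    have hB : (0 : ℝ) < (Fintype.card B : ℝ) := by exact_mod_cast Fintype.card_pos
    obtain ⟨g, hg⟩ : ∃ g : (Fin n → B) → ℝ,
      g = fun ω => (∑ b, f (Fin.cons b ω)) / (Fintype.card B : ℝ) := ⟨_, rfl⟩
    have hsum : ∀ F : (Fin (n + 1) → B) → ℝ, ∑ ω, F ω = ∑ ω : Fin n → B, ∑ b, F (Fin.cons b ω) := by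
      intro F
      rw [← (Fin.consEquiv (fun _ : Fin (n + 1) => B)).sum_comp F, Fintype.sum_prod_type,
        Finset.sum_comm]
      rfl
    have hcard : (Fintype.card (Fin (n + 1) → B) : ℝ) =
        (Fintype.card (Fin n → B) : ℝ) * Fintype.card B := by
      simp [pow_succ]
    have hglip : ∀ (ω : Fin n → B) (i : Fin n) (b : B),
        |g (Function.update ω i b) - g ω| ≤ c := by
      intro ω i b
      rw [hg]
      simp only
      rw [← sub_div, ← Finset.sum_sub_distrib, abs_div, abs_of_pos hB, div_le_iff₀ hB]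
      refine (Finset.abs_sum_le_sum_abs _ _).trans ?_
      have : ∀ b' ∈ (Finset.univ : Finset B),
          |f (Fin.cons b' (Function.update ω i b)) - f (Fin.cons b' ω)| ≤ c := by
        intro b' _
        rw [Fin.cons_update]
        exact hf _ _ _
      refine (Finset.sum_le_sum this).trans (le_of_eq ?_)
      rw [Finset.sum_const, Finset.card_univ, nsmul_eq_mul, mul_comm]
    have h1 := ih g c hglip
    have h2 : ∀ ω : Fin n → B, ∑ b, Real.exp (l * f (Fin.cons b ω)) ≤
        (Fintype.card B : ℝ) * Real.exp (l * g ω + l ^ 2 * c ^ 2 / 2) := by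
      intro ω
      rw [hg]
      refine one_exp (fun b => f (Fin.cons b ω)) c l fun b b' => ?_
      have h3 : (Fin.cons b ω : Fin (n + 1) → B) =
          Function.update (Fin.cons b' ω : Fin (n + 1) → B) 0 b := by
        rw [Fin.update_cons_zero]
      rw [h3]
      exact hf _ _ _
    have h3 : (∑ ω, g ω) / (Fintype.card (Fin n → B) : ℝ) =
        (∑ ω, f ω) / (Fintype.card (Fin (n + 1) → B) : ℝ) := by
      rw [hsum f, hcard, hg]
      simp only
      rw [← Finset.sum_div, div_div, mul_comm (Fintype.card B : ℝ)]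
    rw [hsum (fun ω => Real.exp (l * f ω)), hcard]
    calc ∑ ω : Fin n → B, ∑ b, Real.exp (l * f (Fin.cons b ω))
        ≤ ∑ ω : Fin n → B, (Fintype.card B : ℝ) * Real.exp (l * g ω + l ^ 2 * c ^ 2 / 2) :=
          Finset.sum_le_sum fun ω _ => h2 ω
      _ = (Fintype.card B : ℝ) * Real.exp (l ^ 2 * c ^ 2 / 2) * ∑ ω : Fin n → B, Real.exp (l * g ω) := by
          rw [Finset.mul_sum]
          refine Finset.sum_congr rfl fun ω _ => ?_
          rw [Real.exp_add]
          ring
      _ ≤ (Fintype.card B : ℝ) * Real.exp (l ^ 2 * c ^ 2 / 2) * ((Fintype.card (Fin n → B) : ℝ) *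
          Real.exp (l * ((∑ ω, g ω) / (Fintype.card (Fin n → B) : ℝ)) +
            n * (l ^ 2 * c ^ 2 / 2))) := mul_le_mul_of_nonneg_left h1 (by positivity)
      _ = _ := by
          rw [h3, hcard]
          have e : Real.exp (l * ((∑ ω, f ω) / ((Fintype.card (Fin n → B) : ℝ) * (Fintype.card B : ℝ))) +
              ((n + 1 : ℕ) : ℝ) * (l ^ 2 * c ^ 2 / 2)) = Real.exp (l ^ 2 * c ^ 2 / 2) *
              Real.exp (l * ((∑ ω, f ω) / ((Fintype.card (Fin n → B) : ℝ) * (Fintype.card B : ℝ))) +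
                n * (l ^ 2 * c ^ 2 / 2)) := by
            rw [← Real.exp_add]
            congr 1
            push_cast
            ring
          rw [e]
          ring

open Classical in
theorem conc (n x y : ℕ) (hn : 1 ≤ n) (hxy : x ≤ y) :
    (1 - T n x) * T n y ≤ Real.exp (-(((y : ℝ) - x) ^ 2 / (8 * n))) := by
  set Ω := Fin n → Fin n → Bool with hΩ
  set f : Ω → ℝ := fun ω => (chr (Gr ω) : ℝ) with hf
  have hlip : ∀ (ω : Ω) (i : Fin n) (b : Fin n → Bool),
      |f (Function.update ω i b) - f ω| ≤ 1 := by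
    intro ω i b
    have h1 := chr_near (Gr ω) (Gr (Function.update ω i b)) i (Gr_update ω i b)
    have h2 := chr_near (Gr (Function.update ω i b)) (Gr ω) i
      (fun u w hu hw => (Gr_update ω i b u w hu hw).symm)
    have h1' : (chr (Gr (Function.update ω i b)) : ℝ) ≤ chr (Gr ω) + 1 := by exact_mod_cast h1
    have h2' : (chr (Gr ω) : ℝ) ≤ chr (Gr (Function.update ω i b)) + 1 := by exact_mod_cast h2
    rw [abs_le]
    constructor
    · show -1 ≤ (chr (Gr (Function.update ω i b)) : ℝ) - chr (Gr ω)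
      linarith
    · show (chr (Gr (Function.update ω i b)) : ℝ) - chr (Gr ω) ≤ 1
      linarith
  have hnR : (1 : ℝ) ≤ (n : ℝ) := by exact_mod_cast hn
  obtain ⟨l, hl⟩ : ∃ l : ℝ, l = ((y : ℝ) - x) / (2 * n) := ⟨_, rfl⟩
  have hxyr : (x : ℝ) ≤ y := by exact_mod_cast hxy
  have hl0 : 0 ≤ l := by
    rw [hl]
    exact div_nonneg (by linarith) (by linarith)
  have hE1 := exp_bd l n f 1 hlip
  have hE2 := exp_bd (-l) n f 1 hlip
  set A := Finset.univ.filter (fun ω : Ω => (Gr ω).Colorable x) with hA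
  set B := Finset.univ.filter (fun ω : Ω => ¬ (Gr ω).Colorable y) with hB
  have hcardpos : (0 : ℝ) < Fintype.card Ω := by exact_mod_cast Fintype.card_pos
  have hTy : T n y = (B.card : ℝ) / Fintype.card Ω := by
    rw [T, Pr_eq, hB]
    congr!
  have hTx : 1 - T n x = (A.card : ℝ) / Fintype.card Ω := by
    rw [T, Pr_compl, sub_sub_cancel]
    exact Pr_eq n (fun G => G.Colorable x)
  have hBs : (B.card : ℝ) * Real.exp (l * y) ≤ ∑ ω, Real.exp (l * f ω) := by
    calc (B.card : ℝ) * Real.exp (l * y) = ∑ _ω ∈ B, Real.exp (l * y) := by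
          rw [Finset.sum_const, nsmul_eq_mul]
      _ ≤ ∑ ω ∈ B, Real.exp (l * f ω) := by
          refine Finset.sum_le_sum fun ω hω => Real.exp_le_exp.2 (mul_le_mul_of_nonneg_left ?_ hl0)
          have h2 : y < chr (Gr ω) := by
            by_contra h
            exact (Finset.mem_filter.mp hω).2 ((chr_le_iff _ _).mp (not_lt.mp h))
          exact Nat.cast_le.mpr h2.le
      _ ≤ _ := Finset.sum_le_sum_of_subset_of_nonneg (Finset.subset_univ B)
          fun _ _ _ => (Real.exp_pos _).le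
  have hAs : (A.card : ℝ) * Real.exp (-l * x) ≤ ∑ ω, Real.exp (-l * f ω) := by
    calc (A.card : ℝ) * Real.exp (-l * x) = ∑ _ω ∈ A, Real.exp (-l * x) := by
          rw [Finset.sum_const, nsmul_eq_mul]
      _ ≤ ∑ ω ∈ A, Real.exp (-l * f ω) := by
          refine Finset.sum_le_sum fun ω hω => Real.exp_le_exp.2 ?_
          have h1 : chr (Gr ω) ≤ x := (chr_le_iff _ _).mpr (Finset.mem_filter.mp hω).2
          have h1' : f ω ≤ x := Nat.cast_le.mpr h1
          nlinarith
      _ ≤ _ := Finset.sum_le_sum_of_subset_of_nonneg (Finset.subset_univ A)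
          fun _ _ _ => (Real.exp_pos _).le
  have hprod := mul_le_mul (hAs.trans hE2) (hBs.trans hE1) (by positivity) (by positivity)
  have hexp : ((Fintype.card Ω : ℝ) * Real.exp (-l * ((∑ ω, f ω) / (Fintype.card Ω : ℝ)) +
        n * ((-l) ^ 2 * 1 ^ 2 / 2))) * ((Fintype.card Ω : ℝ) *
        Real.exp (l * ((∑ ω, f ω) / (Fintype.card Ω : ℝ)) + n * (l ^ 2 * 1 ^ 2 / 2))) =
      (Fintype.card Ω : ℝ) ^ 2 * Real.exp (n * l ^ 2) := by
    have : Real.exp (n * l ^ 2) = Real.exp (-l * ((∑ ω, f ω) / (Fintype.card Ω : ℝ)) +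
        n * ((-l) ^ 2 * 1 ^ 2 / 2)) *
        Real.exp (l * ((∑ ω, f ω) / (Fintype.card Ω : ℝ)) + n * (l ^ 2 * 1 ^ 2 / 2)) := by
      rw [← Real.exp_add]
      congr 1
      ring
    rw [this]
    ring
  rw [hexp] at hprod
  have hfin : (A.card : ℝ) * B.card ≤
      (Fintype.card Ω : ℝ) ^ 2 * Real.exp (n * l ^ 2 - l * ((y : ℝ) - x)) := by
    have h1 : (A.card : ℝ) * B.card = ((A.card : ℝ) * Real.exp (-l * x)) *
        ((B.card : ℝ) * Real.exp (l * y)) * Real.exp (-(l * ((y : ℝ) - x))) := by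
      have : Real.exp (-l * x) * Real.exp (l * y) * Real.exp (-(l * ((y : ℝ) - x))) = 1 := by
        rw [← Real.exp_add, ← Real.exp_add, ← Real.exp_zero]
        congr 1
        ring
      calc (A.card : ℝ) * B.card = (A.card : ℝ) * B.card *
            (Real.exp (-l * x) * Real.exp (l * y) * Real.exp (-(l * ((y : ℝ) - x)))) := by
            rw [this, mul_one]
        _ = _ := by ring
    have e0 : Real.exp (n * l ^ 2 - l * ((y : ℝ) - x)) =
        Real.exp (n * l ^ 2) * Real.exp (-(l * ((y : ℝ) - x))) := by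
      rw [← Real.exp_add]
      congr 1
    have h2 := mul_le_mul_of_nonneg_right hprod
      (Real.exp_pos (-(l * ((y : ℝ) - x)))).le
    calc (A.card : ℝ) * B.card = _ := h1
      _ ≤ _ := h2
      _ = _ := by rw [e0, mul_assoc]
  rw [hTx, hTy, div_mul_div_comm, div_le_iff₀ (by positivity)]
  have hE : Real.exp (n * l ^ 2 - l * ((y : ℝ) - x)) ≤ Real.exp (-(((y : ℝ) - x) ^ 2 / (8 * n))) := by
    rw [Real.exp_le_exp, hl]
    have hn0 : (n : ℝ) ≠ 0 := by linarith
    have e : (n : ℝ) * (((y : ℝ) - x) / (2 * n)) ^ 2 - ((y : ℝ) - x) / (2 * n) * ((y : ℝ) - x) =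
        -(((y : ℝ) - x) ^ 2 / (4 * n)) := by
      field_simp
      ring
    rw [e, neg_le_neg_iff]
    exact div_le_div_of_nonneg_left (sq_nonneg _) (by linarith) (by linarith)
  calc (A.card : ℝ) * B.card ≤
      (Fintype.card Ω : ℝ) ^ 2 * Real.exp (n * l ^ 2 - l * ((y : ℝ) - x)) := hfin
    _ ≤ (Fintype.card Ω : ℝ) ^ 2 * Real.exp (-(((y : ℝ) - x) ^ 2 / (8 * n))) :=
        mul_le_mul_of_nonneg_left hE (by positivity)
    _ = _ := by ring

end ZS51
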