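import Pool.Agent.ZS51.Defs

/-!
# ZS51/Count: functions with prescribed class sizes and prescribed values, one step

`om_step`. For `u ∉ D` the number of `g ∈ Om s D h` with `g u = j` does not depend on
`u`: `g ↦ g ∘ swap u v` is a bijection; and `∑_{u ∉ D} #{g ∈ Om s D h : g u = j} = ∑_g #{u ∉ D : g u = j}
= |Om s D h| (s j - cnt D h j)` (natural subtraction; if `Om s D h` is nonempty then `cnt D h j ≤ s j`).
Take `j = h v`.
`om_pos`: if `∑ s = n` there is a function with class sizes `s` (e.g. via `Equiv` of `Fin n` with `Σ j, Fin (s j)`,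
`finSigmaFinEquiv`).
`sum_rest`: for `g ∈ Om s D h`: `cnt D h j ≤ s j` and `∑ j, cnt D h j = |D|`.
-/

set_option autoImplicit false

namespace ZS51

variable {n k : ℕ}

private theorem mem_Om0 (s : Fin k → ℕ) (g : Fin n → Fin k) :
    g ∈ Om0 s ↔ ∀ j, cnt Finset.univ g j = s j := by
  unfold Om0
  rw [Finset.mem_filter]
  exact and_iff_right (Finset.mem_univ _)

private theorem mem_Om (s : Fin k → ℕ) (D : Finset (Fin n)) (h g : Fin n → Fin k) :
    g ∈ Om s D h ↔ g ∈ Om0 s ∧ ∀ v ∈ D, g v = h v := by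
  unfold Om
  rw [Finset.mem_filter]

private theorem cnt_eq_sum (D : Finset (Fin n)) (g : Fin n → Fin k) (j : Fin k) :
    cnt D g j = ∑ v ∈ D, if g v = j then 1 else 0 := by
  unfold cnt
  rw [Finset.card_filter]

private theorem cnt_congr {D : Finset (Fin n)} {g h : Fin n → Fin k} (hgh : ∀ v ∈ D, g v = h v) (j : Fin k) :
    cnt D g j = cnt D h j := by
  rw [cnt_eq_sum, cnt_eq_sum]
  exact Finset.sum_congr rfl (fun v hv => by rw [hgh v hv])

private theorem cnt_compl (D : Finset (Fin n)) (g : Fin n → Fin k) (j : Fin k) :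
    cnt D g j + cnt Dᶜ g j = cnt Finset.univ g j := by
  rw [cnt_eq_sum, cnt_eq_sum, cnt_eq_sum, Finset.sum_add_sum_compl]

private theorem cnt_perm (σ : Equiv.Perm (Fin n)) (g : Fin n → Fin k) (j : Fin k) :
    cnt Finset.univ (g ∘ σ) j = cnt Finset.univ g j := by
  rw [cnt_eq_sum, cnt_eq_sum]
  exact Equiv.sum_comp σ (fun v => if g v = j then 1 else 0)

theorem om_pos (s : Fin k → ℕ) (hs : ∑ j, s j = n) : 0 < (Om0 (n := n) s).card := by
  subst hs
  apply Finset.card_pos.2
  refine ⟨fun v => (finSigmaFinEquiv.symm v).1, ?_⟩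
  rw [mem_Om0]
  intro j
  rw [cnt_eq_sum]
  have h1 := Equiv.sum_comp (finSigmaFinEquiv (m := k) (n := s)).symm
    (fun x : (i : Fin k) × Fin (s i) => if x.1 = j then 1 else 0)
  rw [h1, Fintype.sum_sigma, Finset.sum_eq_single j]
  · simp
  · intro b _ hb
    simp [hb]
  · intro hj
    exact absurd (Finset.mem_univ j) hj

/-- one step -/
theorem om_step (s : Fin k → ℕ) (hs : ∑ j, s j = n) (D : Finset (Fin n)) (h : Fin n → Fin k)
    (v : Fin n) (hv : v ∉ D) :
    (Om s (insert v D) h).card * (n - D.card) = (Om s D h).card * (s (h v) - cnt D h (h v)) := by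
  have hmem : Om s (insert v D) h = (Om s D h).filter (fun g => g v = h v) := by
    ext g
    rw [Finset.mem_filter, mem_Om, mem_Om]
    constructor
    · rintro ⟨h1, h2⟩
      exact ⟨⟨h1, fun w hw => h2 w (Finset.mem_insert_of_mem hw)⟩, h2 v (Finset.mem_insert_self v D)⟩
    · rintro ⟨⟨h1, h2⟩, h3⟩
      refine ⟨h1, fun w hw => ?_⟩
      rcases Finset.mem_insert.1 hw with rfl | hw
      · exact h3
      · exact h2 w hw
  have hswap : ∀ a b : Fin n, a ∉ D → b ∉ D → ∀ g ∈ (Om s D h).filter (fun g => g a = h v),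
      (g ∘ Equiv.swap a b) ∈ (Om s D h).filter (fun g => g b = h v) := by
    intro a b ha hb g hg
    rw [Finset.mem_filter, mem_Om, mem_Om0] at hg ⊢
    obtain ⟨⟨h1, h2⟩, h3⟩ := hg
    refine ⟨⟨fun j => by rw [cnt_perm, h1 j], fun w hw => ?_⟩, ?_⟩
    · rw [Function.comp_apply, Equiv.swap_apply_of_ne_of_ne (fun hh : w = a => ha (hh ▸ hw))
        (fun hh : w = b => hb (hh ▸ hw))]
      exact h2 w hw
    · rw [Function.comp_apply, Equiv.swap_apply_right]
      exact h3
  have hN : ∀ u ∈ Dᶜ, ((Om s D h).filter (fun g => g u = h v)).card =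
      ((Om s D h).filter (fun g => g v = h v)).card := by
    intro u hu
    rw [Finset.mem_compl] at hu
    apply Finset.card_bij' (fun g _ => g ∘ Equiv.swap u v) (fun g _ => g ∘ Equiv.swap v u)
    · exact fun g hg => hswap u v hu hv g hg
    · exact fun g hg => hswap v u hv hu g hg
    · intro g _
      rw [Equiv.swap_comm v u, Function.comp_assoc, ← Equiv.coe_trans, Equiv.swap_swap]
      rfl
    · intro g _
      rw [Equiv.swap_comm v u, Function.comp_assoc, ← Equiv.coe_trans, Equiv.swap_swap]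
      rfl
  have hG : ∀ g ∈ Om s D h, (Dᶜ.filter (fun u => g u = h v)).card = s (h v) - cnt D h (h v) := by
    intro g hg
    rw [mem_Om, mem_Om0] at hg
    have h1 := cnt_compl D g (h v)
    rw [hg.1 (h v), cnt_congr hg.2] at h1
    have h2 : (Dᶜ.filter (fun u => g u = h v)).card = cnt Dᶜ g (h v) := rfl
    omega
  have hcard : n - D.card = (Dᶜ).card := by
    rw [Finset.card_compl, Fintype.card_fin]
  have hdc := Finset.sum_card_bipartiteAbove_eq_sum_card_bipartiteBelow (s := Dᶜ) (t := Om s D h)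
    (fun (u : Fin n) (g : Fin n → Fin k) => g u = h v)
  unfold Finset.bipartiteAbove Finset.bipartiteBelow at hdc
  rw [Finset.sum_congr rfl hN, Finset.sum_congr rfl hG, Finset.sum_const, Finset.sum_const, smul_eq_mul,
    smul_eq_mul] at hdc
  rw [hmem, hcard, mul_comm, hdc]

theorem cnt_le (s : Fin k → ℕ) (D : Finset (Fin n)) (h : Fin n → Fin k)
    (hne : (Om s D h).Nonempty) (j : Fin k) : cnt D h j ≤ s j := by
  obtain ⟨g, hg⟩ := hne
  rw [mem_Om, mem_Om0] at hg
  have h1 := cnt_compl D g j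
  rw [hg.1 j, cnt_congr hg.2] at h1
  omega

/-- the remaining class sizes add up to the size of the rest -/
theorem sum_rest (s : Fin k → ℕ) (hs : ∑ j, s j = n) (D : Finset (Fin n)) (h : Fin n → Fin k)
    (hne : (Om s D h).Nonempty) : ∑ j, (s j - cnt D h j) = n - D.card := by
  have h1 : ∑ j, cnt D h j = D.card := by
    unfold cnt
    exact (Finset.card_eq_sum_card_fiberwise (f := h) (t := Finset.univ) (fun _ _ => Finset.mem_univ _)).symm
  have h2 : ∑ j, (s j - cnt D h j) + ∑ j, cnt D h j = ∑ j, s j := by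
    rw [← Finset.sum_add_distrib]
    exact Finset.sum_congr rfl (fun j _ => Nat.sub_add_cancel (cnt_le s D h hne j))
  rw [h1, hs] at h2
  omega

end ZS51
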