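import Pool.Agent.ZS51.Count

/-!
# ZS51/CountB: many prescribed values

`om_desc` (exact): `|Om s D h| · n.descFactorial |D| = |Om0 s| · ∏_j (s j).descFactorial (cnt D h j)`.
PROOF. Induction on `D` (`Finset.induction_on`) with `om_step` and `Nat.descFactorial_succ`.
`om_ext` : for `D ⊆ D'`, `m = |D' \ D|`, `N = n - |D|` (divide the two exact formulas, or iterate `om_step`):
`|Om s D' h| · N.descFactorial m ≤ |Om s D h| · ∏_{v ∈ D' \ D} (s (h v) - cnt D h (h v))`, and
`N^m ≤ e^m · N.descFactorial m` for `m ≤ N` (`desc_exp`).
`desc_exp`: `N^m (N-m)! ≤ e^m N!`: the factors `N/(N-i)`, `i < m`, increase, so the geometric mean of the first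
`m` is at most the geometric mean of all `N` of them, `(N^N/N!)^{1/N} ≤ e` (`Real.pow_div_factorial_le_exp`).
Alternative: induction on `N` for fixed `m`, or `log` and `∑_{i<m} -log(1 - i/N) ≤ N ∫_0^{m/N} -log(1-x) dx ≤ m`.
-/

set_option autoImplicit false

namespace ZS51

variable {n k : ℕ}

theorem om_desc (s : Fin k → ℕ) (hs : ∑ j, s j = n) (D : Finset (Fin n)) (h : Fin n → Fin k) :
    (Om s D h).card * n.descFactorial D.card
      = (Om0 (n := n) s).card * ∏ j, (s j).descFactorial (cnt D h j) := by
  classical
  induction D using Finset.induction_on with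
  | empty =>
    have h1 : Om s ∅ h = Om0 (n := n) s := by
      unfold Om
      apply Finset.filter_true_of_mem
      intro g _ v hv
      simp at hv
    have h2 : ∀ j, cnt (∅ : Finset (Fin n)) h j = 0 := by
      intro j
      unfold cnt
      simp
    simp [h1, h2]
  | insert v D hv ih =>
    have h1 := om_step s hs D h v hv
    have h2 : ∏ j, (s j).descFactorial (cnt (insert v D) h j) =
        (s (h v) - cnt D h (h v)) * ∏ j, (s j).descFactorial (cnt D h j) := by
      have h3 : ∀ j, (s j).descFactorial (cnt (insert v D) h j) =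
          (if j = h v then (s (h v) - cnt D h (h v)) else 1) *
            (s j).descFactorial (cnt D h j) := by
        intro j
        by_cases hj : j = h v
        · have h4 : cnt (insert v D) h j = cnt D h j + 1 := by
            unfold cnt
            rw [Finset.filter_insert, if_pos hj.symm, Finset.card_insert_of_notMem]
            simp [hv]
          rw [h4, Nat.descFactorial_succ, if_pos hj, hj]
        · have h4 : cnt (insert v D) h j = cnt D h j := by
            unfold cnt
            rw [Finset.filter_insert, if_neg (fun e => hj e.symm)]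
          rw [h4, if_neg hj, one_mul]
      rw [Finset.prod_congr rfl fun j _ => h3 j, Finset.prod_mul_distrib]
      congr 1
      simp
    rw [Finset.card_insert_of_notMem hv, Nat.descFactorial_succ, h2]
    calc (Om s (insert v D) h).card * ((n - D.card) * n.descFactorial D.card)
        = ((Om s (insert v D) h).card * (n - D.card)) * n.descFactorial D.card := by ring
      _ = ((Om s D h).card * (s (h v) - cnt D h (h v))) * n.descFactorial D.card := by rw [h1]
      _ = ((Om s D h).card * n.descFactorial D.card) * (s (h v) - cnt D h (h v)) := by ring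
      _ = ((Om0 (n := n) s).card * ∏ j, (s j).descFactorial (cnt D h j)) *
            (s (h v) - cnt D h (h v)) := by rw [ih]
      _ = _ := by ring

theorem desc_exp (N m : ℕ) (h : m ≤ N) :
    (N : ℝ) ^ m ≤ Real.exp m * (N.descFactorial m : ℝ) := by
  induction N generalizing m with
  | zero =>
    have hm : m = 0 := by omega
    subst hm
    simp
  | succ N ih =>
    rcases m with _ | m
    · simp
    · have hm : m ≤ N := by omega
      have h1 := ih m hm
      have h2 : ((N : ℝ) + 1) ^ m ≤ Real.exp 1 * (N : ℝ) ^ m := by
        rcases Nat.eq_zero_or_pos N with h0 | h0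
        · have hm0 : m = 0 := by omega
          subst hm0
          simp
        · have hN : (0 : ℝ) < N := by exact_mod_cast h0
          have h3 : (N : ℝ) + 1 ≤ N * Real.exp (1 / N) := by
            have := Real.add_one_le_exp (1 / (N : ℝ))
            calc (N : ℝ) + 1 = N * (1 / N + 1) := by field_simp; ring
              _ ≤ N * Real.exp (1 / N) := mul_le_mul_of_nonneg_left this hN.le
          calc ((N : ℝ) + 1) ^ m ≤ (N * Real.exp (1 / N)) ^ m :=
                pow_le_pow_left₀ (by positivity) h3 m
            _ = (N : ℝ) ^ m * Real.exp (m * (1 / N)) := by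
                rw [mul_pow, ← Real.exp_nat_mul]
            _ ≤ (N : ℝ) ^ m * Real.exp 1 := by
                apply mul_le_mul_of_nonneg_left _ (by positivity)
                apply Real.exp_le_exp.2
                rw [mul_one_div, div_le_one hN]
                exact_mod_cast hm
            _ = Real.exp 1 * (N : ℝ) ^ m := by ring
      rw [Nat.succ_descFactorial_succ]
      push_cast
      calc ((N : ℝ) + 1) ^ (m + 1) = ((N : ℝ) + 1) ^ m * (N + 1) := pow_succ _ _
        _ ≤ (Real.exp 1 * (N : ℝ) ^ m) * (N + 1) :=
            mul_le_mul_of_nonneg_right h2 (by positivity)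
        _ ≤ (Real.exp 1 * (Real.exp m * (N.descFactorial m : ℝ))) * (N + 1) := by
            apply mul_le_mul_of_nonneg_right _ (by positivity)
            exact mul_le_mul_of_nonneg_left h1 (Real.exp_pos _).le
        _ = Real.exp (m + 1) * ((N + 1) * (N.descFactorial m : ℝ)) := by
            rw [Real.exp_add]
            ring

theorem cnt_mono (D D' : Finset (Fin n)) (hD : D ⊆ D') (h : Fin n → Fin k) (j : Fin k) :
    cnt D h j ≤ cnt D' h j :=
  Finset.card_le_card (Finset.filter_subset_filter _ hD)

theorem om_ext_nat (s : Fin k → ℕ) (hs : ∑ j, s j = n) (D T : Finset (Fin n))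
    (hT : Disjoint D T) (h : Fin n → Fin k) :
    (Om s (D ∪ T) h).card * (n - D.card).descFactorial T.card
      ≤ (Om s D h).card * ∏ v ∈ T, (s (h v) - cnt D h (h v)) := by
  classical
  induction T using Finset.induction_on with
  | empty => simp
  | insert v T hv ih =>
    have hv2 : v ∉ D := fun e => Finset.disjoint_left.1 hT e (Finset.mem_insert_self v T)
    have hT' : Disjoint D T := hT.mono_right (Finset.subset_insert v T)
    have hv3 : v ∉ D ∪ T := by
      rw [Finset.mem_union]
      tauto
    have h1 := om_step s hs (D ∪ T) h v hv3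
    have h2 : D ∪ insert v T = insert v (D ∪ T) := Finset.union_insert v D T
    have h3 : (D ∪ T).card = D.card + T.card := Finset.card_union_of_disjoint hT'
    rw [h2, Finset.card_insert_of_notMem hv, Nat.descFactorial_succ, Finset.prod_insert hv]
    have h4 : n - D.card - T.card = n - (D ∪ T).card := by omega
    have h5 : s (h v) - cnt (D ∪ T) h (h v) ≤ s (h v) - cnt D h (h v) :=
      Nat.sub_le_sub_left (cnt_mono _ _ Finset.subset_union_left h (h v)) _
    rw [h4]
    calc (Om s (insert v (D ∪ T)) h).card * ((n - (D ∪ T).card) * (n - D.card).descFactorial T.card)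
        = ((Om s (insert v (D ∪ T)) h).card * (n - (D ∪ T).card)) *
            (n - D.card).descFactorial T.card := by ring
      _ = ((Om s (D ∪ T) h).card * (s (h v) - cnt (D ∪ T) h (h v))) *
            (n - D.card).descFactorial T.card := by rw [h1]
      _ = ((Om s (D ∪ T) h).card * (n - D.card).descFactorial T.card) *
            (s (h v) - cnt (D ∪ T) h (h v)) := by ring
      _ ≤ ((Om s D h).card * ∏ v ∈ T, (s (h v) - cnt D h (h v))) *
            (s (h v) - cnt D h (h v)) := Nat.mul_le_mul (ih hT') h5
      _ = _ := by ring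

/-- extension of a prescription, crude form -/
theorem om_ext (s : Fin k → ℕ) (hs : ∑ j, s j = n) (D D' : Finset (Fin n)) (hD : D ⊆ D')
    (h : Fin n → Fin k) :
    ((Om s D' h).card : ℝ) * ((n - D.card : ℕ) : ℝ) ^ (D' \ D).card
      ≤ ((Om s D h).card : ℝ)
        * ∏ v ∈ D' \ D, (Real.exp 1 * ((s (h v) - cnt D h (h v) : ℕ) : ℝ)) := by
  classical
  have h1 := om_ext_nat s hs D (D' \ D) Finset.disjoint_sdiff h
  rw [Finset.union_sdiff_of_subset hD] at h1
  have h2 : (D' \ D).card ≤ n - D.card := by
    rw [Finset.card_sdiff_of_subset hD]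
    have : D'.card ≤ n := by
      simpa using Finset.card_le_univ D'
    omega
  have h3 := desc_exp (n - D.card) (D' \ D).card h2
  have h4 : ((Om s D' h).card : ℝ) * ((n - D.card).descFactorial (D' \ D).card : ℝ)
      ≤ ((Om s D h).card : ℝ) * ∏ v ∈ D' \ D, ((s (h v) - cnt D h (h v) : ℕ) : ℝ) := by
    exact_mod_cast h1
  rw [Finset.prod_mul_distrib, Finset.prod_const, ← Real.exp_nat_mul, mul_one]
  calc ((Om s D' h).card : ℝ) * ((n - D.card : ℕ) : ℝ) ^ (D' \ D).card
      ≤ ((Om s D' h).card : ℝ) * (Real.exp ((D' \ D).card : ℝ) *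
          ((n - D.card).descFactorial (D' \ D).card : ℝ)) :=
        mul_le_mul_of_nonneg_left h3 (Nat.cast_nonneg _)
    _ = Real.exp ((D' \ D).card : ℝ) * (((Om s D' h).card : ℝ) *
          ((n - D.card).descFactorial (D' \ D).card : ℝ)) := by ring
    _ ≤ Real.exp ((D' \ D).card : ℝ) * (((Om s D h).card : ℝ) *
          ∏ v ∈ D' \ D, ((s (h v) - cnt D h (h v) : ℕ) : ℝ)) :=
        mul_le_mul_of_nonneg_left h4 (Real.exp_pos _).le
    _ = _ := by ring

end ZS51
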