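import Pool.Agent.ZZ51.Local

/-!
# ZS51: the sharp upper bound for the chromatic number of G(n,1/2)
(MP_c516b4_pr; theorem of Heckel 2018, proved here by the second moment of the number of equitable
colourings and bounded differences.)  Blueprint: helper51.

Overview. `A = al0 n - 1 - 2/log 2 = 2 log₂ n - 2 log₂ log₂ n - 2`.  `k = ⌈n/(A - ε)⌉`, `a = n / k`,
`r = n % k`; `s = sz n k`: `r` classes of size `a+1`, `k - r` of size `a`.  `Z(G)` = number of proper
colourings `Fin n → Fin k` with class sizes `s`.  `E Z² / (E Z)² = E_g 2^{ov f g}`, `f, g` with class sizes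
`s`, `ov f g` = number of pairs monochromatic in both.  We show `∑_g 2^{ov f g} ≤ |Om0 s| exp (n^{0.95})`,
so `P(χ ≤ k) ≥ exp (-n^{0.95})`, and by bounded differences `χ ≤ k + n^{0.98} + 1` whp.
Cells `V_i ∩ W_j` with more than `θ = (a+1)/2` elements are large (a partial matching), the others are
handled by a product bound (`Medium`).
-/

set_option autoImplicit false

namespace ZS51

variable {n k : ℕ}

/-- class sizes of the equitable partition of `n` into `k` classes -/
def sz (n k : ℕ) (i : Fin k) : ℕ := n / k + (if (i : ℕ) < n % k then 1 else 0)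

/-- number of `v ∈ D` with `h v = j` -/
def cnt (D : Finset (Fin n)) (h : Fin n → Fin k) (j : Fin k) : ℕ :=
  (D.filter (fun v => h v = j)).card

/-- functions with class sizes `s` -/
def Om0 (s : Fin k → ℕ) : Finset (Fin n → Fin k) :=
  Finset.univ.filter (fun g => ∀ j, cnt Finset.univ g j = s j)

/-- functions with class sizes `s` and equal to `h` on `D` -/
def Om (s : Fin k → ℕ) (D : Finset (Fin n)) (h : Fin n → Fin k) : Finset (Fin n → Fin k) :=
  (Om0 s).filter (fun g => ∀ v ∈ D, g v = h v)

/-- cell sizes on `R` -/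
def cell (R : Finset (Fin n)) (f g : Fin n → Fin k) (i j : Fin k) : ℕ :=
  (R.filter (fun v => f v = i ∧ g v = j)).card

/-- number of pairs of `R` which are monochromatic for `f` and for `g` -/
def ov (R : Finset (Fin n)) (f g : Fin n → Fin k) : ℕ :=
  ∑ i, ∑ j, (cell R f g i j).choose 2

/-- options for one row: nothing, or a column `j` and a set `A` of more than `θ` elements of the row -/
def Opt (f : Fin n → Fin k) (θ : ℕ) (i : Fin k) : Finset (Option (Fin k × Finset (Fin n))) :=
  Finset.univ.filter (fun o => ∀ p, o = some p →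
    θ < p.2.card ∧ p.2 ⊆ Finset.univ.filter (fun v => f v = i))

/-- weight of an option -/
noncomputable def wt (s : Fin k → ℕ) : Option (Fin k × Finset (Fin n)) → ℝ
  | none => 1
  | some p => (2 : ℝ) ^ (p.2.card.choose 2) * ((s p.1).descFactorial p.2.card : ℝ)

/-- mass of an option -/
def mass : Option (Fin k × Finset (Fin n)) → ℕ
  | none => 0
  | some p => p.2.card

/-- the sum over all systems of large cells -/
noncomputable def LS (s : Fin k → ℕ) (f : Fin n → Fin k) (θ : ℕ) : ℝ :=
  ∑ ψ ∈ Fintype.piFinset (Opt f θ),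
    (∏ i, wt s (ψ i)) / (n.descFactorial (∑ i, mass (ψ i)) : ℝ)

/-- `β₁ = (a+1)! 2^{C(a+1,2)}` -/
noncomputable def be1 (a : ℕ) : ℝ := ((a + 1).factorial : ℝ) * (2 : ℝ) ^ ((a + 1).choose 2)

/-- `β₀ = (a+1) (a+1)! 2^{C(a,2)}` -/
noncomputable def be0 (a : ℕ) : ℝ :=
  ((a : ℝ) + 1) * ((a + 1).factorial : ℝ) * (2 : ℝ) ^ (a.choose 2)

/-- the number of colours -/
noncomputable def kk (ε : ℝ) (n : ℕ) : ℕ := ⌈(n : ℝ) / (ZZ51.al0 n - 1 - 2 / Real.log 2 - ε)⌉₊

end ZS51
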