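import Pool.Agent.ZS51.Many

/-!
# ZS51/Diffuse: on average at most a proportion `{α₀}` of the mass of `χ(G(n,1/2))` is concentrated
(helper51)
-/

set_option autoImplicit false

open Filter Topology ZZ51

namespace ZS51

open Classical in
/-- a common constant for finitely many windows -/
theorem local_family (p q : ℕ → ℝ) (ε κ : ℝ) (hε : 0 < ε) (hκ : 0 < κ) (m : ℕ)
    (h : ∀ j, j < m → 0 < q j ∧ q j < p j ∧ p j < 1) :
    ∃ c : ℝ, 0 < c ∧ ∀ᶠ N : ℕ in atTop, ∀ j : ℕ, j < m →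
      (((Finset.Ioc N ⌊(1 + κ) * (N : ℝ)⌋₊).filter
            (fun n : ℕ => Bad (p j) (q j) c n)).card : ℝ)
        ≤ ∑ n ∈ Finset.Ioc N ⌊(1 + κ) * (N : ℝ)⌋₊, Int.fract (al0 n) + ε * N := by
  induction m with
  | zero => exact ⟨1, one_pos, Eventually.of_forall (fun N j h2 => by omega)⟩
  | succ m ih =>
    obtain ⟨c1, hc1, h1⟩ := ih (fun j hj => h j (by omega))
    obtain ⟨hq, hqp, hp⟩ := h m (by omega)
    obtain ⟨c2, hc2, h2⟩ := local_window sharp (p m) (q m) ε κ hq hqp hp hε hκ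
    refine ⟨min c1 c2, lt_min hc1 hc2, ?_⟩
    filter_upwards [h1, h2] with N hN1 hN2 j hj
    obtain ⟨S, hS⟩ : ∃ S : Finset ℕ, S = Finset.Ioc N ⌊(1 + κ) * (N : ℝ)⌋₊ := ⟨_, rfl⟩
    rw [← hS] at hN1 hN2 ⊢
    rcases Nat.lt_or_ge j m with hjm | hjm
    · refine le_trans ?_ (hN1 j hjm)
      have : S.filter (fun n : ℕ => Bad (p j) (q j) (min c1 c2) n)
          ⊆ S.filter (fun n : ℕ => Bad (p j) (q j) c1 n) := by
        intro n hn
        rw [Finset.mem_filter] at hn ⊢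
        exact ⟨hn.1, Bad_mono _ _ _ _ (min_le_left _ _) n hn.2⟩
      exact_mod_cast Finset.card_le_card this
    · have hjm' : j = m := by omega
      subst hjm'
      have h3 := Finset.card_filter_add_card_filter_not (s := S)
        (fun n : ℕ => Bad (p j) (q j) c2 n)
      have h4 : ((S.filter (fun n : ℕ => Bad (p j) (q j) c2 n)).card : ℝ)
        + (S.filter (fun n : ℕ => ¬ Bad (p j) (q j) c2 n)).card = S.card := by
        exact_mod_cast h3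
      rw [Finset.sum_sub_distrib, Finset.sum_const, nsmul_eq_mul, mul_one] at hN2
      have : S.filter (fun n : ℕ => Bad (p j) (q j) (min c1 c2) n)
          ⊆ S.filter (fun n : ℕ => Bad (p j) (q j) c2 n) := by
        intro n hn
        rw [Finset.mem_filter] at hn ⊢
        exact ⟨hn.1, Bad_mono _ _ _ _ (min_le_right _ _) n hn.2⟩
      have h5 : ((S.filter (fun n : ℕ => Bad (p j) (q j) (min c1 c2) n)).card : ℝ)
          ≤ (S.filter (fun n : ℕ => Bad (p j) (q j) c2 n)).card := by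
        exact_mod_cast Finset.card_le_card this
      linarith

/-- integers `j` with `u ≤ j ≤ v`, `j + 2 ≤ K + 1`, `1 ≤ j` -/
theorem count_int (K : ℕ) (u v : ℝ) (hu : 0 ≤ u) (hv : v ≤ K) :
    v - u - 4 ≤ (((Finset.range K).filter
      (fun j : ℕ => u ≤ (j : ℝ) + 1 ∧ (j : ℝ) + 2 ≤ v)).card : ℝ) := by
  rcases lt_or_ge v (u + 4) with h | h
  · have : (0 : ℝ) ≤ (((Finset.range K).filter
      (fun j : ℕ => u ≤ (j : ℝ) + 1 ∧ (j : ℝ) + 2 ≤ v)).card : ℝ) := Nat.cast_nonneg _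
    linarith
  · have hsub : Finset.Ico ⌈u⌉₊ (⌊v⌋₊ - 1) ⊆ (Finset.range K).filter
      (fun j : ℕ => u ≤ (j : ℝ) + 1 ∧ (j : ℝ) + 2 ≤ v) := by
      intro j hj
      rw [Finset.mem_Ico] at hj
      rw [Finset.mem_filter, Finset.mem_range]
      have h1 : u ≤ (j : ℝ) := (Nat.le_ceil u).trans (by exact_mod_cast hj.1)
      have h2 : j + 2 ≤ ⌊v⌋₊ := by omega
      have h3 : ((j : ℝ) + 2) ≤ v := by
        have h4 : ((j + 2 : ℕ) : ℝ) ≤ v := (Nat.cast_le.mpr h2).trans (Nat.floor_le (by linarith))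
        push_cast at h4
        exact h4
      have h5 : ((j : ℝ) + 2) ≤ K := h3.trans hv
      have h6 : j + 2 ≤ K := by exact_mod_cast h5
      exact ⟨by omega, by linarith, h3⟩
    have h1 := Finset.card_le_card hsub
    rw [Nat.card_Ico] at h1
    have h2 : (⌊v⌋₊ : ℝ) > v - 1 := by
      have := Nat.lt_floor_add_one v
      linarith
    have h3 : (⌈u⌉₊ : ℝ) < u + 1 := Nat.ceil_lt_add_one hu
    have h4 : ((⌊v⌋₊ - 1 - ⌈u⌉₊ : ℕ) : ℝ) ≥ (⌊v⌋₊ : ℝ) - 1 - ⌈u⌉₊ := by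
      have : ⌊v⌋₊ ≤ (⌊v⌋₊ - 1 - ⌈u⌉₊) + 1 + ⌈u⌉₊ := by omega
      have h5 : (⌊v⌋₊ : ℝ) ≤ ((⌊v⌋₊ - 1 - ⌈u⌉₊ : ℕ) : ℝ) + 1 + ⌈u⌉₊ := by exact_mod_cast this
      linarith
    have h5 : ((⌊v⌋₊ - 1 - ⌈u⌉₊ : ℕ) : ℝ) ≤ (((Finset.range K).filter
      (fun j : ℕ => u ≤ (j : ℝ) + 1 ∧ (j : ℝ) + 2 ≤ v)).card : ℝ) := by exact_mod_cast h1
    linarith

open Classical in
/-- the mass of disjoint intervals and the number of crossed windows -/
theorem mass_le (n : ℕ) (hn : 1 ≤ n) (c δ : ℝ) (hc : 0 ≤ c) (hδ : 0 < δ) (K : ℕ) (hK : 1 ≤ K)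
    (hKδ : 8 ≤ δ * ((K : ℝ) + 2)) (F : Finset ℝ)
    (hF : ∀ b ∈ F, ∀ b' ∈ F, b < b' → b + c * Real.sqrt (mu n (al n)) / Real.log n < b')
    (hP : ∀ b ∈ F, δ ≤ Pr n (brE n b (c * Real.sqrt (mu n (al n)) / Real.log n))) :
    ∑ b ∈ F, Pr n (brE n b (c * Real.sqrt (mu n (al n)) / Real.log n))
      ≤ (((Finset.range K).filter (fun j : ℕ =>
          Bad (((j : ℝ) + 2) / (K + 2)) (((j : ℝ) + 1) / (K + 2)) c n)).card : ℝ) / (K + 2)
        + (1 + 8 / δ) / (K + 2) := by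
  obtain ⟨L, hL⟩ : ∃ L : ℝ, L = c * Real.sqrt (mu n (al n)) / Real.log n := ⟨_, rfl⟩
  rw [← hL] at hF hP ⊢
  have hL0 : 0 ≤ L := hL ▸ br_len n c hc
  have hK0 : (0 : ℝ) < (K : ℝ) + 2 := by positivity
  let J : ℝ → Finset ℕ := fun b => (Finset.range (K + 2)).filter (fun j : ℕ =>
    ((K : ℝ) + 2) * T n ⌊b + L⌋₊ ≤ (j : ℝ) + 1 ∧ (j : ℝ) + 2 ≤ ((K : ℝ) + 2) * T n (⌈b⌉₊ - 1))
  have hdiff : ∀ b ∈ F, Pr n (brE n b L) ≤ T n (⌈b⌉₊ - 1) - T n ⌊b + L⌋₊ := by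
    intro b hb
    have := br_diff n hn b L (hδ.trans_le (hP b hb))
    linarith
  have hJcard : ∀ b ∈ F, ((K : ℝ) + 2) * Pr n (brE n b L) - 4 ≤ ((J b).card : ℝ) := by
    intro b hb
    have h1 := count_int (K + 2) (((K : ℝ) + 2) * T n ⌊b + L⌋₊) (((K : ℝ) + 2) * T n (⌈b⌉₊ - 1))
      (mul_nonneg hK0.le (T_nonneg _ _)) (by
        push_cast
        have := T_le_one n (⌈b⌉₊ - 1)
        nlinarith)
    have h2 := hdiff b hb
    have h3 : ((K : ℝ) + 2) * Pr n (brE n b L)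
        ≤ ((K : ℝ) + 2) * T n (⌈b⌉₊ - 1) - ((K : ℝ) + 2) * T n ⌊b + L⌋₊ := by
      rw [← mul_sub]
      exact mul_le_mul_of_nonneg_left h2 hK0.le
    calc ((K : ℝ) + 2) * Pr n (brE n b L) - 4 ≤ _ := by linarith
      _ ≤ ((J b).card : ℝ) := h1
  have hdisj : (F : Set ℝ).PairwiseDisjoint J := by
    intro b hb b' hb' hne
    have key : ∀ b ∈ F, ∀ b' ∈ F, b < b' → Disjoint (J b) (J b') := by
      intro b hb b' hb' hlt
      have h1 := hF b hb b' hb' hlt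
      rw [Finset.disjoint_left]
      intro j hj hj'
      rw [Finset.mem_filter] at hj hj'
      have h2 : ⌊b + L⌋₊ ≤ ⌈b'⌉₊ - 1 ∨ b' ≤ 0 := by
        rcases le_or_gt b' 0 with h | h
        · right; exact h
        · left
          have h3 : ⌊b + L⌋₊ < ⌈b'⌉₊ := by
            rw [Nat.lt_ceil]
            rcases le_or_gt 0 (b + L) with h4 | h4
            · exact (Nat.floor_le h4).trans_lt h1
            · rw [Nat.floor_of_nonpos h4.le]
              exact_mod_cast h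
          omega
      rcases h2 with h2 | h2
      · have h3 := T_anti n _ _ h2
        have h4 : ((K : ℝ) + 2) * T n (⌈b'⌉₊ - 1) ≤ ((K : ℝ) + 2) * T n ⌊b + L⌋₊ :=
          mul_le_mul_of_nonneg_left h3 hK0.le
        linarith [hj.2.1, hj'.2.2]
      · have h3 : b + L < 0 := by linarith
        have h4 : Pr n (brE n b L) = 0 := by
          unfold Pr
          have : IsEmpty {G : SimpleGraph (Fin n) // brE n b L G} := ⟨fun G => by
            have h5 : (0 : ℝ) ≤ (G.1.chromaticNumber.toNat : ℝ) := Nat.cast_nonneg _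
            have h6 := G.2.2
            linarith⟩
          rw [Nat.card_of_isEmpty]
          simp
        have := hP b hb
        linarith
    rcases lt_or_gt_of_ne hne with h | h
    · exact key b hb b' hb' h
    · exact (key b' hb' b hb h).symm
  have hsub : F.biUnion J ⊆ (Finset.range K).filter (fun j : ℕ =>
          Bad (((j : ℝ) + 2) / (K + 2)) (((j : ℝ) + 1) / (K + 2)) c n) ∪ {K} := by
    intro j hj
    rw [Finset.mem_biUnion] at hj
    obtain ⟨b, hb, hj⟩ := hj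
    rw [Finset.mem_filter, Finset.mem_range] at hj
    obtain ⟨hjK, hj1, hj2⟩ := hj
    have h1 := T_le_one n (⌈b⌉₊ - 1)
    have h2 : (j : ℝ) + 2 ≤ (K : ℝ) + 2 := by nlinarith
    have h3 : j ≤ K := by
      have : (j : ℝ) ≤ K := by linarith
      exact_mod_cast this
    rcases Nat.lt_or_ge j K with h4 | h4
    · refine Finset.mem_union_left _ (Finset.mem_filter.mpr ⟨Finset.mem_range.mpr h4, ?_⟩)
      refine ⟨⌈b⌉₊ - 1, ⌊b + L⌋₊, ?_, ?_, ?_⟩
      · rw [div_le_iff₀ hK0]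
        linarith
      · rw [le_div_iff₀ hK0]
        linarith
      · rw [← hL]
        exact br_len_le b L hL0
    · refine Finset.mem_union_right _ ?_
      rw [Finset.mem_singleton]
      omega
  have hcardU : ((F.biUnion J).card : ℝ) ≤ (((Finset.range K).filter (fun j : ℕ =>
          Bad (((j : ℝ) + 2) / (K + 2)) (((j : ℝ) + 1) / (K + 2)) c n)).card : ℝ) + 1 := by
    have h1 := (Finset.card_le_card hsub).trans (Finset.card_union_le _ _)
    rw [Finset.card_singleton] at h1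
    exact_mod_cast h1
  rw [Finset.card_biUnion hdisj] at hcardU
  push_cast at hcardU
  have hsum := Finset.sum_le_sum hJcard
  rw [Finset.sum_sub_distrib, ← Finset.mul_sum, Finset.sum_const, nsmul_eq_mul] at hsum
  obtain ⟨Z, hZ⟩ : ∃ Z : ℝ, Z = ∑ b ∈ F, Pr n (brE n b L) := ⟨_, rfl⟩
  obtain ⟨B, hB⟩ : ∃ B : ℝ, B = (((Finset.range K).filter (fun j : ℕ =>
          Bad (((j : ℝ) + 2) / (K + 2)) (((j : ℝ) + 1) / (K + 2)) c n)).card : ℝ) := ⟨_, rfl⟩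
  rw [← hZ] at hsum ⊢
  rw [← hB] at hcardU ⊢
  have hBK : B ≤ K := by
    rw [hB]
    have : ((Finset.range K).filter (fun j : ℕ =>
          Bad (((j : ℝ) + 2) / (K + 2)) (((j : ℝ) + 1) / (K + 2)) c n)).card ≤ K := by
      simpa using Finset.card_filter_le (Finset.range K) (fun j : ℕ =>
          Bad (((j : ℝ) + 2) / (K + 2)) (((j : ℝ) + 1) / (K + 2)) c n)
    exact_mod_cast this
  have hFZ : (F.card : ℝ) * δ ≤ Z := by
    rw [hZ, ← nsmul_eq_mul, ← Finset.sum_const]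
    exact Finset.sum_le_sum hP
  have h1 : ((K : ℝ) + 2) * Z - (F.card : ℝ) * 4 ≤ B + 1 := hsum.trans hcardU
  have hFc : (F.card : ℝ) ≤ 2 / δ := by
    rw [le_div_iff₀ hδ]
    have h2 : ((K : ℝ) + 2) * ((F.card : ℝ) * δ) ≤ ((K : ℝ) + 2) * Z :=
      mul_le_mul_of_nonneg_left hFZ hK0.le
    have h3 : (F.card : ℝ) * 8 ≤ (F.card : ℝ) * (δ * ((K : ℝ) + 2)) :=
      mul_le_mul_of_nonneg_left hKδ (Nat.cast_nonneg _)
    have h4 : ((K : ℝ) + 2) * ((F.card : ℝ) * δ) ≤ 2 * ((K : ℝ) + 2) := by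
      have : ((K : ℝ) + 2) * ((F.card : ℝ) * δ) = (F.card : ℝ) * (δ * ((K : ℝ) + 2)) := by ring
      linarith
    nlinarith
  rw [← add_div, le_div_iff₀ hK0]
  have h5 : (F.card : ℝ) * 4 ≤ 8 / δ := by
    have : 8 / δ = 2 / δ * 4 := by ring
    rw [this]
    gcongr
  linarith

open Classical in
/-- **diffuse mass theorem** -/
theorem diffuse (δ ε κ : ℝ) (hδ : 0 < δ) (hε : 0 < ε) (hκ : 0 < κ) :
    ∃ c : ℝ, 0 < c ∧ ∀ᶠ N : ℕ in atTop, ∀ F : ℕ → Finset ℝ,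
      (∀ n ∈ Finset.Ioc N ⌊(1 + κ) * (N : ℝ)⌋₊, ∀ b ∈ F n,
        (∀ b' ∈ F n, b < b' → b + c * Real.sqrt (mu n (al n)) / Real.log n < b') ∧
        δ ≤ Pr n (brE n b (c * Real.sqrt (mu n (al n)) / Real.log n))) →
      ∑ n ∈ Finset.Ioc N ⌊(1 + κ) * (N : ℝ)⌋₊, ∑ b ∈ F n,
          Pr n (brE n b (c * Real.sqrt (mu n (al n)) / Real.log n))
        ≤ ∑ n ∈ Finset.Ioc N ⌊(1 + κ) * (N : ℝ)⌋₊, Int.fract (al0 n) + ε * N := by
  obtain ⟨K, hKa⟩ : ∃ K : ℕ, max (8 / δ) (2 * (1 + κ) * (1 + 8 / δ) / ε) + 1 ≤ K :=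
    exists_nat_ge _
  have hK1 : 8 / δ ≤ K := by
    have := le_max_left (8 / δ) (2 * (1 + κ) * (1 + 8 / δ) / ε)
    linarith
  have hK2 : 2 * (1 + κ) * (1 + 8 / δ) / ε ≤ K := by
    have := le_max_right (8 / δ) (2 * (1 + κ) * (1 + 8 / δ) / ε)
    linarith
  have hK3 : 1 ≤ K := by
    have h1 : 0 < 8 / δ := by positivity
    have h2 : (0 : ℝ) < K := by linarith
    exact_mod_cast h2
  have hK0 : (0 : ℝ) < (K : ℝ) + 2 := by positivity
  have hKδ : 8 ≤ δ * ((K : ℝ) + 2) := by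
    rw [div_le_iff₀ hδ] at hK1
    linarith
  obtain ⟨c, hc, h⟩ := local_family (fun j => ((j : ℝ) + 2) / (K + 2))
    (fun j => ((j : ℝ) + 1) / (K + 2)) (ε / 2) κ (by linarith) hκ K (by
      intro j hj
      have hj' : (j : ℝ) + 1 ≤ K := by exact_mod_cast hj
      refine ⟨by positivity, ?_, ?_⟩
      · rw [div_lt_div_iff_of_pos_right hK0]
        linarith
      · rw [div_lt_one hK0]
        linarith)
  refine ⟨c, hc, ?_⟩
  filter_upwards [h, eventually_ge_atTop 1] with N hN hN1 F hF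
  obtain ⟨S, hS⟩ : ∃ S : Finset ℕ, S = Finset.Ioc N ⌊(1 + κ) * (N : ℝ)⌋₊ := ⟨_, rfl⟩
  rw [← hS] at hN hF ⊢
  have hN0 : (0 : ℝ) < N := by exact_mod_cast hN1
  have hpos : ∀ n ∈ S, 1 ≤ n := by
    intro n hn
    rw [hS, Finset.mem_Ioc] at hn
    omega
  have hScard : (S.card : ℝ) ≤ (1 + κ) * N := by
    rw [hS, Nat.card_Ioc]
    have h1 : ((⌊(1 + κ) * (N : ℝ)⌋₊ - N : ℕ) : ℝ) ≤ (⌊(1 + κ) * (N : ℝ)⌋₊ : ℝ) := by
      exact_mod_cast Nat.sub_le _ _
    exact h1.trans (Nat.floor_le (by positivity))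
  have hstep : ∀ n ∈ S, ∑ b ∈ F n, Pr n (brE n b (c * Real.sqrt (mu n (al n)) / Real.log n))
      ≤ (((Finset.range K).filter (fun j : ℕ =>
          Bad (((j : ℝ) + 2) / (K + 2)) (((j : ℝ) + 1) / (K + 2)) c n)).card : ℝ) / (K + 2)
        + (1 + 8 / δ) / (K + 2) := by
    intro n hn
    exact mass_le n (hpos n hn) c δ hc.le hδ K hK3 hKδ (F n)
      (fun b hb b' hb' hlt => (hF n hn b hb).1 b' hb' hlt) (fun b hb => (hF n hn b hb).2)
  refine (Finset.sum_le_sum hstep).trans ?_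
  rw [Finset.sum_add_distrib, ← Finset.sum_div, Finset.sum_const, nsmul_eq_mul]
  have hswap : ∑ n ∈ S, (((Finset.range K).filter (fun j : ℕ =>
          Bad (((j : ℝ) + 2) / (K + 2)) (((j : ℝ) + 1) / (K + 2)) c n)).card : ℝ)
      = ∑ j ∈ Finset.range K, ((S.filter (fun n : ℕ =>
          Bad (((j : ℝ) + 2) / (K + 2)) (((j : ℝ) + 1) / (K + 2)) c n)).card : ℝ) := by
    have h1 : ∀ n : ℕ, (((Finset.range K).filter (fun j : ℕ =>
          Bad (((j : ℝ) + 2) / (K + 2)) (((j : ℝ) + 1) / (K + 2)) c n)).card : ℝ)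
        = ∑ j ∈ Finset.range K, if Bad (((j : ℝ) + 2) / (K + 2)) (((j : ℝ) + 1) / (K + 2)) c n
            then (1 : ℝ) else 0 := by
      intro n
      rw [Finset.sum_boole]
    have h2 : ∀ j : ℕ, ((S.filter (fun n : ℕ =>
          Bad (((j : ℝ) + 2) / (K + 2)) (((j : ℝ) + 1) / (K + 2)) c n)).card : ℝ)
        = ∑ n ∈ S, if Bad (((j : ℝ) + 2) / (K + 2)) (((j : ℝ) + 1) / (K + 2)) c n
            then (1 : ℝ) else 0 := by
      intro j
      rw [Finset.sum_boole]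
    rw [Finset.sum_congr rfl (fun n _ => h1 n), Finset.sum_congr rfl (fun j _ => h2 j),
      Finset.sum_comm]
  rw [hswap]
  obtain ⟨Φ, hΦ⟩ : ∃ Φ : ℝ, Φ = ∑ n ∈ S, Int.fract (al0 n) := ⟨_, rfl⟩
  rw [← hΦ] at hN ⊢
  have hΦ0 : 0 ≤ Φ := hΦ ▸ Finset.sum_nonneg (fun n _ => Int.fract_nonneg _)
  have hsum : ∑ j ∈ Finset.range K, ((S.filter (fun n : ℕ =>
          Bad (((j : ℝ) + 2) / (K + 2)) (((j : ℝ) + 1) / (K + 2)) c n)).card : ℝ)
      ≤ K * (Φ + ε / 2 * N) := by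
    refine (Finset.sum_le_sum (fun j hj => hN j (Finset.mem_range.mp hj))).trans ?_
    rw [Finset.sum_const, Finset.card_range, nsmul_eq_mul]
  have h1 : (∑ j ∈ Finset.range K, ((S.filter (fun n : ℕ =>
          Bad (((j : ℝ) + 2) / (K + 2)) (((j : ℝ) + 1) / (K + 2)) c n)).card : ℝ)) / ((K : ℝ) + 2)
      ≤ Φ + ε / 2 * N := by
    rw [div_le_iff₀ hK0]
    refine hsum.trans ?_
    have : 0 ≤ Φ + ε / 2 * N := by positivity
    nlinarith
  have h2 : (S.card : ℝ) * ((1 + 8 / δ) / ((K : ℝ) + 2)) ≤ ε / 2 * N := by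
    have h3 : (S.card : ℝ) * ((1 + 8 / δ) / ((K : ℝ) + 2))
        ≤ (1 + κ) * N * ((1 + 8 / δ) / ((K : ℝ) + 2)) := by gcongr
    refine h3.trans ?_
    rw [mul_div_assoc', div_le_iff₀ hK0]
    rw [div_le_iff₀ hε] at hK2
    have h4 : 2 * (1 + κ) * (1 + 8 / δ) ≤ ((K : ℝ) + 2) * ε := by nlinarith
    nlinarith
  linarith

end ZS51
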