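import Pool.Agent.ZS51.Many

/-!
# ZS51/Exact: the conjectured exponent near every `N` with `1/2 < ρ(N) < 1` (helper51)
-/

set_option autoImplicit false

open Filter Topology ZZ51

namespace ZS51

/-- if `ρ(n) ≥ 1/2` then `√μ_α = n^λ` -/
theorem sqrt_mu_eq (n : ℕ) (hn : 2 ≤ n) (hmu : 0 < mu n (al n)) (hr : 1 / 2 ≤ rho n) :
    Real.sqrt (mu n (al n)) = (n : ℝ) ^ (lam n) := by
  have hn1 : (1 : ℝ) < n := by exact_mod_cast (by omega : 1 < n)
  have hn0 : (0 : ℝ) < n := by linarith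
  have hlog : 0 < Real.log n := Real.log_pos hn1
  have hlam : lam n = rho n / 2 := by
    unfold lam
    rw [max_eq_left]
    linarith
  rw [hlam, Real.sqrt_eq_rpow]
  have h6 : mu n (al n) = (n : ℝ) ^ rho n := by
    rw [Real.rpow_def_of_pos hn0, rho, mul_div_cancel₀ _ hlog.ne', Real.exp_log hmu]
  rw [div_eq_mul_one_div (rho n) 2, Real.rpow_mul hn0.le, ← h6]

open Classical in
theorem exact_local (δ ε : ℝ) (hδ : 0 < δ) (hε : 0 < ε) :
    ∃ κ₀ : ℝ, 0 < κ₀ ∧ ∀ κ : ℝ, 0 < κ → κ ≤ κ₀ → ∃ c : ℝ, 0 < c ∧ ∀ᶠ N : ℕ in atTop,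
      1 / 2 + ε ≤ rho N → rho N ≤ 1 - ε →
      (1 - rho N - ε) * (κ * N)
        ≤ (((Finset.Ioc N ⌊(1 + κ) * (N : ℝ)⌋₊).filter (fun n : ℕ => 1 / 2 < rho n ∧
            NonConc n (c * (n : ℝ) ^ (lam n) / Real.log n) (1 / 2 + δ))).card : ℝ) := by
  have hl2 := Real.log_pos (show (1 : ℝ) < 2 by norm_num)
  refine ⟨min 1 (ε * Real.log 2 / 16), lt_min one_pos (by positivity), ?_⟩
  intro κ hκ hκ0
  have hκ1 : κ ≤ 1 := hκ0.trans (min_le_left _ _)
  have hκ2 : κ ≤ ε * Real.log 2 / 16 := hκ0.trans (min_le_right _ _)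
  obtain ⟨c, hc, h⟩ := local_many 1 le_rfl δ (κ * ε / 4) κ hδ (by positivity) hκ
  refine ⟨c, hc, ?_⟩
  have hbig1 : ∀ᶠ N : ℕ in atTop, (4 / (κ * ε) : ℝ) ≤ N :=
    tendsto_natCast_atTop_atTop.eventually_ge_atTop _
  have hbig2 : ∀ᶠ N : ℕ in atTop, (1 / ε : ℝ) ≤ Real.log (N : ℝ) :=
    (Real.tendsto_log_atTop.comp tendsto_natCast_atTop_atTop).eventually_ge_atTop _
  filter_upwards [h, mu_lower (ε / 8) (by linarith), al0_tendsto.eventually_ge_atTop 0,
    eventually_ge_atTop 3, hbig1, hbig2] with N hN hmuN h0 hN3 hb1 hb2 hr1 hr2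
  have hN1 : (1 : ℝ) < N := by exact_mod_cast (by omega : 1 < N)
  have hN0 : (0 : ℝ) < N := by linarith
  have hlogN : 0 < Real.log N := Real.log_pos hN1
  have hal := al_eq N h0
  have hfr0 := Int.fract_nonneg (al0 N)
  have hfr1 := Int.fract_lt_one (al0 N)
  obtain ⟨φ, hφ⟩ : ∃ φ : ℝ, φ = Int.fract (al0 N) := ⟨_, rfl⟩
  rw [← hφ] at hal hfr0 hfr1
  -- `μ > 0` and `φ ≤ ρ + ε/8`
  have hmu1 : (N : ℝ) ^ (al0 N - al N - ε / 8) ≤ mu N (al N) :=
    hmuN (al N) (by rw [hal]; linarith) (by rw [hal]; linarith)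
  have hpos : 0 < (N : ℝ) ^ (al0 N - al N - ε / 8) := Real.rpow_pos_of_pos hN0 _
  have hmupos : 0 < mu N (al N) := hpos.trans_le hmu1
  have hmuN' : mu N (al N) = (N : ℝ) ^ rho N := by
    rw [Real.rpow_def_of_pos hN0, rho, mul_div_cancel₀ _ hlogN.ne', Real.exp_log hmupos]
  have hφρ : φ ≤ rho N + ε / 8 := by
    rw [hmuN'] at hmu1
    have h1 := (Real.rpow_le_rpow_left_iff hN1).mp hmu1
    have h2 : al0 N - al N = φ := by rw [hal]; ring
    rw [h2] at h1
    linarith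
  -- facts for `n` in the window
  have hwin : ∀ n ∈ Finset.Ioc N ⌊(1 + κ) * (N : ℝ)⌋₊,
      al n = al N ∧ Int.fract (al0 n) ≤ φ + ε / 8 ∧ (N : ℝ) < n ∧ (n : ℝ) ≤ (1 + κ) * N := by
    intro n hn
    rw [Finset.mem_Ioc] at hn
    have hn1 : (N : ℝ) < n := by exact_mod_cast hn.1
    have hn2 : (n : ℝ) ≤ (1 + κ) * N :=
      (Nat.cast_le.mpr hn.2).trans (Nat.floor_le (by positivity))
    have hmono := al0_mono N n hN3 hn.1.le
    have hdiff := al0_diff_le N n (by omega) hn.1.le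
    have hlogb : Real.logb 2 ((n : ℝ) / N) ≤ κ / Real.log 2 := by
      rw [Real.logb]
      have h1 : Real.log ((n : ℝ) / N) ≤ κ := by
        have h2 : (n : ℝ) / N ≤ 1 + κ := by
          rw [div_le_iff₀ hN0]
          exact hn2
        have h3 : Real.log ((n : ℝ) / N) ≤ Real.log (1 + κ) :=
          Real.log_le_log (div_pos (by linarith) hN0) h2
        have h4 : Real.log (1 + κ) ≤ (1 + κ) - 1 := Real.log_le_sub_one_of_pos (by linarith)
        linarith
      gcongr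
    have hsmall : 2 * (κ / Real.log 2) ≤ ε / 8 := by
      have : κ / Real.log 2 ≤ ε / 16 := by
        rw [div_le_iff₀ hl2]
        linarith
      linarith
    have hd : al0 n - al0 N ≤ ε / 8 := by linarith
    have hεφ : φ + ε / 8 < 1 := by linarith
    have hfl : ⌊al0 n⌋ = ⌊al0 N⌋ := by
      rw [Int.floor_eq_iff]
      have h1 : (⌊al0 N⌋ : ℝ) = al0 N - φ := by
        rw [hφ]
        have := Int.fract_add_floor (al0 N)
        linarith
      rw [h1]
      constructor <;> linarith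
    refine ⟨?_, ?_, hn1, hn2⟩
    · unfold al
      rw [← Int.floor_toNat, ← Int.floor_toNat, hfl]
    · have h1 : Int.fract (al0 n) = al0 n - ⌊al0 n⌋ := rfl
      rw [h1, hfl]
      have h2 : (⌊al0 N⌋ : ℝ) = al0 N - φ := by
        rw [hφ]
        have := Int.fract_add_floor (al0 N)
        linarith
      rw [h2]
      linarith
  -- the filter sets agree
  have hsub : (Finset.Ioc N ⌊(1 + κ) * (N : ℝ)⌋₊).filter (fun n : ℕ =>
            NonConc n (c * Real.sqrt (mu n (al n)) / Real.log n) (1 / (((1 : ℕ) : ℝ) + 1) + δ))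
      ⊆ (Finset.Ioc N ⌊(1 + κ) * (N : ℝ)⌋₊).filter (fun n : ℕ => 1 / 2 < rho n ∧
            NonConc n (c * (n : ℝ) ^ (lam n) / Real.log n) (1 / 2 + δ)) := by
    intro n hn
    rw [Finset.mem_filter] at hn ⊢
    obtain ⟨hn1, hn2⟩ := hn
    obtain ⟨ha, hb, hc1, hd1⟩ := hwin n hn1
    have hnn : 2 ≤ n := by
      have : N < n := by exact_mod_cast hc1
      omega
    have hnpos : (0 : ℝ) < n := by linarith
    have hlogn : 0 < Real.log n := Real.log_pos (by linarith)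
    have hmun : mu N (al N) ≤ mu n (al n) := by
      rw [ha]
      exact mu_mono N n (al N) (by exact_mod_cast hc1.le)
    have hmunpos : 0 < mu n (al n) := hmupos.trans_le hmun
    have hrn : 1 / 2 < rho n := by
      unfold rho
      rw [lt_div_iff₀ hlogn]
      have h1 : Real.log (mu N (al N)) ≤ Real.log (mu n (al n)) := Real.log_le_log hmupos hmun
      have h2 : Real.log (mu N (al N)) = rho N * Real.log N := by
        unfold rho
        field_simp
      have h3 : Real.log n ≤ Real.log N + κ := by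
        have h4 : Real.log n ≤ Real.log ((1 + κ) * N) := Real.log_le_log hnpos hd1
        rw [Real.log_mul (by linarith) hN0.ne'] at h4
        have h5 : Real.log (1 + κ) ≤ (1 + κ) - 1 := Real.log_le_sub_one_of_pos (by linarith)
        linarith
      have h6 : 1 ≤ ε * Real.log N := by
        rw [div_le_iff₀ hε] at hb2
        linarith
      have h7 : (1 / 2 + ε) * Real.log N ≤ rho N * Real.log N := by gcongr
      nlinarith
    refine ⟨hn1, hrn, ?_⟩
    rw [← sqrt_mu_eq n hnn hmunpos hrn.le]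
    refine hn2.mono ?_
    norm_num
  have hcard : ((((Finset.Ioc N ⌊(1 + κ) * (N : ℝ)⌋₊).filter (fun n : ℕ =>
            NonConc n (c * Real.sqrt (mu n (al n)) / Real.log n)
              (1 / (((1 : ℕ) : ℝ) + 1) + δ))).card : ℕ) : ℝ)
      ≤ (((Finset.Ioc N ⌊(1 + κ) * (N : ℝ)⌋₊).filter (fun n : ℕ => 1 / 2 < rho n ∧
            NonConc n (c * (n : ℝ) ^ (lam n) / Real.log n) (1 / 2 + δ))).card : ℝ) := by
    exact_mod_cast Finset.card_le_card hsub
  refine le_trans ?_ (hN.trans hcard)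
  have hsum : ((Finset.Ioc N ⌊(1 + κ) * (N : ℝ)⌋₊).card : ℝ) * (1 - rho N - ε / 4)
      ≤ ∑ n ∈ Finset.Ioc N ⌊(1 + κ) * (N : ℝ)⌋₊, (1 - ((1 : ℕ) : ℝ) * Int.fract (al0 n)) := by
    rw [← nsmul_eq_mul, ← Finset.sum_const]
    refine Finset.sum_le_sum (fun n hn => ?_)
    have := (hwin n hn).2.1
    push_cast
    linarith
  have hc2 : κ * N - 1 ≤ ((Finset.Ioc N ⌊(1 + κ) * (N : ℝ)⌋₊).card : ℝ) := by
    rw [Nat.card_Ioc]
    have h1 : (1 + κ) * (N : ℝ) < ⌊(1 + κ) * (N : ℝ)⌋₊ + 1 := Nat.lt_floor_add_one _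
    have h2 : N ≤ ⌊(1 + κ) * (N : ℝ)⌋₊ := Nat.le_floor (by nlinarith)
    rw [Nat.cast_sub h2]
    linarith
  have h3 : 0 ≤ 1 - rho N - ε / 4 := by linarith
  have h4 : (κ * N - 1) * (1 - rho N - ε / 4)
      ≤ ((Finset.Ioc N ⌊(1 + κ) * (N : ℝ)⌋₊).card : ℝ) * (1 - rho N - ε / 4) := by gcongr
  have h5 : 4 ≤ κ * ε * N := by
    rw [div_le_iff₀ (by positivity)] at hb1
    linarith
  have h6 : 1 - rho N - ε / 4 ≤ 1 := by linarith
  nlinarith

end ZS51
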