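import Pool.Agent.ZS51.CountB

/-!
# ZS51/Large: decomposition along the large cells

PROOF of `large_decomp`. Fix `f ∈ Om0 s`, so rows `f⁻¹(i)` and columns `g⁻¹(j)`, `g ∈ Om0 s`, have at most `b` elements, and
`b < 2(θ+1)`: each row and each column has at most one cell with more than `θ` elements. For `g ∈ Om0 s` let
`ψ_g i = some (j, f⁻¹(i) ∩ g⁻¹(j))` if `cell univ f g i j > θ` (the unique such `j`), `none` if there is no such `j`;
`ψ_g ∈ Fintype.piFinset (Opt f θ)`.  Fibre over `ψ`: put `D = ⋃ A_i`, `h v = j_{f v}` on `D` (`ψ i = some (j_i, A_i)`).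
For `g` with `ψ_g = ψ`: `g ∈ Om s D h`, all cells of `Dᶜ` are `≤ θ`, the `j_i` are distinct, and
`ov univ f g = ∑_i C(|A_i|,2) + ov Dᶜ f g` (a cell `(i,j)` is either one of the `A_i` or lies in `Dᶜ`). So the fibre
contributes at most `2^{∑ C(|A_i|,2)} M |Om s D h|`, and by `om_desc`
`|Om s D h| = |Om0 s| ∏_j (s j).descFactorial (cnt D h j) / n.descFactorial |D|`, where `cnt D h j = |A_i|` if `j = j_i` and
`0` otherwise, `|D| = ∑ |A_i| ≤ n` (disjoint).  So the fibre contributes at most `|Om0 s| M ∏_i wt s (ψ i)/n.descFactorial (∑ mass)`.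
Sum over all `ψ` (the terms of `LS` are nonnegative).
-/

set_option autoImplicit false

namespace ZS51

variable {n k : ℕ}

open Classical in
/-- the large cells of `g` -/
private noncomputable def psi (f g : Fin n → Fin k) (θ : ℕ) (i : Fin k) :
    Option (Fin k × Finset (Fin n)) :=
  if h : ∃ j, θ < cell Finset.univ f g i j then
    some (h.choose, Finset.univ.filter (fun v => f v = i ∧ g v = h.choose)) else none

/-- the specification of `psi` -/
private def Sp (f g : Fin n → Fin k) (θ : ℕ) (ψ : Fin k → Option (Fin k × Finset (Fin n))) : Prop :=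
  (∀ i p, ψ i = some p → p.2 = Finset.univ.filter (fun v => f v = i ∧ g v = p.1) ∧ θ < p.2.card) ∧
  ∀ i, ψ i = none → ∀ j, cell Finset.univ f g i j ≤ θ

private theorem psi_sp (f g : Fin n → Fin k) (θ : ℕ) : Sp f g θ (psi f g θ) := by
  refine ⟨fun i p hp => ?_, fun i hi j => ?_⟩
  · unfold psi at hp
    by_cases h : ∃ j, θ < cell Finset.univ f g i j
    · rw [dif_pos h] at hp
      have h2 := Option.some.inj hp
      rw [← h2]
      exact ⟨rfl, h.choose_spec⟩
    · rw [dif_neg h] at hp
      exact absurd hp (by simp)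
  · unfold psi at hi
    by_cases h : ∃ j, θ < cell Finset.univ f g i j
    · rw [dif_pos h] at hi
      exact absurd hi (by simp)
    · push Not at h
      exact h j

private theorem row_uniq {s : Fin k → ℕ} {b θ : ℕ} (hb : b < 2 * (θ + 1)) (hsb : ∀ j, s j ≤ b)
    {f g : Fin n → Fin k} (hf : f ∈ Om0 (n := n) s) {i j j' : Fin k}
    (h1 : θ < cell Finset.univ f g i j) (h2 : θ < cell Finset.univ f g i j') : j = j' := by
  by_contra hne
  have h3 : cell Finset.univ f g i j + cell Finset.univ f g i j' ≤ s i := by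
    have h4 : cnt Finset.univ f i = s i := (Finset.mem_filter.1 hf).2 i
    rw [← h4]
    unfold cell cnt
    rw [← Finset.card_union_of_disjoint]
    · apply Finset.card_le_card
      intro v hv
      rcases Finset.mem_union.1 hv with hv | hv
      · rw [Finset.mem_filter] at hv ⊢
        exact ⟨hv.1, hv.2.1⟩
      · rw [Finset.mem_filter] at hv ⊢
        exact ⟨hv.1, hv.2.1⟩
    · rw [Finset.disjoint_left]
      intro v hv hv'
      rw [Finset.mem_filter] at hv hv'
      exact hne (hv.2.2.symm.trans hv'.2.2)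
  have := hsb i
  omega

private theorem col_uniq {s : Fin k → ℕ} {b θ : ℕ} (hb : b < 2 * (θ + 1)) (hsb : ∀ j, s j ≤ b)
    {f g : Fin n → Fin k} (hg : g ∈ Om0 (n := n) s) {i i' j : Fin k}
    (h1 : θ < cell Finset.univ f g i j) (h2 : θ < cell Finset.univ f g i' j) : i = i' := by
  by_contra hne
  have h3 : cell Finset.univ f g i j + cell Finset.univ f g i' j ≤ s j := by
    have h4 : cnt Finset.univ g j = s j := (Finset.mem_filter.1 hg).2 j
    rw [← h4]
    unfold cell cnt
    rw [← Finset.card_union_of_disjoint]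
    · apply Finset.card_le_card
      intro v hv
      rcases Finset.mem_union.1 hv with hv | hv
      · rw [Finset.mem_filter] at hv ⊢
        exact ⟨hv.1, hv.2.2⟩
      · rw [Finset.mem_filter] at hv ⊢
        exact ⟨hv.1, hv.2.2⟩
    · rw [Finset.disjoint_left]
      intro v hv hv'
      rw [Finset.mem_filter] at hv hv'
      exact hne (hv.2.1.symm.trans hv'.2.1)
  have := hsb j
  omega

open Classical in
/-- the union of the large cells -/
private noncomputable def DD (f : Fin n → Fin k) (ψ : Fin k → Option (Fin k × Finset (Fin n))) :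
    Finset (Fin n) :=
  Finset.univ.filter (fun v => ∃ p, ψ (f v) = some p ∧ v ∈ p.2)

private theorem mem_DD {f : Fin n → Fin k} {ψ : Fin k → Option (Fin k × Finset (Fin n))} {v : Fin n} :
    v ∈ DD f ψ ↔ ∃ p, ψ (f v) = some p ∧ v ∈ p.2 := by
  classical
  unfold DD
  rw [Finset.mem_filter]
  exact ⟨fun h => h.2, fun h => ⟨Finset.mem_univ _, h⟩⟩

private theorem sp_val {f g : Fin n → Fin k} {θ : ℕ} {ψ : Fin k → Option (Fin k × Finset (Fin n))}
    (h : Sp f g θ ψ) {v : Fin n} {p : Fin k × Finset (Fin n)} (hp : ψ (f v) = some p) :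
    v ∈ p.2 ↔ g v = p.1 := by
  rw [(h.1 _ p hp).1, Finset.mem_filter]
  exact ⟨fun h => h.2.2, fun h => ⟨Finset.mem_univ _, rfl, h⟩⟩

private theorem sp_eq {f g g' : Fin n → Fin k} {θ : ℕ} {ψ : Fin k → Option (Fin k × Finset (Fin n))}
    (h : Sp f g θ ψ) (h' : Sp f g' θ ψ) {v : Fin n} (hv : v ∈ DD f ψ) : g v = g' v := by
  obtain ⟨p, hp, hvp⟩ := mem_DD.1 hv
  rw [(sp_val h hp).1 hvp, (sp_val h' hp).1 hvp]

private theorem sp_small {s : Fin k → ℕ} {b θ : ℕ} (hb : b < 2 * (θ + 1)) (hsb : ∀ j, s j ≤ b)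
    {f g : Fin n → Fin k} (hf : f ∈ Om0 (n := n) s) {ψ : Fin k → Option (Fin k × Finset (Fin n))}
    (h : Sp f g θ ψ) (i j : Fin k) : cell (DD f ψ)ᶜ f g i j ≤ θ := by
  by_contra hc
  push Not at hc
  have h1 : θ < cell Finset.univ f g i j := by
    refine hc.trans_le ?_
    unfold cell
    exact Finset.card_le_card (Finset.filter_subset_filter _ (Finset.subset_univ _))
  cases hψ : ψ i with
  | none => exact absurd (h.2 i hψ j) (by omega)
  | some p =>
    have h2 := h.1 i p hψ
    have h3 : θ < cell Finset.univ f g i p.1 := by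
      unfold cell
      rw [← h2.1]
      exact h2.2
    have h4 : j = p.1 := row_uniq hb hsb hf h1 h3
    have h5 : cell (DD f ψ)ᶜ f g i j = 0 := by
      unfold cell
      rw [Finset.card_eq_zero, Finset.filter_eq_empty_iff]
      rintro v hv ⟨h6, h7⟩
      rw [Finset.mem_compl] at hv
      apply hv
      rw [mem_DD]
      refine ⟨p, h6 ▸ hψ, ?_⟩
      rw [sp_val h (h6 ▸ hψ), h7, h4]
    omega

private theorem sp_ov {θ : ℕ} {f g : Fin n → Fin k} {ψ : Fin k → Option (Fin k × Finset (Fin n))}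
    (h : Sp f g θ ψ) :
    ov Finset.univ f g = (∑ i, (mass (ψ i)).choose 2) + ov (DD f ψ)ᶜ f g := by
  unfold ov
  rw [← Finset.sum_add_distrib]
  refine Finset.sum_congr rfl fun i _ => ?_
  cases hψ : ψ i with
  | none =>
    have h1 : (mass (none : Option (Fin k × Finset (Fin n)))).choose 2 = 0 := rfl
    rw [h1, zero_add]
    refine Finset.sum_congr rfl fun j _ => ?_
    congr 1
    unfold cell
    congr 1
    ext v
    simp only [Finset.mem_filter, Finset.mem_univ, true_and, Finset.mem_compl]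
    constructor
    · rintro ⟨h2, h3⟩
      refine ⟨fun h4 => ?_, h2, h3⟩
      obtain ⟨p, hp, -⟩ := mem_DD.1 h4
      rw [h2, hψ] at hp
      exact absurd hp (by simp)
    · rintro ⟨-, h2, h3⟩
      exact ⟨h2, h3⟩
  | some p =>
    have hm : mass (some p) = p.2.card := rfl
    rw [hm, ← Finset.add_sum_erase Finset.univ _ (Finset.mem_univ p.1),
      ← Finset.add_sum_erase Finset.univ (fun j => (cell (DD f ψ)ᶜ f g i j).choose 2) (Finset.mem_univ p.1)]
    have h1 : cell Finset.univ f g i p.1 = p.2.card := by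
      unfold cell
      rw [← (h.1 i p hψ).1]
    have h2 : cell (DD f ψ)ᶜ f g i p.1 = 0 := by
      unfold cell
      rw [Finset.card_eq_zero, Finset.filter_eq_empty_iff]
      rintro v hv ⟨h6, h7⟩
      rw [Finset.mem_compl] at hv
      apply hv
      rw [mem_DD]
      refine ⟨p, h6 ▸ hψ, ?_⟩
      rw [sp_val h (h6 ▸ hψ), h7]
    have h3 : ∑ j ∈ Finset.univ.erase p.1, (cell Finset.univ f g i j).choose 2 =
        ∑ j ∈ Finset.univ.erase p.1, (cell (DD f ψ)ᶜ f g i j).choose 2 := by
      refine Finset.sum_congr rfl fun j hj => ?_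
      have hjp := (Finset.mem_erase.1 hj).1
      congr 1
      unfold cell
      congr 1
      ext v
      simp only [Finset.mem_filter, Finset.mem_univ, true_and, Finset.mem_compl]
      constructor
      · rintro ⟨h2, h3⟩
        refine ⟨fun h4 => ?_, h2, h3⟩
        obtain ⟨q, hq, hvq⟩ := mem_DD.1 h4
        have h5 := (sp_val h hq).1 hvq
        rw [h2, hψ] at hq
        rw [← Option.some.inj hq] at h5
        exact hjp (h3.symm.trans h5)
      · rintro ⟨-, h2, h3⟩
        exact ⟨h2, h3⟩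
    rw [h3, h1, h2]
    simp

private theorem sp_card {f g : Fin n → Fin k} {θ : ℕ} {ψ : Fin k → Option (Fin k × Finset (Fin n))}
    (h : Sp f g θ ψ) : (DD f ψ).card = ∑ i, mass (ψ i) := by
  rw [Finset.card_eq_sum_card_fiberwise (f := f) (t := Finset.univ) (fun v _ => Finset.mem_univ _)]
  refine Finset.sum_congr rfl fun i _ => ?_
  cases hψ : ψ i with
  | none =>
    have h1 : mass (none : Option (Fin k × Finset (Fin n))) = 0 := rfl
    rw [h1, Finset.card_eq_zero, Finset.filter_eq_empty_iff]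
    intro v hv hfv
    obtain ⟨p, hp, -⟩ := mem_DD.1 hv
    rw [hfv, hψ] at hp
    exact absurd hp (by simp)
  | some p =>
    have hm : mass (some p) = p.2.card := rfl
    rw [hm]
    congr 1
    ext v
    rw [Finset.mem_filter]
    constructor
    · rintro ⟨hv, hfv⟩
      obtain ⟨q, hq, hvq⟩ := mem_DD.1 hv
      rw [hfv, hψ] at hq
      rw [Option.some.inj hq]
      exact hvq
    · intro hv
      have hfv : f v = i := by
        rw [(h.1 i p hψ).1, Finset.mem_filter] at hv
        exact hv.2.1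
      exact ⟨mem_DD.2 ⟨p, hfv ▸ hψ, hv⟩, hfv⟩

private theorem sp_prod {s : Fin k → ℕ} {b θ : ℕ} (hb : b < 2 * (θ + 1)) (hsb : ∀ j, s j ≤ b)
    {f g : Fin n → Fin k} (hg : g ∈ Om0 (n := n) s)
    {ψ : Fin k → Option (Fin k × Finset (Fin n))} (h : Sp f g θ ψ) :
    ((2 : ℝ) ^ (∑ i, (mass (ψ i)).choose 2)) * ((∏ j, (s j).descFactorial (cnt (DD f ψ) g j) : ℕ) : ℝ) =
      ∏ i, wt s (ψ i) := by
  classical
  have h1 : ∀ j, (s j).descFactorial (cnt (DD f ψ) g j) =
      ∏ i, (if (ψ i).map Prod.fst = some j then (s j).descFactorial (mass (ψ i)) else 1) := by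
    intro j
    by_cases hj : ∃ i, (ψ i).map Prod.fst = some j
    · obtain ⟨i, hi⟩ := hj
      obtain ⟨p, hp, hpj⟩ := Option.map_eq_some_iff.1 hi
      have hlarge : ∀ i' p', ψ i' = some p' → p'.1 = j → θ < cell Finset.univ f g i' j := by
        intro i' p' hp' hj'
        have h2 := h.1 i' p' hp'
        unfold cell
        rw [← hj', ← h2.1]
        exact h2.2
      have huniq : ∀ i' p', ψ i' = some p' → p'.1 = j → i' = i := fun i' p' hp' hj' =>
        col_uniq hb hsb hg (hlarge i' p' hp' hj') (hlarge i p hp hpj)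
      rw [Finset.prod_eq_single i]
      · rw [if_pos hi]
        congr 1
        rw [hp]
        change cnt (DD f ψ) g j = p.2.card
        unfold cnt
        congr 1
        ext v
        rw [Finset.mem_filter]
        constructor
        · rintro ⟨hv, hgv⟩
          obtain ⟨q, hq, hvq⟩ := mem_DD.1 hv
          have h3 := (sp_val h hq).1 hvq
          have h4 := huniq _ q hq (h3.symm.trans hgv)
          rw [h4, hp] at hq
          rw [Option.some.inj hq]
          exact hvq
        · intro hv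
          have h5 := hv
          rw [(h.1 i p hp).1, Finset.mem_filter] at h5
          exact ⟨mem_DD.2 ⟨p, h5.2.1 ▸ hp, hv⟩, h5.2.2.trans hpj⟩
      · intro i' _ hi'
        rw [if_neg]
        intro h6
        obtain ⟨p', hp', hpj'⟩ := Option.map_eq_some_iff.1 h6
        exact hi' (huniq i' p' hp' hpj')
      · intro h6
        exact absurd (Finset.mem_univ _) h6
    · push Not at hj
      rw [Finset.prod_eq_one (fun i _ => if_neg (hj i))]
      have h2 : cnt (DD f ψ) g j = 0 := by
        unfold cnt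
        rw [Finset.card_eq_zero, Finset.filter_eq_empty_iff]
        intro v hv hgv
        obtain ⟨q, hq, hvq⟩ := mem_DD.1 hv
        have h3 := (sp_val h hq).1 hvq
        apply hj (f v)
        rw [hq, Option.map_some, ← h3, hgv]
      rw [h2, Nat.descFactorial_zero]
  have h2 : (∏ j, (s j).descFactorial (cnt (DD f ψ) g j)) =
      ∏ i, ∏ j, (if (ψ i).map Prod.fst = some j then (s j).descFactorial (mass (ψ i)) else 1) := by
    rw [Finset.prod_congr rfl (fun j _ => h1 j), Finset.prod_comm]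
  rw [h2, ← Finset.prod_pow_eq_pow_sum, Nat.cast_prod, ← Finset.prod_mul_distrib]
  refine Finset.prod_congr rfl fun i _ => ?_
  cases hψ : ψ i with
  | none =>
    have h3 : mass (none : Option (Fin k × Finset (Fin n))) = 0 := rfl
    rw [h3]
    simp [wt]
  | some p =>
    have h3 : mass (some p) = p.2.card := rfl
    rw [h3]
    have h4 : (∏ j, (if (some p).map Prod.fst = some j then (s j).descFactorial p.2.card else 1)) =
        (s p.1).descFactorial p.2.card := by
      rw [Finset.prod_eq_single p.1]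
      · exact if_pos rfl
      · intro j _ hj
        rw [if_neg]
        intro h5
        rw [Option.map_some] at h5
        exact hj (Option.some.inj h5).symm
      · intro h6
        exact absurd (Finset.mem_univ _) h6
    rw [h4]
    rfl

theorem large_decomp (s : Fin k → ℕ) (hs : ∑ j, s j = n) (b θ : ℕ) (hb : b < 2 * (θ + 1))
    (hsb : ∀ j, s j ≤ b) (f : Fin n → Fin k) (hf : f ∈ Om0 (n := n) s) (M : ℝ) (hM : 0 ≤ M)
    (hmed : ∀ (D : Finset (Fin n)) (h : Fin n → Fin k),
      ∑ g ∈ (Om s D h).filter (fun g => ∀ i j, cell Dᶜ f g i j ≤ θ), (2 : ℝ) ^ (ov Dᶜ f g)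
        ≤ ((Om s D h).card : ℝ) * M) :
    ∑ g ∈ Om0 (n := n) s, (2 : ℝ) ^ (ov Finset.univ f g)
      ≤ ((Om0 (n := n) s).card : ℝ) * M * LS s f θ := by
  classical
  have hmaps : ∀ g ∈ Om0 (n := n) s, psi f g θ ∈ Fintype.piFinset (Opt f θ) := by
    intro g _
    rw [Fintype.mem_piFinset]
    intro i
    unfold Opt
    rw [Finset.mem_filter]
    refine ⟨Finset.mem_univ _, fun p hp => ?_⟩
    have h1 := (psi_sp f g θ).1 i p hp
    refine ⟨h1.2, ?_⟩
    intro v hv
    rw [h1.1, Finset.mem_filter] at hv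
    rw [Finset.mem_filter]
    exact ⟨hv.1, hv.2.1⟩
  rw [← Finset.sum_fiberwise_of_maps_to hmaps]
  unfold LS
  rw [Finset.mul_sum]
  refine Finset.sum_le_sum fun ψ _ => ?_
  by_cases hne : ((Om0 (n := n) s).filter (fun g => psi f g θ = ψ)).Nonempty
  · obtain ⟨g0, hg0⟩ := hne
    rw [Finset.mem_filter] at hg0
    have hsp0 : Sp f g0 θ ψ := hg0.2 ▸ psi_sp f g0 θ
    have h1 : ∀ g ∈ (Om0 (n := n) s).filter (fun g => psi f g θ = ψ),
        (2 : ℝ) ^ (ov Finset.univ f g) =
          (2 : ℝ) ^ (∑ i, (mass (ψ i)).choose 2) * (2 : ℝ) ^ (ov (DD f ψ)ᶜ f g) := by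
      intro g hg
      rw [Finset.mem_filter] at hg
      have hsp : Sp f g θ ψ := hg.2 ▸ psi_sp f g θ
      rw [← pow_add, ← sp_ov hsp]
    rw [Finset.sum_congr rfl h1, ← Finset.mul_sum]
    have h2 : ∑ g ∈ (Om0 (n := n) s).filter (fun g => psi f g θ = ψ), (2 : ℝ) ^ (ov (DD f ψ)ᶜ f g) ≤
        ((Om s (DD f ψ) g0).card : ℝ) * M := by
      refine le_trans (Finset.sum_le_sum_of_subset_of_nonneg ?_ (fun _ _ _ => by positivity))
        (hmed (DD f ψ) g0)
      intro g hg
      rw [Finset.mem_filter] at hg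
      have hsp : Sp f g θ ψ := hg.2 ▸ psi_sp f g θ
      rw [Finset.mem_filter]
      refine ⟨?_, fun i j => sp_small hb hsb hf hsp i j⟩
      unfold Om
      rw [Finset.mem_filter]
      exact ⟨hg.1, fun v hv => sp_eq hsp hsp0 hv⟩
    have h3 := om_desc s hs (DD f ψ) g0
    have h4 : ((Om s (DD f ψ) g0).card : ℝ) * (n.descFactorial (∑ i, mass (ψ i)) : ℝ) =
        ((Om0 (n := n) s).card : ℝ) * ((∏ j, (s j).descFactorial (cnt (DD f ψ) g0 j) : ℕ) : ℝ) := by
      rw [← sp_card hsp0]
      exact_mod_cast h3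
    have h5 : (0 : ℝ) < (n.descFactorial (∑ i, mass (ψ i)) : ℝ) := by
      have h6 : (DD f ψ).card ≤ n := by
        simpa using Finset.card_le_univ (DD f ψ)
      rw [← sp_card hsp0]
      exact_mod_cast Nat.descFactorial_pos.2 h6
    have h6 := sp_prod hb hsb hg0.1 hsp0
    have h7 : (2 : ℝ) ^ (∑ i, (mass (ψ i)).choose 2) * ((Om s (DD f ψ) g0).card : ℝ) =
        ((Om0 (n := n) s).card : ℝ) * ((∏ i, wt s (ψ i)) / (n.descFactorial (∑ i, mass (ψ i)) : ℝ)) := by
      rw [← h6, mul_div_assoc', eq_div_iff h5.ne', mul_assoc, h4]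
      ring
    calc (2 : ℝ) ^ (∑ i, (mass (ψ i)).choose 2) *
          ∑ g ∈ (Om0 (n := n) s).filter (fun g => psi f g θ = ψ), (2 : ℝ) ^ (ov (DD f ψ)ᶜ f g)
        ≤ (2 : ℝ) ^ (∑ i, (mass (ψ i)).choose 2) * (((Om s (DD f ψ) g0).card : ℝ) * M) :=
          mul_le_mul_of_nonneg_left h2 (by positivity)
      _ = ((2 : ℝ) ^ (∑ i, (mass (ψ i)).choose 2) * ((Om s (DD f ψ) g0).card : ℝ)) * M := by ring
      _ = ((Om0 (n := n) s).card : ℝ) * M *
          ((∏ i, wt s (ψ i)) / (n.descFactorial (∑ i, mass (ψ i)) : ℝ)) := by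
          rw [h7]
          ring
  · rw [Finset.not_nonempty_iff_eq_empty.1 hne, Finset.sum_empty]
    refine mul_nonneg (mul_nonneg (Nat.cast_nonneg _) hM) (div_nonneg ?_ (Nat.cast_nonneg _))
    refine Finset.prod_nonneg fun i _ => ?_
    cases ψ i with
    | none => exact zero_le_one
    | some p => exact mul_nonneg (by positivity) (Nat.cast_nonneg _)

end ZS51
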