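import Pool.Agent.ZS51.CountB

/-!
# ZS51/LargeSum: the sum `LS` over all systems of large cells

`a = n / k`, `r = n % k`, `s = sz n k`, `f ∈ Om0 s`.
PROOF. Split `ψ` by `T₁ = {i : |A_i| = a+1}` and `T₀ = {i : θ < |A_i| ≤ a}` (`A_i ⊆ f⁻¹(i)`, `|f⁻¹(i)| = s i ≤ a+1`, so
`T₁ ⊆ {i : s i = a+1}`, which has `r` elements), `t₁ = |T₁| ≤ r`, `t₀ = |T₀| ≤ k - t₁`, `m₀ = t₁ (a+1) + t₀ a ≤ n`.
`1/n.descFactorial m ≤ n^{m₀ - m}/n.descFactorial m₀` for `m = ∑ mass = m₀ - ∑_{i ∈ T₀} (a - |A_i|)`.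
For fixed `T₁, T₀` the sum of `∏ wt · n^{∑_{T₀}(a - |A_i|)}` factorises over `i ∈ T₁ ∪ T₀` (`Finset.prod_univ_sum` or
`Finset.prod_sum`): for `i ∈ T₁`: `∑_j 2^{C(a+1,2)} (s j).descFactorial (a+1) ≤ k β₁` (only `A = f⁻¹(i)`); for `i ∈ T₀`:
`∑_j ∑_{z = θ+1}^a C(s i, z) 2^{C(z,2)} (s j).descFactorial z · n^{a-z}`, and with `z = a - y`, `0 ≤ y ≤ a - θ - 1`:
`C(a+1,z) (a+1)!/(a+1-z)! ≤ (a+1)^{y+1} (a+1)!`, `C(a-y,2) = C(a,2) - y a + y(y+1)/2`, so the term is at most
`β₀ ((a+1) n 2^{-a} 2^{(y+1)/2})^y`; total `≤ k β₀ (1 + q)`.  The number of `(T₁,T₀)` is `≤ C(k,t₁) C(k,t₀)`.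
-/

set_option autoImplicit false

namespace ZS51

variable {n k : ℕ}

theorem sz_sum (n k : ℕ) (hk : 0 < k) : ∑ j : Fin k, sz n k j = n := by
  have hr : n % k < k := Nat.mod_lt n hk
  unfold sz
  rw [Finset.sum_add_distrib, Finset.sum_const, Finset.card_univ, Fintype.card_fin, smul_eq_mul,
    Finset.sum_boole]
  have h : (Finset.univ.filter (fun i : Fin k => (i : ℕ) < n % k)).card = n % k := by
    rw [Fin.card_filter_val_lt]
    exact min_eq_right hr.le
  rw [h]
  simpa using Nat.div_add_mod n k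

theorem sz_le (n k : ℕ) (j : Fin k) : sz n k j ≤ n / k + 1 := by
  unfold sz
  split_ifs <;> omega

/-- number of large classes -/
theorem card_big (n k : ℕ) (hk : 0 < k) :
    (Finset.univ.filter (fun j : Fin k => sz n k j = n / k + 1)).card = n % k := by
  have hr : n % k < k := Nat.mod_lt n hk
  have h : (Finset.univ.filter (fun j : Fin k => sz n k j = n / k + 1))
      = Finset.univ.filter (fun i : Fin k => (i : ℕ) < n % k) := by
    refine Finset.filter_congr (fun j _ => ?_)
    unfold sz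
    by_cases hj : (j : ℕ) < n % k <;> simp [hj]
  rw [h, Fin.card_filter_val_lt]
  exact min_eq_right hr.le

/-- row set -/
def rowL (f : Fin n → Fin k) (i : Fin k) : Finset (Fin n) := Finset.univ.filter (fun v => f v = i)

/-- state of an option -/
def st (a : ℕ) : Option (Fin k × Finset (Fin n)) → ℕ
  | none => 0
  | some p => if p.2.card = a + 1 then 1 else 2

/-- defect of an option -/
def ex (a : ℕ) : Option (Fin k × Finset (Fin n)) → ℕ
  | none => 0
  | some p => if p.2.card = a + 1 then 0 else a - p.2.card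

/-- corrected weight -/
noncomputable def om (n : ℕ) {k : ℕ} (a : ℕ) (s : Fin k → ℕ)
    (o : Option (Fin k × Finset (Fin n))) : ℝ := wt s o * (n : ℝ) ^ (ex a o)

theorem wt_nonneg (s : Fin k → ℕ) (o : Option (Fin k × Finset (Fin n))) : 0 ≤ wt s o := by
  cases o with
  | none => exact zero_le_one
  | some p =>
    unfold wt
    positivity

theorem om_nonneg (a : ℕ) (s : Fin k → ℕ) (o : Option (Fin k × Finset (Fin n))) :
    0 ≤ om n a s o := by
  unfold om
  have := wt_nonneg s o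
  positivity

theorem mem_Opt_some {f : Fin n → Fin k} {θ : ℕ} {i : Fin k} {p : Fin k × Finset (Fin n)}
    (h : some p ∈ Opt f θ i) : θ < p.2.card ∧ p.2 ⊆ rowL f i := by
  unfold Opt at h
  rw [Finset.mem_filter] at h
  exact h.2 p rfl

theorem desc_add_le (n m e : ℕ) : n.descFactorial (m + e) ≤ n.descFactorial m * n ^ e := by
  induction e with
  | zero => simp
  | succ e ih =>
    rw [← add_assoc, Nat.descFactorial_succ, pow_succ]
    calc (n - (m + e)) * n.descFactorial (m + e)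
        ≤ n * (n.descFactorial m * n ^ e) := Nat.mul_le_mul (Nat.sub_le _ _) ih
      _ = n.descFactorial m * (n ^ e * n) := by ring

/-- real exponent identity -/
theorem choose_shift (a y : ℕ) (h : y ≤ a) :
    (2 : ℝ) ^ ((a - y).choose 2)
      = (2 : ℝ) ^ (a.choose 2) * ((2 : ℝ) ^ (-(a : ℝ) + ((y : ℝ) + 1) / 2)) ^ y := by
  rw [← Real.rpow_natCast, ← Real.rpow_natCast, ← Real.rpow_natCast, ← Real.rpow_mul (by norm_num),
    ← Real.rpow_add (by norm_num)]
  congr 1
  rw [Nat.cast_choose_two, Nat.cast_choose_two, Nat.cast_sub h]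
  ring

/-- the numerical bound for one cell size -/
theorem cell_bound (a y n si sj : ℕ) (h : y ≤ a) (hsi : si ≤ a + 1) (hsj : sj ≤ a + 1) :
    (si.choose (a - y) : ℝ) * ((2 : ℝ) ^ ((a - y).choose 2) * (sj.descFactorial (a - y) : ℝ)
        * (n : ℝ) ^ y)
      ≤ be0 a * (((a : ℝ) + 1) * n * (2 : ℝ) ^ (-(a : ℝ) + ((y : ℝ) + 1) / 2)) ^ y := by
  have h1 : (si.choose (a - y) : ℝ) ≤ ((a : ℝ) + 1) ^ (y + 1) := by
    have h2 : si.choose (a - y) ≤ (a + 1).choose (a - y) := Nat.choose_le_choose _ hsi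
    have h3 : (a + 1).choose (a - y) = (a + 1).choose (y + 1) := by
      rw [← Nat.choose_symm_of_eq_add]
      omega
    have h4 : (a + 1).choose (y + 1) ≤ (a + 1) ^ (y + 1) := Nat.choose_le_pow _ _
    have h5 : si.choose (a - y) ≤ (a + 1) ^ (y + 1) := by omega
    exact_mod_cast h5
  have h2 : (sj.descFactorial (a - y) : ℝ) ≤ ((a + 1).factorial : ℝ) := by
    have h3 : sj.descFactorial (a - y) ≤ (a + 1).descFactorial (a - y) :=
      Nat.descFactorial_le _ hsj
    have h4 : (a + 1).descFactorial (a - y) ≤ (a + 1).factorial := by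
      rw [Nat.descFactorial_eq_div (by omega)]
      exact Nat.div_le_self _ _
    exact_mod_cast h3.trans h4
  rw [choose_shift a y h]
  unfold be0
  obtain ⟨E, hE⟩ : ∃ E : ℝ, E = (2 : ℝ) ^ (-(a : ℝ) + ((y : ℝ) + 1) / 2) := ⟨_, rfl⟩
  rw [← hE]
  have hE0 : 0 ≤ E := by rw [hE]; positivity
  calc (si.choose (a - y) : ℝ) * ((2 : ℝ) ^ (a.choose 2) * E ^ y
        * (sj.descFactorial (a - y) : ℝ) * (n : ℝ) ^ y)
      ≤ ((a : ℝ) + 1) ^ (y + 1) * ((2 : ℝ) ^ (a.choose 2) * E ^ y
        * ((a + 1).factorial : ℝ) * (n : ℝ) ^ y) := by gcongr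
    _ = ((a : ℝ) + 1) * ((a + 1).factorial : ℝ) * (2 : ℝ) ^ (a.choose 2)
        * (((a : ℝ) + 1) * n * E) ^ y := by
      rw [mul_pow, mul_pow]
      ring

/-- row sum for state 1 -/
theorem row_sum_one (f : Fin n → Fin k) (θ : ℕ) (s : Fin k → ℕ) (a : ℕ) (hs : ∀ j, s j ≤ a + 1)
    (i : Fin k) (hi : (rowL f i).card ≤ a + 1) :
    ∑ o ∈ (Opt f θ i).filter (fun o => st a o = 1), om n a s o ≤ (k : ℝ) * be1 a := by
  have hsub : (Opt f θ i).filter (fun o => st a o = 1)
      ⊆ (Finset.univ : Finset (Fin k)).image (fun j => (some (j, rowL f i) :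
        Option (Fin k × Finset (Fin n)))) := by
    intro o ho
    rw [Finset.mem_filter] at ho
    cases o with
    | none => simp [st] at ho
    | some p =>
      obtain ⟨h1, h2⟩ := mem_Opt_some ho.1
      have h3 : p.2.card = a + 1 := by
        have := ho.2
        unfold st at this
        by_contra hc
        simp [hc] at this
      have h4 : p.2 = rowL f i := Finset.eq_of_subset_of_card_le h2 (by omega)
      rw [Finset.mem_image]
      exact ⟨p.1, Finset.mem_univ _, by rw [← h4]⟩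
  by_cases hrow : (rowL f i).card = a + 1
  · calc ∑ o ∈ (Opt f θ i).filter (fun o => st a o = 1), om n a s o
        ≤ ∑ o ∈ (Finset.univ : Finset (Fin k)).image (fun j => (some (j, rowL f i) :
          Option (Fin k × Finset (Fin n)))), om n a s o :=
        Finset.sum_le_sum_of_subset_of_nonneg hsub (fun _ _ _ => om_nonneg a s _)
      _ = ∑ j : Fin k, om n a s (some (j, rowL f i)) := by
        rw [Finset.sum_image]
        intro x _ y _ hxy
        simpa using hxy
      _ ≤ ∑ _j : Fin k, be1 a := by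
        refine Finset.sum_le_sum (fun j _ => ?_)
        unfold om wt ex be1
        simp only [hrow, if_true, pow_zero, mul_one]
        rw [mul_comm]
        have : (s j).descFactorial (a + 1) ≤ (a + 1).factorial := by
          have h3 : (s j).descFactorial (a + 1) ≤ (a + 1).descFactorial (a + 1) :=
            Nat.descFactorial_le _ (hs j)
          rwa [Nat.descFactorial_self] at h3
        gcongr
      _ = (k : ℝ) * be1 a := by simp
  · have hempty : (Opt f θ i).filter (fun o => st a o = 1) = ∅ := by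
      rw [Finset.eq_empty_iff_forall_notMem]
      intro o ho
      have h5 := hsub ho
      rw [Finset.mem_image] at h5
      obtain ⟨j, -, rfl⟩ := h5
      rw [Finset.mem_filter] at ho
      have h6 := ho.2
      unfold st at h6
      simp [hrow] at h6
    rw [hempty, Finset.sum_empty]
    unfold be1
    positivity

/-- row sum for state 2 -/
theorem row_sum_two (f : Fin n → Fin k) (θ : ℕ) (s : Fin k → ℕ) (a : ℕ) (hs : ∀ j, s j ≤ a + 1)
    (i : Fin k) (hi : (rowL f i).card ≤ a + 1) (q : ℝ)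
    (hq : ∑ y ∈ Finset.Icc 1 (a - θ - 1),
      (((a : ℝ) + 1) * n * (2 : ℝ) ^ (-(a : ℝ) + ((y : ℝ) + 1) / 2)) ^ y ≤ q) :
    ∑ o ∈ (Opt f θ i).filter (fun o => st a o = 2), om n a s o
      ≤ (k : ℝ) * be0 a * (1 + q) := by
  classical
  have hq0 : 0 ≤ q := le_trans (Finset.sum_nonneg (fun y _ => by positivity)) hq
  have hb0 : 0 ≤ be0 a := by unfold be0; positivity
  let PP : Finset (Finset (Fin n)) := (rowL f i).powerset.filter (fun A => θ < A.card ∧ A.card ≤ a)
  have hsub : (Opt f θ i).filter (fun o => st a o = 2)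
      ⊆ ((Finset.univ : Finset (Fin k)) ×ˢ PP).image (fun p => (some p :
        Option (Fin k × Finset (Fin n)))) := by
    intro o ho
    rw [Finset.mem_filter] at ho
    cases o with
    | none => simp [st] at ho
    | some p =>
      obtain ⟨h1, h2⟩ := mem_Opt_some ho.1
      have h3 : p.2.card ≠ a + 1 := by
        have := ho.2
        unfold st at this
        intro hc
        simp [hc] at this
      have h4 : p.2.card ≤ a + 1 := (Finset.card_le_card h2).trans hi
      rw [Finset.mem_image]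
      refine ⟨p, Finset.mem_product.mpr ⟨Finset.mem_univ _, ?_⟩, rfl⟩
      exact Finset.mem_filter.mpr ⟨Finset.mem_powerset.mpr h2, h1, by omega⟩
  have hin : ∀ j : Fin k, ∑ A ∈ PP, om n a s (some (j, A)) ≤ be0 a * (1 + q) := by
    intro j
    have h1 : ∑ A ∈ PP, om n a s (some (j, A))
        = ∑ A ∈ (rowL f i).powerset, (fun z : ℕ => if θ < z ∧ z ≤ a then
            (2 : ℝ) ^ (z.choose 2) * ((s j).descFactorial z : ℝ) * (n : ℝ) ^ (a - z) else 0) A.card := by
      rw [Finset.sum_filter]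
      refine Finset.sum_congr rfl (fun A _ => ?_)
      by_cases hA : θ < A.card ∧ A.card ≤ a
      · simp only [hA, and_self, if_true]
        unfold om wt ex
        have : A.card ≠ a + 1 := by omega
        simp [this]
      · simp only [hA, if_false]
    rw [h1, Finset.sum_powerset_apply_card (fun z : ℕ => if θ < z ∧ z ≤ a then
            (2 : ℝ) ^ (z.choose 2) * ((s j).descFactorial z : ℝ) * (n : ℝ) ^ (a - z) else 0)]
    have h2 : ∀ z ∈ Finset.range ((rowL f i).card + 1), (rowL f i).card.choose z •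
        (if θ < z ∧ z ≤ a then
            (2 : ℝ) ^ (z.choose 2) * ((s j).descFactorial z : ℝ) * (n : ℝ) ^ (a - z) else 0)
        ≤ (if θ < z ∧ z ≤ a then be0 a *
          (((a : ℝ) + 1) * n * (2 : ℝ) ^ (-(a : ℝ) + (((a - z : ℕ) : ℝ) + 1) / 2)) ^ (a - z)
          else 0) := by
      intro z _
      by_cases hz : θ < z ∧ z ≤ a
      · simp only [hz, and_self, if_true, nsmul_eq_mul]
        have h3 := cell_bound a (a - z) n (rowL f i).card (s j) (Nat.sub_le _ _) hi (hs j)
        rw [Nat.sub_sub_self hz.2] at h3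
        exact h3
      · simp only [hz, if_false, nsmul_zero, le_refl]
    refine (Finset.sum_le_sum h2).trans ?_
    have h4 : ∑ z ∈ Finset.range ((rowL f i).card + 1), (if θ < z ∧ z ≤ a then be0 a *
          (((a : ℝ) + 1) * n * (2 : ℝ) ^ (-(a : ℝ) + (((a - z : ℕ) : ℝ) + 1) / 2)) ^ (a - z)
          else 0)
        ≤ ∑ z ∈ Finset.Ioc θ a, be0 a *
          (((a : ℝ) + 1) * n * (2 : ℝ) ^ (-(a : ℝ) + (((a - z : ℕ) : ℝ) + 1) / 2)) ^ (a - z) := by
      rw [← Finset.sum_filter]
      refine Finset.sum_le_sum_of_subset_of_nonneg ?_ (fun z _ _ => by positivity)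
      intro z hz
      rw [Finset.mem_filter] at hz
      exact Finset.mem_Ioc.mpr hz.2
    refine h4.trans ?_
    rw [← Finset.mul_sum]
    refine mul_le_mul_of_nonneg_left ?_ hb0
    rcases Nat.lt_or_ge θ a with hθ | hθ
    · have h5 : ∑ z ∈ Finset.Ioc θ a,
          (((a : ℝ) + 1) * n * (2 : ℝ) ^ (-(a : ℝ) + (((a - z : ℕ) : ℝ) + 1) / 2)) ^ (a - z)
          = ∑ y ∈ Finset.range (a - θ),
            (((a : ℝ) + 1) * n * (2 : ℝ) ^ (-(a : ℝ) + ((y : ℝ) + 1) / 2)) ^ y := by
        refine Finset.sum_nbij' (fun z => a - z) (fun y => a - y) ?_ ?_ ?_ ?_ ?_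
        · intro z hz
          rw [Finset.mem_Ioc] at hz
          rw [Finset.mem_range]
          omega
        · intro y hy
          rw [Finset.mem_range] at hy
          rw [Finset.mem_Ioc]
          omega
        · intro z hz
          rw [Finset.mem_Ioc] at hz
          omega
        · intro y hy
          rw [Finset.mem_range] at hy
          omega
        · intro z _
          rfl
      rw [h5]
      have h6 : Finset.range (a - θ) = insert 0 (Finset.Icc 1 (a - θ - 1)) := by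
        ext y
        simp only [Finset.mem_range, Finset.mem_insert, Finset.mem_Icc]
        omega
      rw [h6, Finset.sum_insert (by simp)]
      simpa using hq
    · rw [Finset.Ioc_eq_empty (by omega), Finset.sum_empty]
      linarith
  calc ∑ o ∈ (Opt f θ i).filter (fun o => st a o = 2), om n a s o
      ≤ ∑ o ∈ ((Finset.univ : Finset (Fin k)) ×ˢ PP).image (fun p => (some p :
        Option (Fin k × Finset (Fin n)))), om n a s o :=
      Finset.sum_le_sum_of_subset_of_nonneg hsub (fun _ _ _ => om_nonneg a s _)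
    _ = ∑ p ∈ (Finset.univ : Finset (Fin k)) ×ˢ PP, om n a s (some p) := by
      rw [Finset.sum_image]
      intro x _ y _ hxy
      exact Option.some.inj hxy
    _ = ∑ j : Fin k, ∑ A ∈ PP, om n a s (some (j, A)) := by rw [Finset.sum_product]
    _ ≤ ∑ _j : Fin k, be0 a * (1 + q) := Finset.sum_le_sum (fun j _ => hin j)
    _ = (k : ℝ) * be0 a * (1 + q) := by
      rw [Finset.sum_const, Finset.card_univ, Fintype.card_fin, nsmul_eq_mul]
      ring


/-- sum of the base masses -/
theorem mass_ex (a θ : ℕ) (f : Fin n → Fin k) (hrow : ∀ i, (rowL f i).card ≤ a + 1)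
    (i : Fin k) (o : Option (Fin k × Finset (Fin n))) (ho : o ∈ Opt f θ i) :
    mass o + ex a o = (if st a o = 1 then a + 1 else 0) + (if st a o = 2 then a else 0) := by
  cases o with
  | none => simp [mass, ex, st]
  | some p =>
    obtain ⟨h1, h2⟩ := mem_Opt_some ho
    have h4 : p.2.card ≤ a + 1 := (Finset.card_le_card h2).trans (hrow i)
    unfold mass ex st
    by_cases h : p.2.card = a + 1
    · simp [h]
    · simp only [h, if_false]
      norm_num
      omega

theorem st_cases (a : ℕ) (o : Option (Fin k × Finset (Fin n))) :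
    st a o = 0 ∨ st a o = 1 ∨ st a o = 2 := by
  cases o with
  | none => left; rfl
  | some p =>
    by_cases h : p.2.card = a + 1
    · right; left; simp [st, h]
    · right; right; simp [st, h]

/-- the sum over a fixed pattern `(T₁, T₀)` -/
theorem pattern_sum (n k : ℕ) (hk : 0 < k) (θ : ℕ) (q : ℝ) (f : Fin n → Fin k)
    (hf : f ∈ Om0 (n := n) (sz n k))
    (hq : ∑ y ∈ Finset.Icc 1 (n / k - θ - 1),
      ((((n / k : ℕ) : ℝ) + 1) * n * (2 : ℝ) ^ (-((n / k : ℕ) : ℝ) + ((y : ℝ) + 1) / 2)) ^ y ≤ q)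
    (T₁ T₀ : Finset (Fin k)) (hT₁ : T₁.card ≤ n % k) (hT : T₁.card + T₀.card ≤ k)
    (hdis : Disjoint T₁ T₀) :
    ∑ ψ ∈ (Fintype.piFinset (Opt f θ)).filter (fun ψ =>
        (Finset.univ.filter (fun i => st (n / k) (ψ i) = 1) = T₁) ∧
        (Finset.univ.filter (fun i => st (n / k) (ψ i) = 2) = T₀)),
      (∏ i, wt (sz n k) (ψ i)) / (n.descFactorial (∑ i, mass (ψ i)) : ℝ)
      ≤ ((k : ℝ) * be1 (n / k)) ^ T₁.card * ((k : ℝ) * be0 (n / k) * (1 + q)) ^ T₀.card
        / (n.descFactorial (T₁.card * (n / k + 1) + T₀.card * (n / k)) : ℝ) := by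
  classical
  obtain ⟨a, ha⟩ : ∃ a : ℕ, a = n / k := ⟨_, rfl⟩
  rw [← ha] at hq ⊢
  have hrow : ∀ i, (rowL f i).card ≤ a + 1 := by
    intro i
    have h1 : cnt Finset.univ f i = sz n k i := (Finset.mem_filter.mp hf).2 i
    have h2 : (rowL f i).card = sz n k i := h1
    rw [h2, ha]
    exact sz_le n k i
  have hsz : ∀ j, sz n k j ≤ a + 1 := fun j => ha ▸ sz_le n k j
  have hq0 : 0 ≤ q := le_trans (Finset.sum_nonneg (fun y _ => by positivity)) hq
  obtain ⟨m₀, hm₀⟩ : ∃ m₀ : ℕ, m₀ = T₁.card * (a + 1) + T₀.card * a := ⟨_, rfl⟩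
  rw [← hm₀]
  have hm₀n : m₀ ≤ n := by
    have h1 : n = k * a + n % k := by rw [ha]; exact (Nat.div_add_mod n k).symm
    have h2 : m₀ = (T₁.card + T₀.card) * a + T₁.card := by rw [hm₀]; ring
    rw [h2, h1]
    have h3 : (T₁.card + T₀.card) * a ≤ k * a := Nat.mul_le_mul_right _ hT
    have h4 : (k * a + n % k) % k = n % k := by
      rw [Nat.add_mod, Nat.mul_mod_right, Nat.zero_add, Nat.mod_mod, Nat.mod_mod]
    omega
  have hpos : 0 < (n.descFactorial m₀ : ℝ) := by
    exact_mod_cast Nat.descFactorial_pos.mpr hm₀n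
  -- pointwise bound
  have hpt : ∀ ψ ∈ (Fintype.piFinset (Opt f θ)).filter (fun ψ =>
        (Finset.univ.filter (fun i => st a (ψ i) = 1) = T₁) ∧
        (Finset.univ.filter (fun i => st a (ψ i) = 2) = T₀)),
      (∏ i, wt (sz n k) (ψ i)) / (n.descFactorial (∑ i, mass (ψ i)) : ℝ)
        ≤ (∏ i, om n a (sz n k) (ψ i)) / (n.descFactorial m₀ : ℝ) := by
    intro ψ hψ
    rw [Finset.mem_filter, Fintype.mem_piFinset] at hψ
    obtain ⟨hψ1, hψ2, hψ3⟩ := hψ
    have hme : ∑ i, mass (ψ i) + ∑ i, ex a (ψ i) = m₀ := by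
      rw [← Finset.sum_add_distrib, Finset.sum_congr rfl (fun i _ => mass_ex a θ f hrow i (ψ i) (hψ1 i)),
        Finset.sum_add_distrib, ← Finset.sum_filter, ← Finset.sum_filter, hψ2, hψ3,
        Finset.sum_const, Finset.sum_const, smul_eq_mul, smul_eq_mul, hm₀]
    have hd := desc_add_le n (∑ i, mass (ψ i)) (∑ i, ex a (ψ i))
    rw [hme] at hd
    have hd' : (n.descFactorial m₀ : ℝ) ≤ (n.descFactorial (∑ i, mass (ψ i)) : ℝ)
        * (n : ℝ) ^ (∑ i, ex a (ψ i)) := by exact_mod_cast hd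
    have hpos2 : 0 < (n.descFactorial (∑ i, mass (ψ i)) : ℝ) := by
      exact_mod_cast Nat.descFactorial_pos.mpr (by omega)
    have hprod : ∏ i, om n a (sz n k) (ψ i)
        = (∏ i, wt (sz n k) (ψ i)) * (n : ℝ) ^ (∑ i, ex a (ψ i)) := by
      unfold om
      rw [Finset.prod_mul_distrib, Finset.prod_pow_eq_pow_sum]
    rw [hprod, div_le_div_iff₀ hpos2 hpos]
    have hw : 0 ≤ ∏ i, wt (sz n k) (ψ i) := Finset.prod_nonneg (fun i _ => wt_nonneg _ _)
    calc (∏ i, wt (sz n k) (ψ i)) * (n.descFactorial m₀ : ℝ)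
        ≤ (∏ i, wt (sz n k) (ψ i)) * ((n.descFactorial (∑ i, mass (ψ i)) : ℝ)
          * (n : ℝ) ^ (∑ i, ex a (ψ i))) := by gcongr
      _ = _ := by ring
  refine (Finset.sum_le_sum hpt).trans ?_
  rw [← Finset.sum_div]
  refine div_le_div_of_nonneg_right ?_ hpos.le
  -- factorise
  let OO : Fin k → Finset (Option (Fin k × Finset (Fin n))) := fun i =>
    (Opt f θ i).filter (fun o => st a o = if i ∈ T₁ then 1 else if i ∈ T₀ then 2 else 0)
  have hsub : (Fintype.piFinset (Opt f θ)).filter (fun ψ =>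
        (Finset.univ.filter (fun i => st a (ψ i) = 1) = T₁) ∧
        (Finset.univ.filter (fun i => st a (ψ i) = 2) = T₀)) ⊆ Fintype.piFinset OO := by
    intro ψ hψ
    rw [Finset.mem_filter, Fintype.mem_piFinset] at hψ
    obtain ⟨hψ1, hψ2, hψ3⟩ := hψ
    rw [Fintype.mem_piFinset]
    intro i
    rw [Finset.mem_filter]
    refine ⟨hψ1 i, ?_⟩
    have h1 : i ∈ T₁ ↔ st a (ψ i) = 1 := by rw [← hψ2]; simp
    have h2 : i ∈ T₀ ↔ st a (ψ i) = 2 := by rw [← hψ3]; simp
    rcases st_cases a (ψ i) with h | h | h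
    · have h3 : i ∉ T₁ := by rw [h1, h]; norm_num
      have h4 : i ∉ T₀ := by rw [h2, h]; norm_num
      simp [h, h3, h4]
    · have h3 : i ∈ T₁ := by rw [h1, h]
      simp [h, h3]
    · have h3 : i ∉ T₁ := by rw [h1, h]; norm_num
      have h4 : i ∈ T₀ := by rw [h2, h]
      simp [h, h3, h4]
  have hprod0 : ∀ ψ : Fin k → Option (Fin k × Finset (Fin n)), 0 ≤ ∏ i, om n a (sz n k) (ψ i) :=
    fun ψ => Finset.prod_nonneg (fun i _ => om_nonneg _ _ _)
  refine (Finset.sum_le_sum_of_subset_of_nonneg hsub (fun ψ _ _ => hprod0 ψ)).trans ?_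
  rw [← Finset.prod_univ_sum OO (fun _ o => om n a (sz n k) o)]
  have hb1 : 0 ≤ (k : ℝ) * be1 a := by unfold be1; positivity
  have hb0 : 0 ≤ (k : ℝ) * be0 a * (1 + q) := by unfold be0; positivity
  have hfac : ∀ i ∈ (Finset.univ : Finset (Fin k)), ∑ o ∈ OO i, om n a (sz n k) o
      ≤ (if i ∈ T₁ then (k : ℝ) * be1 a else 1) * (if i ∈ T₀ then (k : ℝ) * be0 a * (1 + q) else 1) := by
    intro i _
    by_cases h1 : i ∈ T₁
    · have h2 : i ∉ T₀ := Finset.disjoint_left.mp hdis h1
      simp only [OO, h1, h2, if_true, if_false, mul_one]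
      exact row_sum_one f θ (sz n k) a hsz i (hrow i)
    · by_cases h2 : i ∈ T₀
      · simp only [OO, h1, h2, if_true, if_false, one_mul]
        exact row_sum_two f θ (sz n k) a hsz i (hrow i) q hq
      · simp only [OO, h1, h2, if_false, one_mul]
        have h3 : (Opt f θ i).filter (fun o => st a o = 0)
            ⊆ {(none : Option (Fin k × Finset (Fin n)))} := by
          intro o ho
          rw [Finset.mem_filter] at ho
          cases o with
          | none => simp
          | some p =>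
            have h9 := ho.2
            exfalso
            by_cases h : p.2.card = a + 1
            · simp [st, h] at h9
            · simp [st, h] at h9
        refine (Finset.sum_le_sum_of_subset_of_nonneg h3 (fun _ _ _ => om_nonneg _ _ _)).trans ?_
        rw [Finset.sum_singleton]
        unfold om wt ex
        simp
  refine (Finset.prod_le_prod (fun i _ => Finset.sum_nonneg (fun o _ => om_nonneg _ _ _)) hfac).trans ?_
  rw [Finset.prod_mul_distrib, Finset.prod_ite_mem, Finset.prod_ite_mem, Finset.univ_inter,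
    Finset.univ_inter, Finset.prod_const, Finset.prod_const]

theorem large_sum (n k : ℕ) (hk : 0 < k) (θ : ℕ) (q : ℝ) (f : Fin n → Fin k)
    (hf : f ∈ Om0 (n := n) (sz n k))
    (hq : ∑ y ∈ Finset.Icc 1 (n / k - θ - 1),
      ((((n / k : ℕ) : ℝ) + 1) * n * (2 : ℝ) ^ (-((n / k : ℕ) : ℝ) + ((y : ℝ) + 1) / 2)) ^ y ≤ q) :
    LS (sz n k) f θ ≤ ∑ t₁ ∈ Finset.range (n % k + 1), ∑ t₀ ∈ Finset.range (k - t₁ + 1),
      (k.choose t₁ : ℝ) * (k.choose t₀ : ℝ) * ((k : ℝ) * be1 (n / k)) ^ t₁
        * ((k : ℝ) * be0 (n / k) * (1 + q)) ^ t₀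
        / (n.descFactorial (t₁ * (n / k + 1) + t₀ * (n / k)) : ℝ) := by
  classical
  have hq0 : 0 ≤ q := le_trans (Finset.sum_nonneg (fun y _ => by positivity)) hq
  have hb1 : 0 ≤ (k : ℝ) * be1 (n / k) := by unfold be1; positivity
  have hb0 : 0 ≤ (k : ℝ) * be0 (n / k) * (1 + q) := by unfold be0; positivity
  have hr : n % k < k := Nat.mod_lt n hk
  obtain ⟨Big, hBig⟩ : ∃ Big : Finset (Fin k),
    Big = Finset.univ.filter (fun j : Fin k => sz n k j = n / k + 1) := ⟨_, rfl⟩
  have hBc : Big.card = n % k := by rw [hBig]; exact card_big n k hk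
  let G : Finset (Fin k) → Finset (Fin k) → ℝ := fun T₁ T₀ =>
    ((k : ℝ) * be1 (n / k)) ^ T₁.card * ((k : ℝ) * be0 (n / k) * (1 + q)) ^ T₀.card
        / (n.descFactorial (T₁.card * (n / k + 1) + T₀.card * (n / k)) : ℝ)
  let tgt : Finset (Σ _ : Finset (Fin k), Finset (Fin k)) :=
    Big.powerset.sigma (fun T₁ => (Finset.univ \ T₁).powerset)
  have hmaps : ∀ ψ ∈ Fintype.piFinset (Opt f θ),
      (⟨Finset.univ.filter (fun i => st (n / k) (ψ i) = 1),
        Finset.univ.filter (fun i => st (n / k) (ψ i) = 2)⟩ : Σ _ : Finset (Fin k), Finset (Fin k))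
        ∈ tgt := by
    intro ψ hψ
    rw [Fintype.mem_piFinset] at hψ
    rw [Finset.mem_sigma, Finset.mem_powerset, Finset.mem_powerset]
    constructor
    · intro i hi
      rw [Finset.mem_filter] at hi
      rw [hBig, Finset.mem_filter]
      refine ⟨Finset.mem_univ _, ?_⟩
      have h1 := hψ i
      have h2 := hi.2
      generalize hgo : ψ i = o at h1 h2
      cases o with
      | none => simp [st] at h2
      | some p =>
        obtain ⟨h3, h4⟩ := mem_Opt_some h1
        have h5 : p.2.card = n / k + 1 := by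
          unfold st at h2
          by_contra hc
          simp [hc] at h2
        have h6 : (rowL f i).card = sz n k i := (Finset.mem_filter.mp hf).2 i
        have h7 := Finset.card_le_card h4
        have h8 := sz_le n k i
        omega
    · intro i hi
      rw [Finset.mem_filter] at hi
      rw [Finset.mem_sdiff, Finset.mem_filter]
      refine ⟨Finset.mem_univ _, fun h => ?_⟩
      have h9 := h.2
      have h10 := hi.2
      omega
  unfold LS
  rw [← Finset.sum_fiberwise_of_maps_to hmaps]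
  have hstep : ∀ p ∈ tgt, ∑ ψ ∈ (Fintype.piFinset (Opt f θ)).filter (fun ψ =>
        (⟨Finset.univ.filter (fun i => st (n / k) (ψ i) = 1),
        Finset.univ.filter (fun i => st (n / k) (ψ i) = 2)⟩ : Σ _ : Finset (Fin k), Finset (Fin k)) = p),
      (∏ i, wt (sz n k) (ψ i)) / (n.descFactorial (∑ i, mass (ψ i)) : ℝ) ≤ G p.1 p.2 := by
    rintro ⟨T₁, T₀⟩ hp
    rw [Finset.mem_sigma, Finset.mem_powerset, Finset.mem_powerset] at hp
    have h1 : T₁.card ≤ n % k := hBc ▸ Finset.card_le_card hp.1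
    have hdis : Disjoint T₁ T₀ := by
      rw [Finset.disjoint_right]
      intro i hi
      exact (Finset.mem_sdiff.mp (hp.2 hi)).2
    have h2 : T₁.card + T₀.card ≤ k := by
      rw [← Finset.card_union_of_disjoint hdis]
      simpa using Finset.card_le_univ (T₁ ∪ T₀)
    have h3 := pattern_sum n k hk θ q f hf hq T₁ T₀ h1 h2 hdis
    refine le_trans (le_of_eq ?_) h3
    refine Finset.sum_congr ?_ (fun _ _ => rfl)
    refine Finset.filter_congr (fun ψ _ => ?_)
    constructor
    · intro h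
      have h4 := congrArg Sigma.fst h
      have h5 := congrArg Sigma.snd h
      exact ⟨h4, h5⟩
    · rintro ⟨h4, h5⟩
      rw [h4, h5]
  refine (Finset.sum_le_sum hstep).trans ?_
  rw [Finset.sum_sigma]
  have hG0 : ∀ t₁ t₀ : ℕ, 0 ≤ ((k : ℝ) * be1 (n / k)) ^ t₁
        * ((k : ℝ) * be0 (n / k) * (1 + q)) ^ t₀
        / (n.descFactorial (t₁ * (n / k + 1) + t₀ * (n / k)) : ℝ) := by
    intro t₁ t₀
    positivity
  have hinner : ∀ T₁ ∈ Big.powerset, ∑ T₀ ∈ (Finset.univ \ T₁).powerset, G T₁ T₀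
      = ∑ t₀ ∈ Finset.range (k - T₁.card + 1), ((k - T₁.card).choose t₀ : ℝ) *
        (((k : ℝ) * be1 (n / k)) ^ T₁.card * ((k : ℝ) * be0 (n / k) * (1 + q)) ^ t₀
        / (n.descFactorial (T₁.card * (n / k + 1) + t₀ * (n / k)) : ℝ)) := by
    intro T₁ _
    have h1 := Finset.sum_powerset_apply_card (fun t₀ =>
      ((k : ℝ) * be1 (n / k)) ^ T₁.card * ((k : ℝ) * be0 (n / k) * (1 + q)) ^ t₀
        / (n.descFactorial (T₁.card * (n / k + 1) + t₀ * (n / k)) : ℝ)) (x := Finset.univ \ T₁)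
    have h2 : (Finset.univ \ T₁).card = k - T₁.card := by
      rw [Finset.card_univ_sdiff, Fintype.card_fin]
    rw [h2] at h1
    simp only [nsmul_eq_mul] at h1
    exact h1
  rw [Finset.sum_congr rfl hinner]
  have houter := Finset.sum_powerset_apply_card (fun t₁ =>
      ∑ t₀ ∈ Finset.range (k - t₁ + 1), ((k - t₁).choose t₀ : ℝ) *
        (((k : ℝ) * be1 (n / k)) ^ t₁ * ((k : ℝ) * be0 (n / k) * (1 + q)) ^ t₀
        / (n.descFactorial (t₁ * (n / k + 1) + t₀ * (n / k)) : ℝ))) (x := Big)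
  rw [hBc] at houter
  rw [houter]
  refine Finset.sum_le_sum (fun t₁ ht₁ => ?_)
  rw [nsmul_eq_mul, Finset.mul_sum]
  refine Finset.sum_le_sum (fun t₀ _ => ?_)
  have h1 : ((n % k).choose t₁ : ℝ) ≤ (k.choose t₁ : ℝ) := by
    exact_mod_cast Nat.choose_le_choose _ hr.le
  have h2 : ((k - t₁).choose t₀ : ℝ) ≤ (k.choose t₀ : ℝ) := by
    exact_mod_cast Nat.choose_le_choose _ (Nat.sub_le _ _)
  have h3 := hG0 t₁ t₀
  calc ((n % k).choose t₁ : ℝ) * (((k - t₁).choose t₀ : ℝ) *
        (((k : ℝ) * be1 (n / k)) ^ t₁ * ((k : ℝ) * be0 (n / k) * (1 + q)) ^ t₀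
        / (n.descFactorial (t₁ * (n / k + 1) + t₀ * (n / k)) : ℝ)))
      ≤ (k.choose t₁ : ℝ) * ((k.choose t₀ : ℝ) *
        (((k : ℝ) * be1 (n / k)) ^ t₁ * ((k : ℝ) * be0 (n / k) * (1 + q)) ^ t₀
        / (n.descFactorial (t₁ * (n / k + 1) + t₀ * (n / k)) : ℝ))) := by gcongr
    _ = _ := by ring

end ZS51
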