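import Mathlib

/-!
# ZS51/LogDesc: lower bound for the falling factorial

PROOF. `log (n)_m = ∑_{i<m} log (n-i) ≥ ∑_{i<m} ∫_{n-i-1}^{n-i} log x dx = ∫_{n-m}^n log x dx
= n log n - n - (n-m) log (n-m) + (n-m) = m log n - m + (n-m) log (n/(n-m))`.
Or without integrals by induction on `m`: the increment of the left side from `m` to `m+1` (`N = n - m`) is
`log n - 1 + (N-1) log (n/(N-1)) - N log (n/N) = N log N - (N-1) log (N-1) - 1 ≤ log N`, i.e.
`(N-1) log (N/(N-1)) ≤ 1`, true as `log (1+x) ≤ x`. (For `N = 1`: `0 ≤ log 1 + 1`.) In Lean `log 0 = 0`.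
-/

set_option autoImplicit false

namespace ZS51

/-- Stirling type lower bound for the falling factorial -/
theorem log_desc_ge (n m : ℕ) (h : m ≤ n) :
    (m : ℝ) * Real.log n - m + ((n : ℝ) - m) * Real.log ((n : ℝ) / ((n : ℝ) - m))
      ≤ Real.log (n.descFactorial m : ℝ) := by
  induction m with
  | zero =>
    rcases Nat.eq_zero_or_pos n with rfl | hn
    · simp
    · have : (n : ℝ) ≠ 0 := by positivity
      simp [div_self this]
  | succ m ih =>
    have ih' := ih (by omega)
    rw [Nat.descFactorial_succ]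
    have hmn : m ≤ n := by omega
    push_cast [Nat.cast_sub hmn]
    have hd : (0 : ℝ) < (n.descFactorial m : ℝ) := by
      exact_mod_cast Nat.descFactorial_pos.mpr hmn
    have hNle : (1 : ℝ) ≤ (n : ℝ) - m := by
      have : ((m + 1 : ℕ) : ℝ) ≤ n := by exact_mod_cast h
      push_cast at this
      linarith
    have hn0 : (0 : ℝ) < n := by
      have : (0 : ℝ) ≤ m := Nat.cast_nonneg m
      linarith
    set N : ℝ := (n : ℝ) - m with hN
    have hN0 : 0 < N := by linarith
    rw [Real.log_mul hN0.ne' hd.ne']
    have e1 : (n : ℝ) - (m + 1) = N - 1 := by rw [hN]; ring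
    rw [e1]
    have hlN : Real.log ((n : ℝ) / N) = Real.log n - Real.log N :=
      Real.log_div hn0.ne' hN0.ne'
    rw [hlN] at ih'
    rcases eq_or_lt_of_le hNle with h1 | h1
    · rw [← h1] at ih' ⊢
      simp only [Real.log_one, sub_self, zero_mul] at ih' ⊢
      linarith
    · have hN1 : 0 < N - 1 := by linarith
      rw [Real.log_div hn0.ne' hN1.ne']
      have h2 : Real.log N - Real.log (N - 1) ≤ 1 / (N - 1) := by
        rw [← Real.log_div hN0.ne' hN1.ne']
        have h3 := Real.log_le_sub_one_of_pos (div_pos hN0 hN1)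
        have h4 : N / (N - 1) - 1 = 1 / (N - 1) := by
          field_simp
          ring
        linarith
      have h5 : (N - 1) * (Real.log N - Real.log (N - 1)) ≤ 1 := by
        have := mul_le_mul_of_nonneg_left h2 hN1.le
        rwa [mul_one_div_cancel hN1.ne'] at this
      nlinarith

end ZS51
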