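import Pool.Agent.ZS51.Defs

/-!
# ZS51/MuLow6: lower bound for `μ_a` in a wide range

The proof of `ZZ51.mu_lower` (file ZZ51/MuLow.lean) with 6 in place of 4.
-/

set_option autoImplicit false

open Filter Topology ZZ51

namespace ZS51

theorem mu_lower6 (κ : ℝ) (hκ : 0 < κ) : ∀ᶠ n : ℕ in atTop, ∀ a : ℕ,
    al0 n - 6 ≤ a → (a : ℝ) ≤ al0 n → (n : ℝ) ^ (al0 n - a - κ) ≤ mu n a := by
  have hlog : Tendsto (fun n : ℕ => Real.log (n : ℝ)) atTop atTop :=
    Real.tendsto_log_atTop.comp tendsto_natCast_atTop_atTop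
  filter_upwards [al0_bounds, muLow_corr (κ / 2) (half_pos hκ), muLow_size, hlog.eventually_ge_atTop 7,
    muLow_logb_tendsto.eventually_ge_atTop 1, eventually_ge_atTop 2] with n hb hcorr hsize h5 hl1 hn2
  obtain ⟨hb1, hb2, -, hb4⟩ := hb
  intro a ha1 ha2
  have hl2 : 0 < Real.log 2 := Real.log_pos (by norm_num)
  have hl2' : Real.log 2 ≤ 1 := by
    have := Real.log_two_lt_d9
    linarith
  have hn0 : (0 : ℝ) < n := by
    have : (2 : ℝ) ≤ n := by exact_mod_cast hn2
    linarith
  have haR : (1 : ℝ) ≤ a := by linarith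
  have haN : 1 ≤ a := by exact_mod_cast haR
  have h2a : 2 * (a : ℝ) ^ 2 ≤ n := by
    refine le_trans ?_ hsize
    have : (a : ℝ) ≤ 2 * Real.logb 2 (n : ℝ) := ha2.trans hb2
    nlinarith
  obtain ⟨hmu, hpos⟩ := muLow_log_mu n a haN h2a
  rw [← Real.log_le_log_iff (Real.rpow_pos_of_pos hn0 _) hpos, Real.log_rpow hn0]
  refine le_trans ?_ hmu
  set l : ℝ := Real.logb 2 (n : ℝ) with hl
  have hln : Real.log n = l * Real.log 2 := by
    rw [hl, Real.logb]
    field_simp
  have hll : Real.logb 2 l * Real.log 2 = Real.log l := by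
    rw [Real.logb]
    field_simp
  have hlogl : 0 ≤ Real.log l := Real.log_nonneg hl1
  have hal := al0_eq n
  rw [← hl] at hal
  set x : ℝ := al0 n - a with hx
  have hx0 : 0 ≤ x := by rw [hx]; linarith
  have hx4 : x ≤ 6 := by rw [hx]; linarith
  have hbr : Real.log n - Real.log a + 1 - ((a : ℝ) - 1) / 2 * Real.log 2 =
      Real.log (2 * l) - Real.log a + x / 2 * Real.log 2 := by
    have : (a : ℝ) = 2 * l - 2 * Real.logb 2 l + 2 / Real.log 2 - 1 - x := by
      rw [hx, hal]; ring
    have h1 : ((a : ℝ) - 1) / 2 * Real.log 2 =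
        l * Real.log 2 - Real.logb 2 l * Real.log 2 + 1 - Real.log 2 - x / 2 * Real.log 2 := by
      rw [this]
      field_simp
      ring
    rw [h1, hll, ← hln, Real.log_mul (by norm_num) (by linarith)]
    ring
  rw [hbr]
  have hloga : Real.log a ≤ Real.log (2 * l) :=
    Real.log_le_log (by linarith) (ha2.trans hb2)
  have hlog2l : Real.log (2 * l) = Real.log 2 + Real.log l :=
    Real.log_mul (by norm_num) (by linarith)
  have hA : (a : ℝ) * (x / 2 * Real.log 2) ≤
      (a : ℝ) * (Real.log (2 * l) - Real.log a + x / 2 * Real.log 2) := by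
    apply mul_le_mul_of_nonneg_left _ (by linarith)
    linarith
  have hB : (2 * l - 2 * Real.logb 2 l - x) * (x / 2 * Real.log 2) ≤
      (a : ℝ) * (x / 2 * Real.log 2) := by
    apply mul_le_mul_of_nonneg_right _ (by positivity)
    rw [hx]
    linarith
  have hC : (2 * l - 2 * Real.logb 2 l - x) * (x / 2 * Real.log 2) =
      x * Real.log n - x * Real.log l - x ^ 2 / 2 * Real.log 2 := by
    rw [hln, ← hll]
    ring
  have hD : x * Real.log l ≤ 6 * Real.log l := mul_le_mul_of_nonneg_right hx4 hlogl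
  have hE : x ^ 2 / 2 * Real.log 2 ≤ 18 := by
    have : x ^ 2 / 2 ≤ 18 := by nlinarith
    nlinarith
  have hF : (x - κ) * Real.log n = x * Real.log n - κ * Real.log n := by ring
  rw [hF]
  linarith

end ZS51
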