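import Pool.Agent.ZS51.Params
import Pool.Agent.ZS51.MuLow6
import Pool.Agent.ZS51.LogDesc

/-!
# ZS51/Term: every term of the large sum is at most one

`A = al0 n - 1 - 2/log 2`, `k = kk ε n`, `a = n / k`, `r = n % k`, `p = r/k`, `X = al0 n - a`, `u = t₁ ≤ r`, `v = t₀`,
`w = u + v ≤ k`, `m = u (a+1) + v a = w a + u ≤ n`.  By `params`: `a + p ≤ A - ε`, so `X ≥ 1 + 2/log 2 + ε + p`
(in particular `X ≥ 3.88`), `a + 1 ≤ 2 log₂ n = (2/log 2) log n`, `a ≥ log n + 1`.
PROOF. Take logarithms. `C(k,t) ≤ k^t/t!`, `log t! ≥ t log t - t` (`ZZ51.log_factorial_ge`; `Real.log 0 = 0` in Lean).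
`mu n (a+1) = (n)_{a+1}/β₁ ≤ n^{a+1}/β₁`, `mu n a ≤ n^a (a+1)²/β₀`, so by `mu_lower6` (κ = ε/20):
`log β₁ ≤ (a+1) log n - (X - 1 - κ) log n`, `log β₀ ≤ a log n - (X - κ) log n + 2 log (a+1)`.
`log (n)_m ≥ m log n - m + (n-m) log (n/(n-m))` (`log_desc_ge`: `log (n-i) ≥ ∫_{n-i-1}^{n-i} log`; for `m = n` the last
product is `0 · log(n/0) = 0`).  So it is enough that (♦)
`w (2 log k + 1 + 2 log (a+1)) - u log u - v log v - [u (X-1-κ) + v (X-κ)] log n + m - (n-m) log (n/(n-m)) ≤ 0`.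
`w = 0`: all terms vanish. Let `η = ε/20`.
Case A, `1 ≤ w ≤ n^{1-η}`: `(n-m) log (n/(n-m)) ≥ (n-m) m/n`, so `m - (n-m) log(..) ≤ m²/n ≤ w (a+1)² n^{-η}`; drop
`-u log u - v log v ≤ 0`; total `≤ w log n (2 + o(1) - (X - 1 - κ)) ≤ 0` as `X - 1 ≥ 2.88`.
Case B, `w > n^{1-η}`: `- u log u ≤ -(1-2η) u log n + n^{1-2η} log n` (true whether `u ≥ n^{1-2η}` or not), same for `v`;
`m = w a + u ≤ w (2/log 2) log n + w`; `2 log k ≤ 2 log n`. So the left side of (♦) is at most
`log n [ w (1 + 2η + κ + o(1) + 2/log 2 - X) + u ] - (n-m) log (n/(n-m)) + 2 n^{1-2η} log n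
 ≤ log n [ -(ε - 2η - κ - o(1)) w + (u - w p) ] - (n-m) log (n/(n-m)) + 2 n^{1-2η} log n`.
Now `u - w p ≤ w (k-w)/k`: `u ≤ r = p k` gives `u - w p ≤ p (k-w)`, `u ≤ w` gives `u - w p ≤ w (1-p)`, and the smaller of
`p (k-w)`, `w (1-p)` is `≤ w (k-w)/k` (compare `p` with `w/k`). And
`(n-m) log (n/(n-m)) ≥ (n-m) m/n ≥ (k-w) a · w a/(k (a+1)) ≥ (a-1) w (k-w)/k ≥ log n · w (k-w)/k`
(`n - m = (k-w) a + (r-u) ≥ (k-w) a`, `m ≥ w a`, `n ≤ k (a+1)`, `a² ≥ (a-1)(a+1)`).  What remains is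
`-(ε/2) w log n + 2 n^{1-2η} log n ≤ 0` since `w > n^{1-η}` and `n^η ≥ 4/ε`.
-/

set_option autoImplicit false

open Filter Topology ZZ51

namespace ZS51

/-- `C(k,t) ≤ k^t/t!` in logarithmic form -/
private theorem log_choose_le (k t : ℕ) (ht : t ≤ k) :
    Real.log (k.choose t : ℝ) ≤ t * Real.log k - t * Real.log t + t := by
  rcases Nat.eq_zero_or_pos t with h0 | h0
  · subst h0
    simp
  have h1 : t.factorial * k.choose t ≤ k ^ t := by
    rw [← Nat.descFactorial_eq_factorial_mul_choose]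
    exact Nat.descFactorial_le_pow k t
  have h2 : ((t.factorial : ℝ)) * (k.choose t : ℝ) ≤ (k : ℝ) ^ t := by exact_mod_cast h1
  have hf : (0 : ℝ) < (t.factorial : ℝ) := by exact_mod_cast Nat.factorial_pos t
  have hc : (0 : ℝ) < (k.choose t : ℝ) := by exact_mod_cast Nat.choose_pos ht
  have h3 := Real.log_le_log (mul_pos hf hc) h2
  rw [Real.log_mul hf.ne' hc.ne', Real.log_pow] at h3
  have h4 := log_factorial_ge t h0
  linarith

/-- `b! 2^{C(b,2)}` from above, through `mu` -/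
private theorem log_be_le (n b : ℕ) (κ : ℝ) (hn : 1 ≤ n)
    (h : (n : ℝ) ^ (al0 n - b - κ) ≤ mu n b) :
    Real.log ((b.factorial : ℝ) * (2 : ℝ) ^ (b.choose 2)) ≤
      b * Real.log n - (al0 n - b - κ) * Real.log n := by
  have hn0 : (0 : ℝ) < n := by exact_mod_cast hn
  have hb : (0 : ℝ) < (b.factorial : ℝ) * (2 : ℝ) ^ (b.choose 2) := by positivity
  have hp : 0 < (n : ℝ) ^ (al0 n - b - κ) := Real.rpow_pos_of_pos hn0 _
  have h1 : ((b.factorial : ℝ) * (2 : ℝ) ^ (b.choose 2)) * mu n b ≤ (n : ℝ) ^ b := by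
    have h2 : b.factorial * n.choose b ≤ n ^ b := by
      rw [← Nat.descFactorial_eq_factorial_mul_choose]
      exact Nat.descFactorial_le_pow n b
    have h3 : ((b.factorial : ℝ)) * (n.choose b : ℝ) ≤ (n : ℝ) ^ b := by exact_mod_cast h2
    refine le_trans (le_of_eq ?_) h3
    unfold mu
    field_simp
  have h2 := Real.log_le_log (mul_pos hb (hp.trans_le h)) h1
  rw [Real.log_mul hb.ne' (hp.trans_le h).ne', Real.log_pow] at h2
  have h3 := Real.log_le_log hp h
  rw [Real.log_rpow hn0] at h3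
  linarith

private theorem ev_facts (ε : ℝ) (hε : 0 < ε) : ∀ᶠ n : ℕ in atTop,
    10 ≤ Real.log n ∧ (2 * Real.logb 2 (n : ℝ)) ^ 2 ≤ (n : ℝ) ^ (ε / 20) ∧
      4 / ε ≤ (n : ℝ) ^ (ε / 20) ∧
      1 + 2 * Real.log (2 * Real.logb 2 (n : ℝ)) ≤ ε / 10 * Real.log n := by
  have hl2 : 0 < Real.log 2 := Real.log_pos (by norm_num)
  have hl2' : Real.log 2 ≤ 1 := by
    have := Real.log_two_lt_d9
    linarith
  have e1 : ∀ᶠ n : ℕ in atTop, 10 ≤ Real.log (n : ℝ) :=
    (Real.tendsto_log_atTop.comp tendsto_natCast_atTop_atTop).eventually_ge_atTop 10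
  have e2 : ∀ᶠ n : ℕ in atTop, (2 * Real.logb 2 (n : ℝ)) ^ 2 ≤ (n : ℝ) ^ (ε / 20) := by
    have h0 := (isLittleO_log_rpow_atTop (show 0 < ε / 40 by positivity)).bound
      (show (0 : ℝ) < Real.log 2 / 2 by positivity)
    have h1 : ∀ᶠ x : ℝ in atTop, (2 * Real.logb 2 x) ^ 2 ≤ x ^ (ε / 20) := by
      filter_upwards [h0, eventually_ge_atTop (1 : ℝ)] with x hx hx1
      have hx0 : 0 < x := by linarith
      rw [Real.norm_of_nonneg (Real.log_nonneg hx1),
        Real.norm_of_nonneg (Real.rpow_nonneg hx0.le _)] at hx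
      have h2 : 2 * Real.logb 2 x ≤ x ^ (ε / 40) := by
        rw [Real.logb, ← mul_div_assoc, div_le_iff₀ hl2]
        linarith
      have h3 : 0 ≤ 2 * Real.logb 2 x := by
        have : 0 ≤ Real.logb 2 x := Real.logb_nonneg (by norm_num) hx1
        linarith
      calc (2 * Real.logb 2 x) ^ 2 ≤ (x ^ (ε / 40)) ^ 2 := pow_le_pow_left₀ h3 h2 2
        _ = x ^ (ε / 20) := by
          rw [← Real.rpow_natCast, ← Real.rpow_mul hx0.le]
          congr 1
          push_cast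
          ring
    exact tendsto_natCast_atTop_atTop.eventually h1
  have e3 : ∀ᶠ n : ℕ in atTop, 4 / ε ≤ (n : ℝ) ^ (ε / 20) :=
    ((tendsto_rpow_atTop (show 0 < ε / 20 by positivity)).comp
      tendsto_natCast_atTop_atTop).eventually_ge_atTop _
  have e4 : ∀ᶠ n : ℕ in atTop,
      1 + 2 * Real.log (2 * Real.logb 2 (n : ℝ)) ≤ ε / 10 * Real.log n := by
    have h1 : ∀ᶠ y : ℝ in atTop, 1 + 2 * Real.log (2 * y) ≤ ε / 10 * Real.log 2 * y := by
      have hc : 0 < ε / 40 * Real.log 2 := by positivity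
      have ha := Real.isLittleO_log_id_atTop.bound hc
      filter_upwards [ha, eventually_ge_atTop (60 / (ε * Real.log 2)),
        eventually_ge_atTop (1 : ℝ)] with y h1 h2 h3
      simp only [id, Real.norm_eq_abs] at h1
      rw [abs_of_nonneg (Real.log_nonneg h3), abs_of_nonneg (by linarith)] at h1
      rw [div_le_iff₀ (by positivity)] at h2
      rw [Real.log_mul (by norm_num) (by linarith)]
      nlinarith
    filter_upwards [muLow_logb_tendsto.eventually h1] with n hn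
    refine hn.trans (le_of_eq ?_)
    rw [Real.logb]
    field_simp
  filter_upwards [e1, e2, e3, e4] with n h1 h2 h3 h4
  exact ⟨h1, h2, h3, h4⟩

/-- the inequality of real numbers -/
private theorem core {ε n k a r u v w m L X lk la D lu lv N1 N2 c : ℝ}
    (hε : 0 < ε) (hε1 : ε ≤ 1) (hk : 1 ≤ k) (hL : 10 ≤ L) (haL : L + 1 ≤ a)
    (hn : n = k * a + r) (hrk : r ≤ k) (hu : 0 ≤ u) (hur : u ≤ r) (hv : 0 ≤ v)
    (hw : w = u + v) (hwk : w ≤ k) (hm : m = w * a + u) (hc : 2.88 ≤ c)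
    (hX : 1 + c + ε + r / k ≤ X) (haL2 : a + 1 ≤ c * L) (hlk : lk ≤ L)
    (hla : 1 + 2 * la ≤ ε / 10 * L) (hla0 : 0 ≤ la) (hD : (n - m) * m / n ≤ D)
    (hlu : 0 ≤ lu) (hlv : 0 ≤ lv) (hlu' : (1 - ε / 10) * u * L - N2 * L ≤ lu)
    (hlv' : (1 - ε / 10) * v * L - N2 * L ≤ lv) (hN1 : (a + 1) ^ 2 * N1 ≤ n)
    (hN2 : 2 * N2 ≤ ε / 2 * N1) :
    2 * w * lk + w - lu - lv - u * ((X - 1 - ε / 20) * L) - v * ((X - ε / 20) * L)
      + 2 * v * la + m - D ≤ 0 := by
  have ha0 : 11 ≤ a := by linarith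
  have hr0 : 0 ≤ r := hu.trans hur
  have hka : 0 < k * a := by positivity
  have hn0 : 0 < n := by linarith
  have hw0 : 0 ≤ w := by linarith
  have hvw : v ≤ w := by linarith
  have huw : u ≤ w := by linarith
  have hL0 : 0 ≤ L := by linarith
  have hrk0 : 0 ≤ r / k := by positivity
  have h1 : w * lk ≤ w * L := mul_le_mul_of_nonneg_left hlk hw0
  have h2 : v * la ≤ w * la := mul_le_mul_of_nonneg_right hvw hla0
  have h3 : w * (1 + 2 * la) ≤ w * (ε / 10 * L) := mul_le_mul_of_nonneg_left hla hw0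
  have hvL : 0 ≤ v * L := by positivity
  rcases le_or_gt w N1 with hA | hB
  · -- case A
    have h4 : m ≤ w * (a + 1) := by rw [hm]; linarith
    have hm0 : 0 ≤ m := by rw [hm]; positivity
    have h5 : m ^ 2 ≤ w * n := by
      calc m ^ 2 ≤ (w * (a + 1)) ^ 2 := pow_le_pow_left₀ hm0 h4 2
        _ = w * ((a + 1) ^ 2 * w) := by ring
        _ ≤ w * ((a + 1) ^ 2 * N1) := by gcongr
        _ ≤ w * n := by gcongr
    have h6 : m ^ 2 / n ≤ w := by
      rw [div_le_iff₀ hn0]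
      exact h5
    have h7 : (n - m) * m / n = m - m ^ 2 / n := by
      field_simp
    have h8 : w * ((1 + c + ε - 1 - ε / 20) * L) ≤ w * ((X - 1 - ε / 20) * L) := by
      gcongr
      linarith
    have h9 : w * (2.88 * L) ≤ w * ((1 + c + ε - 1 - ε / 20) * L) := by
      gcongr
      linarith
    have h10 : w * (ε / 10 * L) ≤ w * (1 / 10 * L) := by gcongr
    have h11 : w * 10 ≤ w * L := mul_le_mul_of_nonneg_left hL hw0
    have h12 : u * ((X - 1 - ε / 20) * L) + v * ((X - ε / 20) * L) =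
        w * ((X - 1 - ε / 20) * L) + v * L := by rw [hw]; ring
    have h13 : 0 ≤ w * L := by positivity
    nlinarith
  · -- case B
    have hwpos : 0 ≤ w := hw0
    have hkw : 0 ≤ k - w := by linarith
    have hk0 : 0 < k := by linarith
    have hm1 : w * a ≤ m := by rw [hm]; linarith
    have hnm : (k - w) * a ≤ n - m := by
      rw [hm, hn]
      nlinarith
    have hnk : n ≤ k * (a + 1) := by rw [hn]; linarith
    have h4 : w * (k - w) / k * L ≤ (n - m) * m / n := by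
      rw [le_div_iff₀ hn0]
      have h5 : ((k - w) * a) * (w * a) ≤ (n - m) * m := by
        have : 0 ≤ (k - w) * a := by positivity
        have h6 : 0 ≤ w * a := by positivity
        exact mul_le_mul hnm hm1 h6 (this.trans hnm)
      refine le_trans ?_ h5
      have h6 : 0 ≤ w * (k - w) / k * L := by positivity
      calc w * (k - w) / k * L * n ≤ w * (k - w) / k * L * (k * (a + 1)) :=
            mul_le_mul_of_nonneg_left hnk h6
        _ = (w * (k - w)) * (L * (a + 1)) := by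
            field_simp
        _ ≤ (w * (k - w)) * (a * a) := by
            apply mul_le_mul_of_nonneg_left _ (by positivity)
            nlinarith
        _ = ((k - w) * a) * (w * a) := by ring
    have h5 : u - w * (r / k) ≤ w * (k - w) / k := by
      rw [le_div_iff₀ hk0, sub_mul]
      have h6 : w * (r / k) * k = w * r := by field_simp
      rw [h6]
      rcases le_or_gt r w with h7 | h7
      · nlinarith
      · nlinarith
    have h6 : (u - w * (r / k)) * L ≤ w * (k - w) / k * L := mul_le_mul_of_nonneg_right h5 hL0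
    have h7 : m ≤ w * (c * L) := by
      calc m ≤ w * (a + 1) := by rw [hm]; linarith
        _ ≤ w * (c * L) := by gcongr
    have h8 : w * ((1 + c + ε + r / k) * L) ≤ w * (X * L) := by gcongr
    have h9 : u * ((X - 1 - ε / 20) * L) + v * ((X - ε / 20) * L) =
        w * (X * L) - ε / 20 * (w * L) - u * L := by rw [hw]; ring
    have h10 : 2 * N2 * L ≤ ε / 2 * w * L := by
      have : 2 * N2 ≤ ε / 2 * w := hN2.trans (by gcongr)
      exact mul_le_mul_of_nonneg_right this hL0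
    have h11 : (1 - ε / 10) * u * L + (1 - ε / 10) * v * L = (w - ε / 10 * w) * L := by
      rw [hw]; ring
    have h12 : 0 ≤ ε * w * L := by positivity
    nlinarith

theorem term_le (ε : ℝ) (hε : 0 < ε) (hε1 : ε ≤ 1) : ∀ᶠ n : ℕ in atTop, ∀ t₁ t₀ : ℕ,
    t₁ ≤ n % kk ε n → t₁ + t₀ ≤ kk ε n →
    ((kk ε n).choose t₁ : ℝ) * ((kk ε n).choose t₀ : ℝ)
        * ((kk ε n : ℝ) * be1 (n / kk ε n)) ^ t₁ * ((kk ε n : ℝ) * be0 (n / kk ε n)) ^ t₀
      ≤ (n.descFactorial (t₁ * (n / kk ε n + 1) + t₀ * (n / kk ε n)) : ℝ) := by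
  filter_upwards [params ε hε hε1, mu_lower6 (ε / 20) (by positivity), ev_facts ε hε,
    eventually_ge_atTop 1] with n hp hmu hev hn1
  obtain ⟨hk1, hkn, hnk, -, ha6, haL2, haL, hX⟩ := hp
  obtain ⟨hL, hE2, hE3, hE4⟩ := hev
  intro t₁ t₀ ht1 ht2
  generalize hkdef : kk ε n = k at *
  generalize hadef : n / k = a at *
  generalize hrdef : n % k = r at *
  have hn0 : (0 : ℝ) < n := by exact_mod_cast hn1
  have hk0 : (1 : ℝ) ≤ k := by exact_mod_cast hk1
  have hkpos : (0 : ℝ) < k := by linarith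
  have hnka : n = k * a + r := by
    rw [← hadef, ← hrdef]
    exact (Nat.div_add_mod n k).symm
  have hnkaR : (n : ℝ) = k * a + r := by exact_mod_cast hnka
  have hrk : r < k := by
    rw [← hrdef]
    exact Nat.mod_lt _ hk1
  have hrkR : (r : ℝ) ≤ k := by exact_mod_cast hrk.le
  have hmn : t₁ * (a + 1) + t₀ * a ≤ n := by
    rw [hnka]
    calc t₁ * (a + 1) + t₀ * a = (t₁ + t₀) * a + t₁ := by ring
      _ ≤ k * a + r := by gcongr
  obtain ⟨m, hmdef⟩ : ∃ m : ℕ, m = t₁ * (a + 1) + t₀ * a := ⟨_, rfl⟩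
  rw [← hmdef] at hmn ⊢
  have hmR : (m : ℝ) = ((t₁ : ℝ) + t₀) * a + t₁ := by
    rw [hmdef]
    push_cast
    ring
  have hmnR : (m : ℝ) ≤ n := by exact_mod_cast hmn
  -- positivity
  have hC1 : (0 : ℝ) < (k.choose t₁ : ℝ) := by exact_mod_cast Nat.choose_pos (by omega)
  have hC0 : (0 : ℝ) < (k.choose t₀ : ℝ) := by exact_mod_cast Nat.choose_pos (by omega)
  have hb1 : 0 < be1 a := by
    unfold be1
    positivity
  have hb0 : 0 < be0 a := by
    unfold be0
    positivity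
  have hdesc : (0 : ℝ) < (n.descFactorial m : ℝ) := by
    have : 0 < n.descFactorial m := Nat.pos_of_ne_zero fun h =>
      absurd (Nat.descFactorial_eq_zero_iff_lt.1 h) (by omega)
    exact_mod_cast this
  have hp1 : 0 < ((k : ℝ) * be1 a) ^ t₁ := by positivity
  have hp0 : 0 < ((k : ℝ) * be0 a) ^ t₀ := by positivity
  rw [← Real.log_le_log_iff (by positivity) hdesc]
  rw [Real.log_mul (by positivity) hp0.ne', Real.log_mul (by positivity) hp1.ne',
    Real.log_mul hC1.ne' hC0.ne', Real.log_pow, Real.log_pow,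
    Real.log_mul hkpos.ne' hb1.ne', Real.log_mul hkpos.ne' hb0.ne']
  -- constants
  have hl2 : 0 < Real.log 2 := Real.log_pos (by norm_num)
  have hc : (2.88 : ℝ) ≤ 2 / Real.log 2 := by
    rw [le_div_iff₀ hl2]
    have := Real.log_two_lt_d9
    nlinarith
  have haR : 11 ≤ (a : ℝ) := by linarith
  have haL2' : (a : ℝ) + 1 ≤ 2 / Real.log 2 * Real.log n := by
    refine haL2.trans (le_of_eq ?_)
    rw [Real.logb]
    ring
  have hrk0 : (0 : ℝ) ≤ (r : ℝ) / k := by positivity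
  have hc0 : 0 < 2 / Real.log 2 := by positivity
  -- the logarithms
  have l1 := log_choose_le k t₁ (by omega)
  have l0 := log_choose_le k t₀ (by omega)
  have b1 : Real.log (be1 a) ≤ ((a : ℝ) + 1) * Real.log n -
      (al0 n - a - 1 - ε / 20) * Real.log n := by
    have h1 := hmu (a + 1) (by push_cast; linarith) (by push_cast; linarith)
    have h2 := log_be_le n (a + 1) (ε / 20) hn1 h1
    unfold be1
    push_cast at h2 ⊢
    refine h2.trans (le_of_eq ?_)
    ring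
  have b0 : Real.log (be0 a) ≤ (a : ℝ) * Real.log n -
      (al0 n - a - ε / 20) * Real.log n + 2 * Real.log ((a : ℝ) + 1) := by
    have h1 := hmu a (by linarith) (by linarith)
    have h2 := log_be_le n a (ε / 20) hn1 h1
    have h3 : be0 a = (((a : ℝ) + 1) ^ 2) * ((a.factorial : ℝ) * (2 : ℝ) ^ (a.choose 2)) := by
      unfold be0
      rw [Nat.factorial_succ]
      push_cast
      ring
    rw [h3, Real.log_mul (by positivity) (by positivity), Real.log_pow]
    push_cast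
    linarith
  have hd := log_desc_ge n m hmn
  have hlogk : Real.log k ≤ Real.log n := Real.log_le_log hkpos (by exact_mod_cast hkn)
  have hla0 : 0 ≤ Real.log ((a : ℝ) + 1) := Real.log_nonneg (by linarith)
  have hla : 1 + 2 * Real.log ((a : ℝ) + 1) ≤ ε / 10 * Real.log n := by
    refine le_trans ?_ hE4
    have : Real.log ((a : ℝ) + 1) ≤ Real.log (2 * Real.logb 2 (n : ℝ)) :=
      Real.log_le_log (by linarith) haL2
    linarith
  -- the term `D`
  have hD : ((n : ℝ) - m) * m / n ≤ ((n : ℝ) - m) * Real.log ((n : ℝ) / ((n : ℝ) - m)) := by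
    rcases eq_or_lt_of_le hmnR with h | h
    · rw [← h]
      simp
    · have h1 : 0 < (n : ℝ) - m := by linarith
      have h2 : 1 - ((n : ℝ) / ((n : ℝ) - m))⁻¹ ≤ Real.log ((n : ℝ) / ((n : ℝ) - m)) :=
        Real.one_sub_inv_le_log_of_pos (by positivity)
      have h3 : ((n : ℝ) - m) * m / n = ((n : ℝ) - m) * (1 - ((n : ℝ) / ((n : ℝ) - m))⁻¹) := by
        rw [inv_div]
        field_simp
        ring
      rw [h3]
      exact mul_le_mul_of_nonneg_left h2 h1.le
  -- powers of `n`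
  have hN1 : ((a : ℝ) + 1) ^ 2 * (n : ℝ) ^ (1 - ε / 20) ≤ n := by
    have h1 : ((a : ℝ) + 1) ^ 2 ≤ (n : ℝ) ^ (ε / 20) :=
      (pow_le_pow_left₀ (by linarith) haL2 2).trans hE2
    calc ((a : ℝ) + 1) ^ 2 * (n : ℝ) ^ (1 - ε / 20)
        ≤ (n : ℝ) ^ (ε / 20) * (n : ℝ) ^ (1 - ε / 20) := by gcongr
      _ = n := by
        rw [← Real.rpow_add hn0, show ε / 20 + (1 - ε / 20) = 1 by ring, Real.rpow_one]
  have hN2 : 2 * (n : ℝ) ^ (1 - ε / 10) ≤ ε / 2 * (n : ℝ) ^ (1 - ε / 20) := by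
    have h1 : (n : ℝ) ^ (1 - ε / 20) = (n : ℝ) ^ (ε / 20) * (n : ℝ) ^ (1 - ε / 10) := by
      rw [← Real.rpow_add hn0]
      congr 1
      ring
    rw [h1]
    have h2 : 0 < (n : ℝ) ^ (1 - ε / 10) := Real.rpow_pos_of_pos hn0 _
    have h3 : 4 ≤ (n : ℝ) ^ (ε / 20) * ε := by
      rw [div_le_iff₀ hε] at hE3
      exact hE3
    nlinarith
  have hxl : ∀ t : ℕ, (1 - ε / 10) * (t : ℝ) * Real.log n -
      (n : ℝ) ^ (1 - ε / 10) * Real.log n ≤ t * Real.log t := by
    intro t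
    have hP : 0 < (n : ℝ) ^ (1 - ε / 10) := Real.rpow_pos_of_pos hn0 _
    have hlog0 : 0 ≤ Real.log n := by linarith
    rcases le_or_gt ((n : ℝ) ^ (1 - ε / 10)) t with h | h
    · have h1 : (1 - ε / 10) * Real.log n ≤ Real.log t := by
        rw [← Real.log_rpow hn0]
        exact Real.log_le_log hP h
      have h2 : (t : ℝ) * ((1 - ε / 10) * Real.log n) ≤ t * Real.log t :=
        mul_le_mul_of_nonneg_left h1 (Nat.cast_nonneg t)
      have h3 : 0 ≤ (n : ℝ) ^ (1 - ε / 10) * Real.log n := by positivity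
      linarith
    · have h1 : 0 ≤ (t : ℝ) * Real.log t :=
        mul_nonneg (Nat.cast_nonneg t) (Real.log_natCast_nonneg t)
      have h2 : (1 - ε / 10) * (t : ℝ) ≤ (n : ℝ) ^ (1 - ε / 10) := by
        have : 0 ≤ ε / 10 * (t : ℝ) := by positivity
        linarith
      have h3 := mul_le_mul_of_nonneg_right h2 hlog0
      linarith
  have key := core (ε := ε) (n := n) (k := k) (a := a) (r := r) (u := t₁) (v := t₀)
    (w := (t₁ : ℝ) + t₀) (m := m) (L := Real.log n) (X := al0 n - a) (lk := Real.log k)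
    (la := Real.log ((a : ℝ) + 1))
    (D := ((n : ℝ) - m) * Real.log ((n : ℝ) / ((n : ℝ) - m))) (lu := t₁ * Real.log t₁)
    (lv := t₀ * Real.log t₀) (N1 := (n : ℝ) ^ (1 - ε / 20)) (N2 := (n : ℝ) ^ (1 - ε / 10))
    (c := 2 / Real.log 2) hε hε1 hk0 hL haL hnkaR hrkR (Nat.cast_nonneg _)
    (by exact_mod_cast ht1) (Nat.cast_nonneg _) rfl (by exact_mod_cast ht2) hmR hc
    (by linarith) haL2' hlogk hla hla0 hD
    (mul_nonneg (Nat.cast_nonneg _) (Real.log_natCast_nonneg _))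
    (mul_nonneg (Nat.cast_nonneg _) (Real.log_natCast_nonneg _)) (hxl t₁) (hxl t₀) hN1 hN2
  have m1 : (t₁ : ℝ) * (Real.log k + Real.log (be1 a)) ≤ t₁ * (Real.log k +
      (((a : ℝ) + 1) * Real.log n - (al0 n - a - 1 - ε / 20) * Real.log n)) := by
    gcongr
  have m0 : (t₀ : ℝ) * (Real.log k + Real.log (be0 a)) ≤ t₀ * (Real.log k +
      ((a : ℝ) * Real.log n - (al0 n - a - ε / 20) * Real.log n +
        2 * Real.log ((a : ℝ) + 1))) := by
    gcongr
  have hmL : (m : ℝ) * Real.log n = (((t₁ : ℝ) + t₀) * a + t₁) * Real.log n := by rw [hmR]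
  linarith

end ZS51
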