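import Pool.Agent.ZS51.Second
import Pool.Agent.ZS51.Large
import Pool.Agent.ZS51.LargeSum
import Pool.Agent.ZS51.Term
import Pool.Agent.ZS51.Anal
import Pool.Agent.ZS51.AnalQ
import Pool.Agent.ZS51.Conc

/-!
# ZS51/Final: the sharp upper bound

`col_lower`: `k = kk ε n`, `s = sz n k`, `θ = (a+1)/2`, `b = a+1 < 2(θ+1)`.  `second_moment` with `Q = exp (n^{19/20})`:
for `f ∈ Om0 s`: `large_decomp` (M = exp (n^{23/25}), `med_all`), `large_sum` (q = n^{-2/5}, `q_bound`), `term_le`: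
every term is at most `(1+q)^{t₀} ≤ exp (k q) ≤ exp (n^{3/5})`, number of terms `≤ (k+1)²`.  Total
`≤ |Om0 s| exp (n^{23/25}) (n+1)² exp (n^{3/5}) ≤ |Om0 s| exp (n^{19/20})`.
`sharp`: given `ε > 0`, put `ε' = min ε 1 / 2`, `k = kk ε' n`, `y = k + ⌈n^{49/50}⌉₊`. `1 - T n k = Pr (Colorable k) ≥
exp (-n^{19/20})`, so by `conc`, `T n y ≤ exp (n^{19/20} - n^{24/25}/8) → 0`; and `y ≤ n/(A - ε)` for large `n`
(`n/(A-ε) - n/(A-ε') ≥ n (ε-ε')/A²`), so `χ ≤ n/(A - ε)` with probability `≥ 1 - T n y → 1`.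
-/

set_option autoImplicit false

open Filter Topology ZZ51

namespace ZS51

private lemma fi_log (C : ℝ) (m : ℕ) {r : ℝ} (hr : 0 < r) :
    ∀ᶠ n : ℕ in atTop, C * (Real.log n) ^ m ≤ (n : ℝ) ^ r := by
  have h1 : (fun x : ℝ => Real.log x ^ (m : ℝ)) =o[atTop] fun x => x ^ r :=
    isLittleO_log_rpow_rpow_atTop (m : ℝ) hr
  have h2 := (h1.const_mul_left C).comp_tendsto (tendsto_natCast_atTop_atTop (R := ℝ))
  have h3 := h2.bound one_pos
  filter_upwards [h3] with n hn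
  simp only [Function.comp_apply, one_mul] at hn
  rw [Real.rpow_natCast] at hn
  have h4 : (0 : ℝ) ≤ (n : ℝ) ^ r := Real.rpow_nonneg (Nat.cast_nonneg n) r
  rw [Real.norm_of_nonneg h4] at hn
  exact (le_abs_self _).trans hn

private lemma fi_pow (C : ℝ) {p q : ℝ} (hpq : p < q) :
    ∀ᶠ n : ℕ in atTop, C * (n : ℝ) ^ p ≤ (n : ℝ) ^ q := by
  have h1 : ∀ᶠ n : ℕ in atTop, C ≤ (n : ℝ) ^ (q - p) :=
    ((tendsto_rpow_atTop (sub_pos.2 hpq)).comp tendsto_natCast_atTop_atTop).eventually_ge_atTop C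
  filter_upwards [h1, eventually_ge_atTop 1] with n hn hn1
  have hn0 : (0 : ℝ) < n := by exact_mod_cast hn1
  have h2 : (n : ℝ) ^ q = (n : ℝ) ^ (q - p) * (n : ℝ) ^ p := by
    rw [← Real.rpow_add hn0]
    congr 1
    ring
  rw [h2]
  exact mul_le_mul_of_nonneg_right hn (Real.rpow_nonneg hn0.le _)

private lemma fi_exp : ∀ᶠ n : ℕ in atTop,
    Real.exp ((n : ℝ) ^ (23 / 25 : ℝ)) * (((n : ℝ) + 1) * (((n : ℝ) + 1) *
      Real.exp ((n : ℝ) ^ (3 / 5 : ℝ)))) ≤ Real.exp ((n : ℝ) ^ (19 / 20 : ℝ)) := by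
  filter_upwards [fi_pow 3 (show (23 / 25 : ℝ) < 19 / 20 by norm_num),
    fi_pow 3 (show (3 / 5 : ℝ) < 19 / 20 by norm_num),
    fi_log 12 1 (show (0 : ℝ) < 19 / 20 by norm_num),
    (Real.tendsto_log_atTop.comp tendsto_natCast_atTop_atTop).eventually_ge_atTop 1,
    eventually_ge_atTop 1] with n h1 h2 h3 h4 hn1
  have hn0 : (1 : ℝ) ≤ n := by exact_mod_cast hn1
  have h4' : 1 ≤ Real.log (n : ℝ) := h4
  rw [pow_one] at h3
  have h5 : (n : ℝ) + 1 ≤ Real.exp (Real.log n + 1) := by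
    rw [Real.exp_add, Real.exp_log (by linarith)]
    have := Real.add_one_le_exp (1 : ℝ)
    nlinarith
  calc Real.exp ((n : ℝ) ^ (23 / 25 : ℝ)) * (((n : ℝ) + 1) * (((n : ℝ) + 1) *
        Real.exp ((n : ℝ) ^ (3 / 5 : ℝ))))
      ≤ Real.exp ((n : ℝ) ^ (23 / 25 : ℝ)) * (Real.exp (Real.log n + 1) *
        (Real.exp (Real.log n + 1) * Real.exp ((n : ℝ) ^ (3 / 5 : ℝ)))) := by gcongr
    _ = Real.exp ((n : ℝ) ^ (23 / 25 : ℝ) + ((Real.log n + 1) + ((Real.log n + 1) +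
        (n : ℝ) ^ (3 / 5 : ℝ)))) := by
        rw [← Real.exp_add, ← Real.exp_add, ← Real.exp_add]
    _ ≤ Real.exp ((n : ℝ) ^ (19 / 20 : ℝ)) := by
        apply Real.exp_le_exp.2
        linarith

theorem col_lower (ε : ℝ) (hε : 0 < ε) (hε1 : ε ≤ 1) : ∀ᶠ n : ℕ in atTop,
    Real.exp (-((n : ℝ) ^ (19 / 20 : ℝ))) ≤ Pr n (fun G => G.Colorable (kk ε n)) := by
  filter_upwards [params ε hε hε1, med_all ε hε hε1, q_bound ε hε hε1, term_le ε hε hε1,
    fi_exp, eventually_ge_atTop 1] with n hp hm hq ht he hn1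
  obtain ⟨hk1, hkn, -⟩ := hp
  have hn0 : (1 : ℝ) ≤ n := by exact_mod_cast hn1
  have hk0 : 0 < kk ε n := hk1
  have h := second_moment (n := n) (sz n (kk ε n)) (sz_sum n _ hk0)
    (Real.exp ((n : ℝ) ^ (19 / 20 : ℝ))) (Real.exp_pos _) ?_
  · rw [Real.exp_neg, ← one_div]
    exact h
  intro f hf
  have hsb := fun j => sz_le n (kk ε n) j
  have h1 := large_decomp (sz n (kk ε n)) (sz_sum n _ hk0) (n / kk ε n + 1)
    ((n / kk ε n + 1) / 2) (by omega) hsb f hf (Real.exp ((n : ℝ) ^ (23 / 25 : ℝ)))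
    (Real.exp_pos _).le (fun D h => hm _ f (sz_sum n _ hk0) hsb hf D h)
  have h2 := large_sum n (kk ε n) hk0 ((n / kk ε n + 1) / 2) _ f hf hq
  have hmod : n % kk ε n < kk ε n := Nat.mod_lt _ hk0
  obtain ⟨q, hqd⟩ : ∃ q : ℝ, q = (n : ℝ) ^ (-(2 / 5) : ℝ) := ⟨_, rfl⟩
  rw [← hqd] at h2
  have hq0 : 0 ≤ q := by rw [hqd]; positivity
  have hb1 : 0 ≤ be1 (n / kk ε n) := by unfold be1; positivity
  have hb0 : 0 ≤ be0 (n / kk ε n) := by unfold be0; positivity
  have hterm : ∀ t₁ ∈ Finset.range (n % kk ε n + 1), ∀ t₀ ∈ Finset.range (kk ε n - t₁ + 1),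
      ((kk ε n).choose t₁ : ℝ) * ((kk ε n).choose t₀ : ℝ)
        * ((kk ε n : ℝ) * be1 (n / kk ε n)) ^ t₁
        * ((kk ε n : ℝ) * be0 (n / kk ε n) * (1 + q)) ^ t₀
        / (n.descFactorial (t₁ * (n / kk ε n + 1) + t₀ * (n / kk ε n)) : ℝ) ≤
        Real.exp ((n : ℝ) ^ (3 / 5 : ℝ)) := by
    intro t₁ ht₁ t₀ ht₀
    rw [Finset.mem_range] at ht₁ ht₀
    have h3 := ht t₁ t₀ (by omega) (by omega)
    have h4 : (1 + q) ^ t₀ ≤ Real.exp ((n : ℝ) ^ (3 / 5 : ℝ)) := by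
      calc (1 + q) ^ t₀ ≤ (Real.exp q) ^ t₀ := by
            apply pow_le_pow_left₀ (by linarith)
            have := Real.add_one_le_exp q
            linarith
        _ = Real.exp (t₀ * q) := by rw [← Real.exp_nat_mul]
        _ ≤ Real.exp ((n : ℝ) ^ (3 / 5 : ℝ)) := by
            apply Real.exp_le_exp.2
            have h5 : (t₀ : ℝ) ≤ n := by exact_mod_cast (by omega : t₀ ≤ n)
            calc (t₀ : ℝ) * q ≤ n * q := by gcongr
              _ = (n : ℝ) ^ (3 / 5 : ℝ) := by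
                rw [hqd]
                nth_rewrite 1 [← Real.rpow_one (n : ℝ)]
                rw [← Real.rpow_add (by linarith)]
                norm_num
    refine div_le_of_le_mul₀ (by positivity) (Real.exp_pos _).le ?_
    rw [mul_pow _ (1 + q)]
    calc ((kk ε n).choose t₁ : ℝ) * ((kk ε n).choose t₀ : ℝ)
        * ((kk ε n : ℝ) * be1 (n / kk ε n)) ^ t₁
        * (((kk ε n : ℝ) * be0 (n / kk ε n)) ^ t₀ * (1 + q) ^ t₀)
        = (((kk ε n).choose t₁ : ℝ) * ((kk ε n).choose t₀ : ℝ)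
        * ((kk ε n : ℝ) * be1 (n / kk ε n)) ^ t₁
        * ((kk ε n : ℝ) * be0 (n / kk ε n)) ^ t₀) * (1 + q) ^ t₀ := by ring
      _ ≤ (n.descFactorial (t₁ * (n / kk ε n + 1) + t₀ * (n / kk ε n)) : ℝ) *
          Real.exp ((n : ℝ) ^ (3 / 5 : ℝ)) := by
          apply mul_le_mul h3 h4 (by positivity) (by positivity)
      _ = _ := by ring
  have h3 : LS (sz n (kk ε n)) f ((n / kk ε n + 1) / 2) ≤
      ((n : ℝ) + 1) * (((n : ℝ) + 1) * Real.exp ((n : ℝ) ^ (3 / 5 : ℝ))) := by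
    refine h2.trans ?_
    have hin : ∀ t₁ ∈ Finset.range (n % kk ε n + 1),
        ∑ t₀ ∈ Finset.range (kk ε n - t₁ + 1), ((kk ε n).choose t₁ : ℝ) *
        ((kk ε n).choose t₀ : ℝ) * ((kk ε n : ℝ) * be1 (n / kk ε n)) ^ t₁
        * ((kk ε n : ℝ) * be0 (n / kk ε n) * (1 + q)) ^ t₀
        / (n.descFactorial (t₁ * (n / kk ε n + 1) + t₀ * (n / kk ε n)) : ℝ) ≤
        ((n : ℝ) + 1) * Real.exp ((n : ℝ) ^ (3 / 5 : ℝ)) := by
      intro t₁ ht₁
      refine (Finset.sum_le_card_nsmul _ _ _ (hterm t₁ ht₁)).trans ?_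
      rw [Finset.card_range, nsmul_eq_mul]
      have : ((kk ε n - t₁ + 1 : ℕ) : ℝ) ≤ (n : ℝ) + 1 := by
        exact_mod_cast (by omega : kk ε n - t₁ + 1 ≤ n + 1)
      gcongr
    refine (Finset.sum_le_card_nsmul _ _ _ hin).trans ?_
    rw [Finset.card_range, nsmul_eq_mul]
    have : ((n % kk ε n + 1 : ℕ) : ℝ) ≤ (n : ℝ) + 1 := by
      exact_mod_cast (by omega : n % kk ε n + 1 ≤ n + 1)
    gcongr
  refine h1.trans ?_
  rw [mul_assoc]
  apply mul_le_mul_of_nonneg_left _ (Nat.cast_nonneg _)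
  exact (mul_le_mul_of_nonneg_left h3 (Real.exp_pos _).le).trans he

private lemma fi_col {n k : ℕ} {G : SimpleGraph (Fin n)} (h : G.Colorable k) :
    G.chromaticNumber.toNat ≤ k :=
  ENat.toNat_le_of_le_natCast (SimpleGraph.chromaticNumber_le_iff_colorable.2 h)

theorem sharp : ZZ51.Sharp := by
  intro ε hε
  obtain ⟨e, he⟩ : ∃ e : ℝ, e = min ε 1 / 2 := ⟨_, rfl⟩
  have hm0 : 0 < min ε 1 := lt_min hε one_pos
  have he0 : 0 < e := by rw [he]; positivity
  have he1 : e ≤ 1 := by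
    rw [he]
    have := min_le_right ε 1
    linarith
  have hee : e ≤ ε / 2 := by
    rw [he]
    have := min_le_left ε 1
    linarith
  have hle : ∀ n : ℕ, ∀ P : SimpleGraph (Fin n) → Prop, Pr n P ≤ 1 := by
    intro n P
    have h1 := Pr_compl n P
    have h2 := Pr_nonneg n (fun G => ¬ P G)
    linarith
  have hlow : ∀ᶠ n : ℕ in atTop, 1 - Real.exp (-((n : ℝ) ^ (19 / 20 : ℝ))) ≤ Pr n (fun G =>
      (G.chromaticNumber.toNat : ℝ) ≤ (n : ℝ) / (al0 n - 1 - 2 / Real.log 2 - ε)) := by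
    filter_upwards [col_lower e he0 he1, params e he0 he1,
      fi_pow 16 (show (19 / 20 : ℝ) < 24 / 25 by norm_num), al0_bounds,
      al0_tendsto.eventually_ge_atTop (5 + ε), fi_log (54 / ε) 2 (show (0 : ℝ) < 1 / 50 by norm_num),
      eventually_ge_atTop 1] with n hc hp h16 hb hal h50 hn1
    obtain ⟨-, -, -, hkk, -⟩ := hp
    obtain ⟨-, -, hb3, -⟩ := hb
    have hn0 : (1 : ℝ) ≤ n := by exact_mod_cast hn1
    have hl2 : 0 < Real.log 2 := Real.log_pos (by norm_num)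
    have hlog2 : 2 / Real.log 2 ≤ 3 := by
      rw [div_le_iff₀ hl2]
      have := Real.log_two_gt_d9
      linarith
    have hlog2' : 0 < 2 / Real.log 2 := by positivity
    obtain ⟨A, hA⟩ : ∃ A, A = al0 n - 1 - 2 / Real.log 2 := ⟨_, rfl⟩
    rw [← hA] at hkk ⊢
    have hA1 : 1 + ε ≤ A := by rw [hA]; linarith
    have hA3 : A ≤ 3 * Real.log n := by rw [hA]; linarith
    have hAε : 0 < A - ε := by linarith
    have hAe : 0 < A - e := by linarith
    have hA0 : 0 < A := by linarith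
    obtain ⟨c, hcd⟩ : ∃ c : ℕ, c = ⌈(n : ℝ) ^ (49 / 50 : ℝ)⌉₊ := ⟨_, rfl⟩
    have hc1 : (n : ℝ) ^ (49 / 50 : ℝ) ≤ c := by rw [hcd]; exact Nat.le_ceil _
    have hc2 : (c : ℝ) ≤ (n : ℝ) ^ (49 / 50 : ℝ) + 1 := by
      rw [hcd]
      exact (Nat.ceil_lt_add_one (by positivity)).le
    have hP1 : 1 ≤ (n : ℝ) ^ (49 / 50 : ℝ) := Real.one_le_rpow hn0 (by norm_num)
    -- the number of colours
    have hy : ((kk e n + c : ℕ) : ℝ) ≤ (n : ℝ) / (A - ε) := by
      have h1 : (n : ℝ) / (A - e) + (n : ℝ) * (ε / 2) / A ^ 2 ≤ (n : ℝ) / (A - ε) := by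
        have h2 : (n : ℝ) / (A - ε) - (n : ℝ) / (A - e) =
            (n : ℝ) * (ε - e) / ((A - ε) * (A - e)) := by
          field_simp
          ring
        have h3 : (n : ℝ) * (ε / 2) / A ^ 2 ≤ (n : ℝ) * (ε - e) / ((A - ε) * (A - e)) := by
          apply div_le_div₀
          · apply mul_nonneg (by linarith)
            linarith
          · apply mul_le_mul_of_nonneg_left _ (by linarith)
            linarith
          · positivity
          · rw [pow_two]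
            apply mul_le_mul (by linarith) (by linarith) hAe.le hA0.le
        linarith
      have h2 : 3 * (n : ℝ) ^ (49 / 50 : ℝ) ≤ (n : ℝ) * (ε / 2) / A ^ 2 := by
        rw [le_div_iff₀ (by positivity)]
        have h3 : A ^ 2 ≤ 9 * Real.log n ^ 2 := by
          calc A ^ 2 ≤ (3 * Real.log n) ^ 2 := pow_le_pow_left₀ hA0.le hA3 2
            _ = 9 * Real.log n ^ 2 := by ring
        have h4 : 27 * Real.log n ^ 2 ≤ ε / 2 * (n : ℝ) ^ (1 / 50 : ℝ) := by
          have h5 : 54 / ε * Real.log n ^ 2 = (27 * Real.log n ^ 2) / (ε / 2) := by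
            field_simp
            ring
          rw [h5, div_le_iff₀ (by positivity)] at h50
          linarith
        have h5 : (n : ℝ) ^ (49 / 50 : ℝ) * (n : ℝ) ^ (1 / 50 : ℝ) = n := by
          rw [← Real.rpow_add (by linarith)]
          norm_num
        calc 3 * (n : ℝ) ^ (49 / 50 : ℝ) * A ^ 2
            ≤ 3 * (n : ℝ) ^ (49 / 50 : ℝ) * (9 * Real.log n ^ 2) := by gcongr
          _ = (n : ℝ) ^ (49 / 50 : ℝ) * (27 * Real.log n ^ 2) := by ring
          _ ≤ (n : ℝ) ^ (49 / 50 : ℝ) * (ε / 2 * (n : ℝ) ^ (1 / 50 : ℝ)) := by gcongr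
          _ = ((n : ℝ) ^ (49 / 50 : ℝ) * (n : ℝ) ^ (1 / 50 : ℝ)) * (ε / 2) := by ring
          _ = (n : ℝ) * (ε / 2) := by rw [h5]
      push_cast
      linarith
    -- concentration
    have hconc := conc n (kk e n) (kk e n + c) hn1 (Nat.le_add_right _ _)
    have hT : 1 - T n (kk e n) = Pr n (fun G => G.Colorable (kk e n)) := by
      rw [T, Pr_compl]
      ring
    rw [hT] at hconc
    have hsq : (n : ℝ) ^ (24 / 25 : ℝ) / 8 ≤
        ((((kk e n + c : ℕ) : ℝ) - (kk e n : ℝ)) ^ 2 / (8 * n)) := by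
      have h1 : ((kk e n + c : ℕ) : ℝ) - (kk e n : ℝ) = c := by
        push_cast
        ring
      rw [h1, div_le_div_iff₀ (by norm_num) (by positivity)]
      have h2 : ((n : ℝ) ^ (49 / 50 : ℝ)) ^ 2 ≤ (c : ℝ) ^ 2 :=
        pow_le_pow_left₀ (by positivity) hc1 2
      have h3 : ((n : ℝ) ^ (49 / 50 : ℝ)) ^ 2 = (n : ℝ) ^ (24 / 25 : ℝ) * n := by
        have h4 : (n : ℝ) ^ (24 / 25 : ℝ) * (n : ℝ) = (n : ℝ) ^ (24 / 25 : ℝ) * (n : ℝ) ^ (1 : ℝ) := by
          rw [Real.rpow_one]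
        rw [h4, ← Real.rpow_natCast, ← Real.rpow_mul (by linarith), ← Real.rpow_add (by linarith)]
        norm_num
      rw [h3] at h2
      linarith
    have hTy : T n (kk e n + c) ≤ Real.exp (-((n : ℝ) ^ (19 / 20 : ℝ))) := by
      have hT0 := T_nonneg n (kk e n + c)
      have h1 : Real.exp (-((n : ℝ) ^ (19 / 20 : ℝ))) * T n (kk e n + c) ≤
          Real.exp (-((n : ℝ) ^ (24 / 25 : ℝ) / 8)) := by
        refine (mul_le_mul_of_nonneg_right hc hT0).trans (hconc.trans ?_)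
        exact Real.exp_le_exp.2 (neg_le_neg hsq)
      have h2 : Real.exp (-((n : ℝ) ^ (24 / 25 : ℝ) / 8)) ≤
          Real.exp (-((n : ℝ) ^ (19 / 20 : ℝ))) * Real.exp (-((n : ℝ) ^ (19 / 20 : ℝ))) := by
        rw [← Real.exp_add]
        apply Real.exp_le_exp.2
        linarith
      exact le_of_mul_le_mul_left (h1.trans h2) (Real.exp_pos _)
    have hfin : Pr n (fun G => G.Colorable (kk e n + c)) ≤ Pr n (fun G =>
        (G.chromaticNumber.toNat : ℝ) ≤ (n : ℝ) / (A - ε)) := by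
      refine Pr_mono n _ _ fun G hG => ?_
      refine le_trans ?_ hy
      exact_mod_cast fi_col hG
    have hT2 : T n (kk e n + c) = 1 - Pr n (fun G => G.Colorable (kk e n + c)) := Pr_compl n _
    linarith
  have hlim : Tendsto (fun n : ℕ => 1 - Real.exp (-((n : ℝ) ^ (19 / 20 : ℝ)))) atTop (𝓝 1) := by
    have h1 : Tendsto (fun n : ℕ => (n : ℝ) ^ (19 / 20 : ℝ)) atTop atTop :=
      (tendsto_rpow_atTop (by norm_num)).comp tendsto_natCast_atTop_atTop
    have h2 := (Real.tendsto_exp_neg_atTop_nhds_zero.comp h1).const_sub 1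
    simpa using h2
  exact tendsto_of_tendsto_of_tendsto_of_le_of_le' hlim tendsto_const_nhds hlow
    (Eventually.of_forall fun n => hle n _)

end ZS51
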