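import Pool.Agent.ZS51.Defs

/-!
# ZS51/Params: the parameters `k = kk ε n`, `a = n / k`

Put `A = al0 n - 1 - 2/log 2 = 2 log₂ n - 2 log₂ log₂ n - 2` (`al0_eq`).  `k = ⌈n/(A-ε)⌉₊`, so `n/k ≤ A - ε` and
`k ≤ n/(A-ε) + 1`, hence `n/k ≥ A - ε - o(1)`; `(n:ℝ)/k = a + (n % k)/k`, `a = n / k`.
-/

set_option autoImplicit false

open Filter Topology ZZ51

namespace ZS51

private lemma par_log2_lo : (0.6931 : ℝ) ≤ Real.log 2 := by
  have := Real.log_two_gt_d9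
  norm_num at this ⊢
  linarith

private lemma par_log2_hi : Real.log 2 ≤ (7 / 10 : ℝ) := by
  have := Real.log_two_lt_d9
  norm_num at this ⊢
  linarith

private lemma par_lin : ∃ C : ℝ, ∀ n : ℕ, 8 ≤ n → Real.log n + (2 / 5) * Real.log n - C ≤ al0 n := by
  refine ⟨(7 / 5) * (3 * Real.log 2) - al0 8, fun n hn => ?_⟩
  have h1 := al0_diff_ge 8 n (by norm_num) hn
  have hn0 : (0 : ℝ) < n := by exact_mod_cast (by omega : 0 < n)
  have hlo := par_log2_lo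
  have hhi := par_log2_hi
  have hl2 : 0 < Real.log 2 := by linarith
  have h8 : Real.log ((8 : ℕ) : ℝ) = 3 * Real.log 2 := by
    have : ((8 : ℕ) : ℝ) = 2 ^ 3 := by norm_num
    rw [this, Real.log_pow]
    norm_num
  have h2 : 1 ≤ 2 - 2 / Real.log ((8 : ℕ) : ℝ) := by
    rw [h8, le_sub_comm, div_le_iff₀ (by linarith)]
    linarith
  have h3 : 0 ≤ Real.log ((n : ℝ) / ((8 : ℕ) : ℝ)) := by
    apply Real.log_nonneg
    rw [one_le_div (by norm_num)]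
    exact_mod_cast hn
  have h4 : (7 / 5) * Real.log ((n : ℝ) / ((8 : ℕ) : ℝ)) ≤ Real.logb 2 ((n : ℝ) / ((8 : ℕ) : ℝ)) := by
    unfold Real.logb
    rw [le_div_iff₀ hl2]
    have := mul_le_mul_of_nonneg_left hhi (mul_nonneg (by norm_num : (0:ℝ) ≤ 7/5) h3)
    linarith
  have h5 : 0 ≤ Real.logb 2 ((n : ℝ) / ((8 : ℕ) : ℝ)) := le_trans (by positivity) h4
  have h6 : Real.logb 2 ((n : ℝ) / ((8 : ℕ) : ℝ)) ≤
      (2 - 2 / Real.log ((8 : ℕ) : ℝ)) * Real.logb 2 ((n : ℝ) / ((8 : ℕ) : ℝ)) := by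
    have := mul_le_mul_of_nonneg_right h2 h5
    linarith
  rw [Real.log_div hn0.ne' (by norm_num), h8] at h4
  linarith

theorem params (ε : ℝ) (hε : 0 < ε) (hε1 : ε ≤ 1) : ∀ᶠ n : ℕ in atTop,
    1 ≤ kk ε n ∧ kk ε n ≤ n ∧ (n : ℝ) / kk ε n ≤ al0 n - 1 - 2 / Real.log 2 - ε ∧
    (kk ε n : ℝ) ≤ n / (al0 n - 1 - 2 / Real.log 2 - ε) + 1 ∧
    al0 n - 6 ≤ ((n / kk ε n : ℕ) : ℝ) ∧ ((n / kk ε n : ℕ) : ℝ) + 1 ≤ 2 * Real.logb 2 (n : ℝ) ∧
    Real.log n + 1 ≤ ((n / kk ε n : ℕ) : ℝ) ∧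
    ((n / kk ε n : ℕ) : ℝ) + ((n % kk ε n : ℕ) : ℝ) / (kk ε n : ℝ)
      ≤ al0 n - 1 - 2 / Real.log 2 - ε := by
  obtain ⟨C, hC⟩ := par_lin
  have tlog : Tendsto (fun n : ℕ => Real.log (n : ℝ)) atTop atTop :=
    Real.tendsto_log_atTop.comp tendsto_natCast_atTop_atTop
  have tsq : ∀ᶠ n : ℕ in atTop, ‖Real.log (n : ℝ) ^ 2‖ ≤ 1 / 90 * ‖((n : ℝ))‖ :=
    tendsto_natCast_atTop_atTop.eventually
      ((Real.isLittleO_pow_log_id_atTop (n := 2)).bound (c := 1 / 90) (by norm_num))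
  filter_upwards [eventually_ge_atTop 8, tlog.eventually_ge_atTop (5 / 2 * (C + 7)), al0_bounds,
    al0_tendsto.eventually_ge_atTop 10, tsq] with n hn hl hb h10 hsq
  obtain ⟨-, hb2, hb3, -⟩ := hb
  have hlo := par_log2_lo
  have hhi := par_log2_hi
  have hl2 : 0 < Real.log 2 := by linarith
  have hlin := hC n hn
  have hn8 : (8 : ℝ) ≤ n := by exact_mod_cast hn
  have hn0 : (0 : ℝ) < n := by linarith
  have hln : 0 ≤ Real.log (n : ℝ) := Real.log_natCast_nonneg n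
  have hlog2 : 2 / Real.log 2 ≤ 2.886 := by
    rw [div_le_iff₀ hl2]
    norm_num at hlo ⊢
    linarith
  have hlog2' : 0 < 2 / Real.log 2 := by positivity
  obtain ⟨B, hB⟩ : ∃ B, B = al0 n - 1 - 2 / Real.log 2 - ε := ⟨_, rfl⟩
  have hkk : kk ε n = ⌈(n : ℝ) / B⌉₊ := by rw [hB]; rfl
  rw [← hB]
  have hB1 : 1 ≤ B := by
    rw [hB]
    norm_num at hlog2 ⊢
    linarith
  have hB0 : 0 < B := by linarith
  have hBl : B ≤ 3 * Real.log n := by rw [hB]; linarith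
  have hB2 : B ^ 2 ≤ 0.1 * n := by
    rw [Real.norm_of_nonneg (sq_nonneg _), Real.norm_of_nonneg hn0.le] at hsq
    have h1 : B ^ 2 ≤ (3 * Real.log n) ^ 2 := pow_le_pow_left₀ hB0.le hBl 2
    have h2 : (3 * Real.log n) ^ 2 = 9 * Real.log n ^ 2 := by ring
    norm_num
    linarith
  obtain ⟨m, hm⟩ : ∃ m, m = (n : ℝ) / B := ⟨_, rfl⟩
  have hmB : m * B = n := by rw [hm]; field_simp
  have hm0 : 0 < m := by rw [hm]; positivity
  have hBm : B ≤ 0.1 * m := by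
    have h1 : B * B ≤ 0.1 * m * B := by
      rw [mul_assoc, hmB]
      nlinarith
    exact le_of_mul_le_mul_right h1 hB0
  rw [← hm] at hkk
  obtain ⟨k, hk⟩ : ∃ k, k = kk ε n := ⟨_, rfl⟩
  rw [← hk] at hkk ⊢
  have hk1 : 1 ≤ k := by
    rw [hkk]
    exact Nat.one_le_ceil_iff.2 hm0
  have hkn : k ≤ n := by
    rw [hkk]
    apply Nat.ceil_le.2
    rw [← hmB]
    exact le_mul_of_one_le_right hm0.le hB1
  have hmk : m ≤ k := by rw [hkk]; exact Nat.le_ceil m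
  have hkm : (k : ℝ) ≤ m + 1 := by rw [hkk]; exact (Nat.ceil_lt_add_one hm0.le).le
  have hk0 : (0 : ℝ) < k := by exact_mod_cast hk1
  have hnk : (n : ℝ) / k ≤ B := by
    rw [div_le_iff₀ hk0, ← hmB, mul_comm]
    exact mul_le_mul_of_nonneg_left hmk hB0.le
  have hdm : (n : ℝ) = k * ((n / k : ℕ) : ℝ) + ((n % k : ℕ) : ℝ) := by
    exact_mod_cast (Nat.div_add_mod n k).symm
  have hmod : ((n % k : ℕ) : ℝ) < k := by exact_mod_cast Nat.mod_lt n hk1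
  have hsum : ((n / k : ℕ) : ℝ) + ((n % k : ℕ) : ℝ) / (k : ℝ) = n / k := by
    rw [eq_div_iff hk0.ne', add_mul, div_mul_cancel₀ _ hk0.ne']
    linarith
  have hmodk : ((n % k : ℕ) : ℝ) / (k : ℝ) < 1 := by rw [div_lt_one hk0]; exact hmod
  have hmod0 : 0 ≤ ((n % k : ℕ) : ℝ) / (k : ℝ) := by positivity
  have hlow : B - 0.1 ≤ (n : ℝ) / k := by
    rw [le_div_iff₀ hk0]
    have h1 : (B - 0.1) * k ≤ (B - 0.1) * (m + 1) := by
      apply mul_le_mul_of_nonneg_left hkm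
      norm_num
      linarith
    have h2 : (B - 0.1) * (m + 1) = m * B + B - 0.1 * m - 0.1 := by ring
    norm_num at h1 h2 hBm ⊢
    linarith
  have h5 : al0 n - 6 ≤ ((n / k : ℕ) : ℝ) := by
    norm_num at hlow hlog2 ⊢
    linarith
  have h6 : ((n / k : ℕ) : ℝ) + 1 ≤ 2 * Real.logb 2 (n : ℝ) := by
    have h1 := al0_eq n
    have h4 : (2 : ℝ) ≤ Real.logb 2 (n : ℝ) := by
      rw [Real.le_logb_iff_rpow_le (by norm_num) hn0]
      norm_num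
      linarith
    have h7 : 0 ≤ Real.logb 2 (Real.logb 2 (n : ℝ)) :=
      Real.logb_nonneg (by norm_num) (by linarith)
    linarith
  exact ⟨hk1, hkn, hnk, hkm.trans (le_of_eq (by rw [hm])), h5, h6, by linarith, by linarith⟩

end ZS51
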