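import Pool.Agent.ZS51.CountB

/-!
# ZS51/Second: the second moment inequality

PROOF. For `f : Fin n → Fin k` let `F_f` be the set of (non-diagonal) pairs `s(u,v)` with `f u = f v`;
`f` is a proper colouring of `G` iff `G` avoids `F_f`, and `|F_f| = ∑_i C(cnt univ f i, 2) = P` is the same for all
`f ∈ Om0 s`, and `|F_f ∩ F_g| = ov univ f g`.  `ZZ51.card_avoid`: `#{G : f proper} = 2^{C(n,2) - P}`,
`#{G : f and g proper} = 2^{C(n,2) - 2P + ov f g}`.  With `Z(G) = #{f ∈ Om0 s : f proper for G}`: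
`(∑_G Z)² ≤ #{G : Z > 0} · ∑_G Z²` (Cauchy-Schwarz), `Z > 0 → G.Colorable k`, so
`Pr (Colorable k) ≥ |Om0 s|² / ∑_{f,g} 2^{ov f g} ≥ |Om0 s|² / (|Om0 s|² Q) = 1/Q`.
-/

set_option autoImplicit false

namespace ZS51

variable {n k : ℕ}

/-- the graph of the monochromatic pairs -/
private def mono {α : Type} (f : Fin n → α) : SimpleGraph (Fin n) where
  Adj u v := u ≠ v ∧ f u = f v
  symm := ⟨fun _ _ h => ⟨h.1.symm, h.2.symm⟩⟩
  loopless := ⟨fun _ h => h.1 rfl⟩

private theorem two_choose (c : ℕ) : c * (c - 1) = 2 * c.choose 2 := by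
  rw [Nat.choose_two_right]
  exact (Nat.mul_div_cancel' (Nat.even_mul_pred_self c).two_dvd).symm

open Classical in
private theorem mono_card {α : Type} [Fintype α] (f : Fin n → α) :
    (mono f).edgeFinset.card = ∑ a : α, ((Finset.univ.filter (fun v => f v = a)).card).choose 2 := by
  have h1 := SimpleGraph.sum_degrees_eq_twice_card_edges (mono f)
  have hdeg : ∀ v, (mono f).degree v = (Finset.univ.filter (fun u => f u = f v)).card - 1 := by
    intro v
    have h2 : (mono f).neighborFinset v = (Finset.univ.filter (fun u => f u = f v)).erase v := by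
      ext u
      rw [SimpleGraph.mem_neighborFinset, Finset.mem_erase, Finset.mem_filter]
      constructor
      · rintro ⟨a, b⟩
        exact ⟨fun h => a h.symm, Finset.mem_univ _, b.symm⟩
      · rintro ⟨a, -, b⟩
        exact ⟨fun h => a h.symm, b.symm⟩
    rw [← SimpleGraph.card_neighborFinset_eq_degree, h2]
    apply Finset.card_erase_of_mem
    rw [Finset.mem_filter]
    exact ⟨Finset.mem_univ _, rfl⟩
  have h2 : ∑ v : Fin n, (mono f).degree v =
      ∑ a : α, (Finset.univ.filter (fun v => f v = a)).card * ((Finset.univ.filter (fun v => f v = a)).card - 1) := by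
    rw [Finset.sum_congr rfl (fun v _ => hdeg v),
      ← Finset.sum_fiberwise Finset.univ f (fun v => (Finset.univ.filter (fun u => f u = f v)).card - 1)]
    refine Finset.sum_congr rfl fun a _ => ?_
    rw [Finset.sum_congr rfl (g := fun _ => (Finset.univ.filter (fun v => f v = a)).card - 1)]
    · rw [Finset.sum_const, smul_eq_mul]
    · intro v hv
      rw [Finset.mem_filter] at hv
      rw [hv.2]
  rw [h2] at h1
  have h3 : ∑ a : α, (Finset.univ.filter (fun v => f v = a)).card *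
      ((Finset.univ.filter (fun v => f v = a)).card - 1) =
      2 * ∑ a : α, ((Finset.univ.filter (fun v => f v = a)).card).choose 2 := by
    rw [Finset.mul_sum]
    exact Finset.sum_congr rfl (fun a _ => two_choose _)
  omega

private theorem proper_iff (f : Fin n → Fin k) (G : SimpleGraph (Fin n)) [Fintype (mono f).edgeSet] :
    (∀ u v, G.Adj u v → f u ≠ f v) ↔ ∀ e ∈ (mono f).edgeFinset, e ∉ G.edgeSet := by
  constructor
  · intro h e
    induction e using Sym2.ind with
    | _ u v =>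
      intro he hG
      rw [SimpleGraph.mem_edgeFinset, SimpleGraph.mem_edgeSet] at he
      rw [SimpleGraph.mem_edgeSet] at hG
      exact h u v hG he.2
  · intro h u v huv hf
    refine h s(u, v) ?_ ((SimpleGraph.mem_edgeSet _).2 huv)
    rw [SimpleGraph.mem_edgeFinset, SimpleGraph.mem_edgeSet]
    exact ⟨huv.ne, hf⟩

open Classical in
/-- graphs for which `f` is proper -/
private theorem card1 (s : Fin k → ℕ) {f : Fin n → Fin k} (hf : f ∈ Om0 (n := n) s) :
    (((Finset.univ : Finset (SimpleGraph (Fin n))).filter (fun G => ∀ u v, G.Adj u v → f u ≠ f v)).card : ℝ) *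
      (2 : ℝ) ^ (∑ j, (s j).choose 2) = (2 : ℝ) ^ (n.choose 2) := by
  have h1 := ZZ51.card_avoid n (mono f).edgeFinset (fun e he => by
    rw [SimpleGraph.mem_edgeFinset] at he
    exact (mono f).not_isDiag_of_mem_edgeSet he)
  have h2 : Nat.card {G : SimpleGraph (Fin n) // ∀ e ∈ (mono f).edgeFinset, e ∉ G.edgeSet} =
      ((Finset.univ : Finset (SimpleGraph (Fin n))).filter (fun G => ∀ u v, G.Adj u v → f u ≠ f v)).card := by
    rw [← Nat.card_congr (Equiv.subtypeEquivRight (fun G => proper_iff f G)), Nat.card_eq_fintype_card,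
      Fintype.card_subtype]
  have h3 : (mono f).edgeFinset.card = ∑ j, (s j).choose 2 := by
    rw [mono_card]
    refine Finset.sum_congr rfl fun j _ => ?_
    have h4 : cnt Finset.univ f j = s j := (Finset.mem_filter.1 hf).2 j
    rw [← h4]
    unfold cnt
    congr 2
    ext v
    simp only [Finset.mem_filter]
  rw [h2, h3] at h1
  exact_mod_cast h1

open Classical in
private theorem card2 (s : Fin k → ℕ) {f g : Fin n → Fin k} (hf : f ∈ Om0 (n := n) s) (hg : g ∈ Om0 (n := n) s) :
    (((Finset.univ : Finset (SimpleGraph (Fin n))).filter (fun G => (∀ u v, G.Adj u v → f u ≠ f v) ∧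
      ∀ u v, G.Adj u v → g u ≠ g v)).card : ℝ) *
      ((2 : ℝ) ^ (∑ j, (s j).choose 2)) ^ 2 = (2 : ℝ) ^ (n.choose 2) * (2 : ℝ) ^ (ov Finset.univ f g) := by
  have hc : ∀ φ ∈ Om0 (n := n) s, (mono φ).edgeFinset.card = ∑ j, (s j).choose 2 := by
    intro φ hφ
    rw [mono_card]
    refine Finset.sum_congr rfl fun j _ => ?_
    have h4 : cnt Finset.univ φ j = s j := (Finset.mem_filter.1 hφ).2 j
    rw [← h4]
    unfold cnt
    congr 2
    ext v
    simp only [Finset.mem_filter]
  have h1 := ZZ51.card_avoid n ((mono f).edgeFinset ∪ (mono g).edgeFinset) (fun e he => by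
    rcases Finset.mem_union.1 he with he | he
    · rw [SimpleGraph.mem_edgeFinset] at he
      exact (mono f).not_isDiag_of_mem_edgeSet he
    · rw [SimpleGraph.mem_edgeFinset] at he
      exact (mono g).not_isDiag_of_mem_edgeSet he)
  have h2 : Nat.card {G : SimpleGraph (Fin n) //
      ∀ e ∈ (mono f).edgeFinset ∪ (mono g).edgeFinset, e ∉ G.edgeSet} =
      ((Finset.univ : Finset (SimpleGraph (Fin n))).filter (fun G => (∀ u v, G.Adj u v → f u ≠ f v) ∧
      ∀ u v, G.Adj u v → g u ≠ g v)).card := by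
    have he : ∀ G : SimpleGraph (Fin n), ((∀ u v, G.Adj u v → f u ≠ f v) ∧ ∀ u v, G.Adj u v → g u ≠ g v) ↔
        ∀ e ∈ (mono f).edgeFinset ∪ (mono g).edgeFinset, e ∉ G.edgeSet := by
      intro G
      rw [proper_iff f G, proper_iff g G]
      constructor
      · rintro ⟨a, b⟩ e he
        rcases Finset.mem_union.1 he with he | he
        · exact a e he
        · exact b e he
      · intro a
        exact ⟨fun e he => a e (Finset.mem_union_left _ he), fun e he => a e (Finset.mem_union_right _ he)⟩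
    rw [← Nat.card_congr (Equiv.subtypeEquivRight he), Nat.card_eq_fintype_card, Fintype.card_subtype]
  have h3 : ((mono f).edgeFinset ∩ (mono g).edgeFinset).card = ov Finset.univ f g := by
    have h5 : (mono f).edgeFinset ∩ (mono g).edgeFinset = (mono (fun v => (f v, g v))).edgeFinset := by
      ext e
      rw [Finset.mem_inter, SimpleGraph.mem_edgeFinset, SimpleGraph.mem_edgeFinset, SimpleGraph.mem_edgeFinset]
      induction e using Sym2.ind with
      | _ u v =>
        rw [SimpleGraph.mem_edgeSet, SimpleGraph.mem_edgeSet, SimpleGraph.mem_edgeSet]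
        unfold mono
        simp only [Prod.mk.injEq]
        tauto
    rw [h5, mono_card, Fintype.sum_prod_type]
    unfold ov cell
    refine Finset.sum_congr rfl fun i _ => Finset.sum_congr rfl fun j _ => ?_
    congr 2
    ext v
    simp only [Finset.mem_filter, Prod.mk.injEq]
  have h4 := Finset.card_union_add_card_inter (mono f).edgeFinset (mono g).edgeFinset
  rw [h3, hc f hf, hc g hg] at h4
  rw [h2] at h1
  have h5 : (((Finset.univ : Finset (SimpleGraph (Fin n))).filter (fun G => (∀ u v, G.Adj u v → f u ≠ f v) ∧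
      ∀ u v, G.Adj u v → g u ≠ g v)).card : ℝ) *
      (2 : ℝ) ^ ((mono f).edgeFinset ∪ (mono g).edgeFinset).card = (2 : ℝ) ^ (n.choose 2) := by
    exact_mod_cast h1
  rw [← h5, mul_assoc, ← pow_add, h4, pow_add, sq]

theorem second_moment (s : Fin k → ℕ) (hs : ∑ j, s j = n) (Q : ℝ) (hQ : 0 < Q)
    (h : ∀ f ∈ Om0 (n := n) s, ∑ g ∈ Om0 (n := n) s, (2 : ℝ) ^ (ov Finset.univ f g)
      ≤ ((Om0 (n := n) s).card : ℝ) * Q) :
    1 / Q ≤ ZZ51.Pr n (fun G => G.Colorable k) := by
  classical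
  set c0 : ℝ := ((Om0 (n := n) s).card : ℝ) with hc0
  have hc0pos : 0 < c0 := by
    rw [hc0]
    exact_mod_cast om_pos s hs
  set A : ℝ := (2 : ℝ) ^ (n.choose 2) with hA
  have hApos : 0 < A := by positivity
  set B : ℝ := (2 : ℝ) ^ (∑ j, (s j).choose 2) with hB
  have hBpos : 0 < B := by positivity
  set Z : SimpleGraph (Fin n) → ℝ := fun G =>
    ∑ f ∈ Om0 (n := n) s, (if ∀ u v, G.Adj u v → f u ≠ f v then (1 : ℝ) else 0) with hZ
  have hsum1 : (∑ G : SimpleGraph (Fin n), Z G) * B = c0 * A := by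
    rw [hZ, Finset.sum_comm, Finset.sum_mul, hc0, ← nsmul_eq_mul, ← Finset.sum_const]
    refine Finset.sum_congr rfl fun f hf => ?_
    rw [Finset.sum_boole]
    exact card1 s hf
  have hsum2 : (∑ G : SimpleGraph (Fin n), Z G ^ 2) * B ^ 2 ≤ A * (c0 * (c0 * Q)) := by
    have e1 : ∀ G : SimpleGraph (Fin n), Z G ^ 2 = ∑ f ∈ Om0 (n := n) s, ∑ g ∈ Om0 (n := n) s,
        (if (∀ u v, G.Adj u v → f u ≠ f v) ∧ ∀ u v, G.Adj u v → g u ≠ g v then (1 : ℝ) else 0) := by
      intro G
      rw [hZ, sq, Finset.sum_mul_sum]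
      refine Finset.sum_congr rfl fun f _ => Finset.sum_congr rfl fun g _ => ?_
      by_cases h1 : ∀ u v, G.Adj u v → f u ≠ f v
      · by_cases h2 : ∀ u v, G.Adj u v → g u ≠ g v
        · rw [if_pos h1, if_pos h2, if_pos ⟨h1, h2⟩, mul_one]
        · have h3 : ¬ ((∀ u v, G.Adj u v → f u ≠ f v) ∧ ∀ u v, G.Adj u v → g u ≠ g v) := fun hh => h2 hh.2
          rw [if_neg h2, if_neg h3, mul_zero]
      · have h3 : ¬ ((∀ u v, G.Adj u v → f u ≠ f v) ∧ ∀ u v, G.Adj u v → g u ≠ g v) := fun hh => h1 hh.1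
        rw [if_neg h1, if_neg h3, zero_mul]
    rw [Finset.sum_congr rfl (fun G _ => e1 G), Finset.sum_comm, Finset.sum_mul]
    have e2 : ∀ f ∈ Om0 (n := n) s, (∑ G : SimpleGraph (Fin n), ∑ g ∈ Om0 (n := n) s,
        (if (∀ u v, G.Adj u v → f u ≠ f v) ∧ ∀ u v, G.Adj u v → g u ≠ g v then (1 : ℝ) else 0)) * B ^ 2 ≤
        A * (c0 * Q) := by
      intro f hf
      rw [Finset.sum_comm, Finset.sum_mul]
      have e3 : ∀ g ∈ Om0 (n := n) s, (∑ G : SimpleGraph (Fin n),
          (if (∀ u v, G.Adj u v → f u ≠ f v) ∧ ∀ u v, G.Adj u v → g u ≠ g v then (1 : ℝ) else 0)) * B ^ 2 =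
          A * (2 : ℝ) ^ (ov Finset.univ f g) := by
        intro g hg
        rw [Finset.sum_boole]
        exact card2 s hf hg
      rw [Finset.sum_congr rfl e3, ← Finset.mul_sum]
      exact mul_le_mul_of_nonneg_left (h f hf) hApos.le
    refine (Finset.sum_le_sum e2).trans (le_of_eq ?_)
    rw [Finset.sum_const, nsmul_eq_mul, ← hc0]
    ring
  set U : Finset (SimpleGraph (Fin n)) := Finset.univ.filter (fun G => Z G ≠ 0) with hU
  have hUs : ∑ G ∈ U, Z G = ∑ G : SimpleGraph (Fin n), Z G := Finset.sum_filter_ne_zero _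
  have hcs := sq_sum_le_card_mul_sum_sq (s := U) (f := Z)
  have hU2 : ∑ G ∈ U, Z G ^ 2 ≤ ∑ G : SimpleGraph (Fin n), Z G ^ 2 :=
    Finset.sum_le_sum_of_subset_of_nonneg (Finset.filter_subset _ _) (fun G _ _ => sq_nonneg _)
  rw [hUs] at hcs
  have h1 : (c0 * A) ^ 2 ≤ (U.card : ℝ) * (A * (c0 * (c0 * Q))) := by
    rw [← hsum1, mul_pow]
    calc (∑ G : SimpleGraph (Fin n), Z G) ^ 2 * B ^ 2
        ≤ ((U.card : ℝ) * ∑ G ∈ U, Z G ^ 2) * B ^ 2 := mul_le_mul_of_nonneg_right hcs (sq_nonneg _)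
      _ ≤ ((U.card : ℝ) * ∑ G : SimpleGraph (Fin n), Z G ^ 2) * B ^ 2 :=
          mul_le_mul_of_nonneg_right (mul_le_mul_of_nonneg_left hU2 (Nat.cast_nonneg _)) (sq_nonneg _)
      _ = (U.card : ℝ) * ((∑ G : SimpleGraph (Fin n), Z G ^ 2) * B ^ 2) := by ring
      _ ≤ (U.card : ℝ) * (A * (c0 * (c0 * Q))) := mul_le_mul_of_nonneg_left hsum2 (Nat.cast_nonneg _)
  have h2 : A ≤ (U.card : ℝ) * Q := by
    have h3 : A * (A * c0 ^ 2) ≤ ((U.card : ℝ) * Q) * (A * c0 ^ 2) := by nlinarith
    exact le_of_mul_le_mul_right h3 (by positivity)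
  have h3 : (U.card : ℝ) ≤ (Nat.card {G : SimpleGraph (Fin n) // G.Colorable k} : ℝ) := by
    rw [Nat.card_eq_fintype_card, Fintype.card_subtype]
    have h4 : U ⊆ Finset.univ.filter (fun G : SimpleGraph (Fin n) => G.Colorable k) := by
      intro G hG
      rw [hU, Finset.mem_filter] at hG
      rw [Finset.mem_filter]
      refine ⟨Finset.mem_univ _, ?_⟩
      obtain ⟨f, _, hf⟩ := Finset.exists_ne_zero_of_sum_ne_zero hG.2
      by_cases h5 : ∀ u v, G.Adj u v → f u ≠ f v
      · exact ⟨SimpleGraph.Coloring.mk f (fun {u v} huv => h5 u v huv)⟩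
      · rw [if_neg h5] at hf
        exact absurd rfl hf
    exact_mod_cast Finset.card_le_card h4
  unfold ZZ51.Pr
  rw [div_le_div_iff₀ hQ hApos, one_mul]
  exact h2.trans (mul_le_mul_of_nonneg_right h3 hQ.le)

end ZS51
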